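import Pool.Agent.TH145.MG.FinV
import Pool.Agent.TH145.MG.Dim
import Pool.Agent.TH145.MG.Core2

/-!
Dimensions and algebraic independence under extension of the base field.
-/

set_option autoImplicit false
set_option linter.unusedSectionVars false
set_option linter.unusedVariables false
set_option linter.unusedSimpArgs false

open MvPolynomial Pool.Agent.W602.GT Pool.Agent.TH145.MG
open Cardinal

namespace Pool.Agent.K9h33.BL

/-- The transcendence degree of the field of the ratios of the coordinates. -/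
theorem trdeg_le_of_cl {k Ω : Type} [Field k] [Field Ω] [Algebra k Ω] {n : ℕ}
    (x : Fin (n + 1) → Ω) (I : Finset (Fin (n + 1))) (h : ∀ i, x i ∈ cl k (x '' I)) :
    Algebra.trdeg k (coords k x) ≤ I.card := by
  classical
  have hco : coords k x ≤ cl k (x '' I) := by
    unfold coords
    rw [IntermediateField.adjoin_le_iff]
    rintro z ⟨i, j, hj, rfl⟩
    exact div_mem (h i) (h j)
  refine ciSup_le' fun s => ?_
  obtain ⟨s, hs⟩ := s
  by_contra hcon
  rw [not_le] at hcon
  have h1 : ((I.card + 1 : ℕ) : Cardinal) ≤ #s := by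
    rcases lt_or_ge #s ℵ₀ with h | h
    · obtain ⟨N, hN⟩ := Cardinal.lt_aleph0.1 h
      have hcon' : (I.card : Cardinal) < #s := hcon
      rw [hN] at hcon' ⊢
      exact_mod_cast hcon'
    · exact (Cardinal.natCast_lt_aleph0.le).trans h
  have h1' : #(Fin (I.card + 1)) ≤ #s := by rwa [Cardinal.mk_fin]
  obtain ⟨f⟩ := h1'
  have hs' : AlgebraicIndependent k (fun i : Fin (I.card + 1) => ((f i : coords k x) : Ω)) := by
    have h2 : AlgebraicIndependent k (fun i : s => (i : coords k x)) := hs
    have h3 := h2.comp f f.injective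
    exact h3.map' (f := (coords k x).val) Subtype.val_injective
  have h2 := card_le (I := Fin (I.card + 1)) (J := I) _ hs' (fun i => x i) (fun i => by
    have h3 : Set.range (fun i : I => x i) = x '' I := by
      ext z
      constructor
      · rintro ⟨i, rfl⟩
        exact ⟨i, i.2, rfl⟩
      · rintro ⟨i, hi, rfl⟩
        exact ⟨⟨i, hi⟩, rfl⟩
    rw [h3]
    exact hco (f i : coords k x).2)
  simp at h2

/-- Extension of the base field does not increase the dimension of a point. -/
theorem trdeg_base {k k' Ω : Type} [Field k] [Field k'] [Field Ω] [Algebra k k'] [Algebra k Ω]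
    [Algebra k' Ω] [IsScalarTower k k' Ω] {n m : ℕ} (x : Fin (n + 1) → Ω) (hx : x ≠ 0)
    (h : Algebra.trdeg k (coords k x) ≤ m) : Algebra.trdeg k' (coords k' x) ≤ m := by
  classical
  obtain ⟨l, hl⟩ := Function.ne_iff.1 hx
  have hl : x l ≠ 0 := hl
  obtain ⟨y, hy⟩ : ∃ y : Fin (n + 1) → Ω, ∀ j, y j = (x l)⁻¹ * x j := ⟨_, fun _ => rfl⟩
  have hyl : y l = 1 := by rw [hy, inv_mul_cancel₀ hl]
  have hset : {z | ∃ i j, y j ≠ 0 ∧ z = y i / y j} = {z | ∃ i j, x j ≠ 0 ∧ z = x i / x j} := by
    ext z
    constructor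
    · rintro ⟨i, j, hj, rfl⟩
      refine ⟨i, j, fun h0 => hj (by rw [hy, h0, mul_zero]), ?_⟩
      rw [hy, hy, mul_div_mul_left _ _ (inv_ne_zero hl)]
    · rintro ⟨i, j, hj, rfl⟩
      refine ⟨i, j, ?_, ?_⟩
      · rw [hy]; exact mul_ne_zero (inv_ne_zero hl) hj
      · rw [hy, hy, mul_div_mul_left _ _ (inv_ne_zero hl)]
  have hc1 : coords k y = coords k x := by unfold coords; rw [hset]
  have hc2 : coords k' y = coords k' x := by unfold coords; rw [hset]
  rw [← hc1] at h
  rw [← hc2]
  obtain ⟨I, hI, hIy⟩ := exists_basis y l hyl h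
  refine (trdeg_le_of_cl y I fun i => ?_).trans (by exact_mod_cast hI)
  -- the closures
  have h1 := mem_cl.1 (hIy i)
  rw [mem_cl]
  have h2 : ∀ a : IntermediateField.adjoin k (y '' I), (a : Ω) ∈
      IntermediateField.adjoin k' (y '' I) := by
    intro a
    have h3 : (a : Ω) ∈ Subfield.closure (Set.range (algebraMap k Ω) ∪ y '' I) := by
      rw [← IntermediateField.adjoin_toSubfield]
      exact a.2
    have h4 : Subfield.closure (Set.range (algebraMap k Ω) ∪ y '' I) ≤
        (IntermediateField.adjoin k' (y '' I)).toSubfield := by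
      rw [Subfield.closure_le]
      rintro z (⟨r, rfl⟩ | hz)
      · rw [IsScalarTower.algebraMap_apply k k' Ω]
        exact (IntermediateField.adjoin k' (y '' I)).algebraMap_mem _
      · exact IntermediateField.subset_adjoin _ _ hz
    exact h4 h3
  let φ : IntermediateField.adjoin k (y '' I) →+* IntermediateField.adjoin k' (y '' I) :=
    { toFun := fun a => ⟨(a : Ω), h2 a⟩
      map_one' := rfl
      map_mul' := fun _ _ => rfl
      map_zero' := rfl
      map_add' := fun _ _ => rfl }
  obtain ⟨p, hp0, hp⟩ := h1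
  refine ⟨p.map φ, (Polynomial.map_ne_zero_iff φ.injective).2 hp0, ?_⟩
  rw [Polynomial.aeval_def, Polynomial.eval₂_map]
  exact hp

/-- Extension of the base field does not increase the dimension. -/
theorem dimLE_map {k k' : Type} [Field k] [Field k'] [Algebra k k'] {n m : ℕ}
    {V : Set (MvPolynomial (Fin (n + 1)) k)} (hV : DimLE k V m) :
    DimLE k' (map (algebraMap k k') '' V) m := by
  intro Ω _ _ x hx0 hx
  let _ : Algebra k Ω := ((algebraMap k' Ω).comp (algebraMap k k')).toAlgebra
  have hst : IsScalarTower k k' Ω := IsScalarTower.of_algebraMap_eq fun _ => rfl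
  refine trdeg_base x hx0 (hV Ω x hx0 fun f hf => ?_)
  have h1 := hx _ ⟨f, hf, rfl⟩
  rwa [aeval_map_algebraMap] at h1

/-- A linear change of an algebraically independent family. -/
theorem algInd_linear {k K ι κ : Type} [Field k] [Field K] [Algebra k K] [Fintype ι] [Fintype κ]
    [DecidableEq ι] {t : κ → K} (ht : AlgebraicIndependent k t) {s : ι → K}
    (N : ι → κ → k) (M : κ → ι → k) (hs : ∀ i, s i = ∑ j, algebraMap k K (N i j) * t j)
    (hNM : ∀ i i', ∑ j, N i j * M j i' = if i = i' then 1 else 0) :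
    AlgebraicIndependent k s := by
  classical
  obtain ⟨φ, hφ⟩ : ∃ φ : MvPolynomial ι k →ₐ[k] MvPolynomial κ k,
      φ = aeval fun i => ∑ j, C (N i j) * X j := ⟨_, rfl⟩
  obtain ⟨ψ, hψ⟩ : ∃ ψ : MvPolynomial κ k →ₐ[k] MvPolynomial ι k,
      ψ = aeval fun j => ∑ i, C (M j i) * X i := ⟨_, rfl⟩
  have h1 : ∀ p, ψ (φ p) = p := by
    intro p
    have h2 : (ψ.comp φ) = AlgHom.id k _ := by
      refine MvPolynomial.algHom_ext fun i => ?_
      rw [AlgHom.comp_apply, hφ, aeval_X, map_sum]
      have h3 : ∀ j, ψ (C (N i j) * X j) = ∑ i', C (N i j * M j i') * X i' := by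
        intro j
        rw [map_mul, hψ, aeval_X, algHom_C, Finset.mul_sum]
        refine Finset.sum_congr rfl fun i' _ => ?_
        rw [C_mul, mul_assoc]
        rfl
      rw [Finset.sum_congr rfl fun j _ => h3 j, Finset.sum_comm]
      have h4 : ∀ i', ∑ j, C (N i j * M j i') * (X i' : MvPolynomial ι k) =
          if i = i' then X i' else 0 := by
        intro i'
        rw [← Finset.sum_mul, ← map_sum, hNM]
        split_ifs
        · rw [C_1, one_mul]
        · rw [C_0, zero_mul]
      rw [Finset.sum_congr rfl fun i' _ => h4 i', Finset.sum_ite_eq, if_pos (Finset.mem_univ _)]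
      rfl
    exact DFunLike.congr_fun h2 p
  have h2 : (aeval s : MvPolynomial ι k →ₐ[k] K) = (aeval t).comp φ := by
    refine MvPolynomial.algHom_ext fun i => ?_
    rw [aeval_X, AlgHom.comp_apply, hφ, aeval_X, map_sum, hs]
    refine Finset.sum_congr rfl fun j _ => ?_
    rw [map_mul, aeval_X, algHom_C]
  have h3 : Function.Injective φ := Function.LeftInverse.injective h1
  change Function.Injective (aeval s : MvPolynomial ι k →ₐ[k] K)
  rw [h2, AlgHom.coe_comp]
  have ht' : Function.Injective (aeval t : MvPolynomial κ k →ₐ[k] K) := ht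
  exact ht'.comp h3

end Pool.Agent.K9h33.BL
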