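import Pool.Agent.K9h33.BL.CRows

/-!
The degree inequality for curves outside of the base locus.
-/

set_option autoImplicit false
set_option linter.unusedSectionVars false
set_option linter.unusedVariables false
set_option linter.unusedSimpArgs false

open MvPolynomial FF Pool.Agent.W603.LV Pool.Agent.W603.PV Pool.Agent.TH145.GH Pool.Agent.TH145.GE
open Pool.Agent.TH145.GC (Ev dF_sub dF_self ord_prod exists_minor Rt Cf finite_cf Tan
  der_zero_of_alg)
open Pool.Agent.TH145.GD (Ti tv St sM sM_mem mon_step sM_zero sM_top single_mem deg_St finite_St)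
open Pool.Agent.W602.GT Pool.Agent.TH145.MG

namespace Pool.Agent.K9h33.BL

variable {k K : Type} [Field k] [Field K] [Algebra k K] [IsAlgClosed k] [CharZero k] [IsFF k K]
  {n : ℕ} {A : Type} {c0 : Fin (n + 1)} {H : A → MvPolynomial (Fin (n + 1)) K} {eg : A → ℕ}
  {D : A → (Fin (n + 1) →₀ ℕ) → Derivation ℤ K K} {δ : Derivation k K K}

/-- The degree inequality. -/
theorem curve_ineqG (hH : ∀ a, (H a).IsHomogeneous (eg a)) (hD : DualE c0 H eg D fun _ _ => 0)
    [Fintype A] (hS : ∀ a I, Sem k (D a I)) (hδ : δ ≠ 0) (hδH : ∀ a u, δ ((H a).coeff u) = 0)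
    {m : ℕ} {R G : A → MvPolynomial (Fin (n + 1)) K}
    {dd : A → ℕ} (hhom : ∀ a, (R a + G a * H a).IsHomogeneous (dd a))
    (hR : ∀ a I b u, D a I ((R b).coeff u) = 0) (hG : ∀ a I b u, D a I ((G b).coeff u) = 0)
    (hδR : ∀ a u, δ ((R a).coeff u) = 0) (hδG : ∀ a u, δ ((G a).coeff u) = 0)
    {x : Fin (n + 1) → K} (hx1 : x c0 = 1) {l1 : Fin (n + 1)}
    (hl1 : δ (x l1) ≠ 0) (hrk : Module.finrank K (Full c0 eg D (vert δ) x) ≤ m + 1)
    (hx : ∀ a, eval x (R a + G a * H a) = 0) (hGx : ∀ a, eval x (G a) ≠ 0) :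
    ((∑ a, eg a : ℕ) + (Fintype.card A : ℤ) - 2 * m) * pht k x ≤ canDeg k K := by
  classical
  have hx0 : x c0 ≠ 0 := by rw [hx1]; exact one_ne_zero
  have hx00 : x ≠ 0 := by
    rintro rfl
    exact hx0 rfl
  have hind : LinearIndepOn K (vv c0 eg D (vert δ) x fun a => Finsupp.single c0 (eg a))
      (Vert Unit n A) := by
    have h1 : Vert Unit n A = {Sum.inl none, Sum.inl (some (Sum.inl ()))} := by
      ext i
      constructor
      · rintro (rfl | ⟨⟨⟩, rfl⟩)
        · exact Or.inl rfl
        · exact Or.inr rfl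
      · rintro (rfl | rfl)
        · exact Or.inl rfl
        · exact Or.inr ⟨(), rfl⟩
    rw [h1, LinearIndepOn.pair_iff _ (by simp)]
    intro r s hrs
    have h2 := congrFun hrs c0
    have h3 := congrFun hrs l1
    simp only [vv, wv, ev, Pi.add_apply, Pi.smul_apply, smul_eq_mul, Pi.zero_apply] at h2 h3
    have h4 : vert δ () (x c0) = 0 := by
      rw [hx1]
      exact δ.map_one_eq_zero
    rw [h4, hx1, mul_one, mul_zero, add_zero] at h2
    rw [h2, zero_mul, zero_add] at h3
    exact ⟨h2, (mul_eq_zero.1 h3).resolve_right hl1⟩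
  obtain ⟨Φ, hΦ⟩ : ∃ Φ : (Fin (n + 1) → K) →ₗ[K] (A → K), ∀ z c,
      Φ z c = dF (R c + G c * H c) x z := by
    exact ⟨{ toFun := fun z c => dF (R c + G c * H c) x z
             map_add' := fun y z => funext fun c => dF_add _ _ _ _
             map_smul' := fun r z => funext fun c => dF_smul _ _ _ _ }, fun _ _ => rfl⟩
  have hδF : ∀ c u, δ ((R c + G c * H c).coeff u) = 0 := by
    intro c u
    rw [coeff_add, map_add, hδR, zero_add, coeff_mul, map_sum]
    refine Finset.sum_eq_zero fun p _ => ?_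
    rw [δ.leibniz, hδG, hδH, smul_zero, smul_zero, add_zero]
  obtain ⟨b, hbV, hbC, hbi, hspan, hcard⟩ := exists_rowsV (E := vert δ) (dg := eg) (D := D) hx0 Φ
    (fun o => by
      funext c
      rw [hΦ, Pi.zero_apply]
      rcases o with _ | ξ | t
      · simp only [wv]
        rw [dF_self (hhom c), hx c, mul_zero]
      · simp only [wv]
        rw [dF_ev (fun u => hδF c u), hx c, map_zero]
      · simp only [wv]
        exact dF_tvV hD hR hG x c (hx c) t)
    (g := fun c => -(eval x (G c) * x c0 ^ eg c))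
    (fun c => neg_ne_zero.2 (mul_ne_zero (hGx c) (pow_ne_zero _ hx0)))
    (fun a c => by
      rw [hΦ, dF_EvV hD hR hG x (single_mem _), hx c, map_zero, mon_single]
      by_cases h : a = c
      · subst h
        rw [if_pos rfl, if_pos rfl]
        ring
      · rw [if_neg h, if_neg h]
        ring) hind
  obtain ⟨σ, hσ⟩ := exists_minor _ hbi
  have hdet : (mx c0 eg D (vert δ) x (fun a => Finsupp.single c0 (eg a)) b σ).det ≠ 0 := by
    unfold mx
    convert hσ
  have hrd : ∑ i ∈ b, rd i + Fintype.card A + 2 ≤ 2 * b.card := by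
    obtain ⟨b', hb'⟩ : ∃ b' : Finset (Ix Unit n A ⊕ A), b' = insert (Sum.inl none)
      (insert (Sum.inl (some (Sum.inl ()))) (Finset.univ.image Sum.inr)) := ⟨_, rfl⟩
    have h1 : b' ⊆ b := by
      rw [hb']
      intro i hi
      rcases Finset.mem_insert.1 hi with rfl | hi
      · exact hbV _ (Or.inl rfl)
      rcases Finset.mem_insert.1 hi with rfl | hi
      · exact hbV _ (Or.inr ⟨(), rfl⟩)
      · obtain ⟨a, ha, rfl⟩ := Finset.mem_image.1 hi
        exact hbC a
    have h2 : b'.card = Fintype.card A + 2 := by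
      rw [hb', Finset.card_insert_of_notMem (by simp), Finset.card_insert_of_notMem (by simp),
        Finset.card_image_of_injective _ Sum.inr_injective, Finset.card_univ]
    have h3 : ∑ i ∈ b', rd i = b'.card := by
      rw [Finset.card_eq_sum_ones]
      refine Finset.sum_congr rfl fun i hi => ?_
      rw [hb'] at hi
      rcases Finset.mem_insert.1 hi with rfl | hi
      · rfl
      rcases Finset.mem_insert.1 hi with rfl | hi
      · rfl
      · obtain ⟨a, ha, rfl⟩ := Finset.mem_image.1 hi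
        rfl
    have h4 : ∑ i ∈ b \ b', rd i ≤ 2 * (b \ b').card := by
      rw [mul_comm, ← smul_eq_mul, ← Finset.sum_const]
      refine Finset.sum_le_sum fun i _ => ?_
      rcases i with (_ | _ | _) | _
      · exact one_le_two
      · exact one_le_two
      · exact le_rfl
      · exact one_le_two
    have h5 := Finset.sum_sdiff (f := fun i => rd i) h1
    have h6 := Finset.card_sdiff_add_card_eq_card h1
    omega
  have hpht : 0 ≤ pht k x :=
    (hgt_nonneg _).trans (Pool.Agent.W603.CX.hgt_le_pht (k := k) x hx0 hx0)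
  obtain ⟨α, hα⟩ : ∃ α : ℤ, α = (∑ a, eg a : ℕ) - (∑ i ∈ b, rd i : ℕ) := ⟨_, rfl⟩
  have h1 := sum_local' (k := k) hx00
    (Θ := (mx c0 eg D (vert δ) x (fun a => Finsupp.single c0 (eg a)) b σ).det /
        ∏ a, if Sum.inr a ∈ b then x c0 ^ eg a else eval x (H a)) (a := α)
    (C := fun P => -vo P δ) ?_ (fun P => ?_)
  · have h3 : ∑ᶠ P : Place k K, (-vo P δ) = canDeg k K := by
      rw [canDeg_eq hδ, finsum_neg_distrib]
    rw [h3] at h1
    refine le_trans (mul_le_mul_of_nonneg_right ?_ hpht) h1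
    have h3 : ((∑ i ∈ b, rd i : ℕ) : ℤ) + Fintype.card A + 2 ≤ 2 * b.card := by exact_mod_cast hrd
    have h4 : (b.card : ℤ) ≤ m + 1 := by
      rw [hcard] at hrk
      exact_mod_cast hrk
    rw [hα]
    linarith
  · refine (vo_finite hδ).subset fun P hP => ?_
    intro h0
    apply hP
    change -vo P δ = 0
    rw [h0, neg_zero]
  · have h2 := Pool.Agent.TH145.GE.local_est hH hD hS hδ hδH P hx0 hbV σ hspan hcard hdet
      (fun a ha => absurd (hbC a) ha)
    rw [if_neg (by rintro ⟨a, ha, -⟩; exact ha (hbC a)), sub_zero] at h2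
    refine le_trans ?_ h2
    rw [hα]
    have h4 : -(((∑ a, eg a : ℕ) : ℤ) - (∑ i ∈ b, rd i : ℕ)) * pord P x =
      ((∑ i ∈ b, rd i : ℕ) - (∑ a, eg a : ℕ)) * pord P x := by ring
    rw [h4]
    linarith

end Pool.Agent.K9h33.BL
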