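import Pool.Agent.K9h33.BL.CIneq

/-!
Curves outside of the base locus of a generic complete intersection.
-/

set_option autoImplicit false
set_option linter.unusedSectionVars false
set_option linter.unusedVariables false
set_option linter.unusedSimpArgs false

open MvPolynomial FF Pool.Agent.W603.LV Pool.Agent.W603.PV Pool.Agent.TH145.GH Pool.Agent.TH145.GE
open Pool.Agent.TH145.GC (Ev dF_sub dF_self ord_prod exists_minor Rt Cf finite_cf Tan
  der_zero_of_alg)
open Pool.Agent.TH145.GD (Ti tv St sM sM_mem mon_step sM_zero sM_top single_mem deg_St finite_St)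
open Pool.Agent.W602.GT Pool.Agent.TH145.MG

namespace Pool.Agent.K9h33.BL

open scoped Classical in
/-- The derivations that are dual to the coefficients of the forms. -/
theorem exists_dualC {k0 k L : Type} [Field k0] [Field k] [Field L] [Algebra k0 k] [Algebra k L]
    [Algebra k0 L] [IsScalarTower k0 k L] [IsAlgClosed k] [CharZero k] [IsFF k L] {n : ℕ} {A : Type}
    {eg : A → ℕ} {H : A → MvPolynomial (Fin (n + 1)) k}
    (hH : ∀ a, (H a).IsHomogeneous (eg a))
    (hind : AlgebraicIndependent k0 fun p : Cf n eg => (H p.1).coeff p.2.1) (c0 : Fin (n + 1)) :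
    ∃ (D : A → (Fin (n + 1) →₀ ℕ) → Derivation ℤ L L),
      DualE c0 (fun a => map (algebraMap k L) (H a)) eg D (fun _ _ => 0) ∧
      (∀ a I, Sem k (D a I)) ∧
      ∀ a I (r : k0), D a I (algebraMap k0 L r) = 0 := by
  obtain ⟨D', hDS, hDD⟩ := exists_duals (L := L) _ hind
  obtain ⟨D, hD⟩ : ∃ D : A → (Fin (n + 1) →₀ ℕ) → Derivation ℤ L L, ∀ a I, D a I =
      if h : I.degree = eg a then (D' ⟨a, ⟨I, h⟩⟩).restrictScalars ℤ else 0 := ⟨_, fun _ _ => rfl⟩
  have hval : ∀ a I, I.degree = eg a → ∀ b u, D a I (algebraMap k L ((H b).coeff u)) =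
      if a = b ∧ u = I then 1 else 0 := by
    intro a I hI b u
    by_cases hud : u.degree = eg b
    · rw [hD, dif_pos hI]
      have h3 := hDD ⟨a, ⟨I, hI⟩⟩ ⟨b, ⟨u, hud⟩⟩
      change D' ⟨a, ⟨I, hI⟩⟩ (algebraMap k L ((H b).coeff u)) = _
      dsimp only at h3
      rw [h3]
      by_cases hab : a = b
      · subst hab
        by_cases hu : u = I
        · subst hu
          rw [if_pos rfl, if_pos ⟨rfl, rfl⟩]
        · rw [if_neg, if_neg fun h => hu h.2]
          intro h
          apply hu
          have h6 := eq_of_heq (Sigma.mk.inj_iff.1 h).2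
          exact (congrArg Subtype.val h6).symm
      · rw [if_neg fun h => hab (congrArg Sigma.fst h), if_neg fun h => hab h.1]
    · have h2 : (H b).coeff u = 0 := by
        by_contra hne
        exact hud (deg_of_mem (hH b) (mem_support_iff.2 hne))
      rw [h2, map_zero, map_zero, if_neg]
      rintro ⟨rfl, rfl⟩
      exact hud hI
  refine ⟨D, fun a b I hI x => ?_, fun a I => ?_, fun a I r => ?_⟩
  · have hId : I.degree = eg a := deg_St hI
    have hinj : Function.Injective (algebraMap k L) := (algebraMap k L).injective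
    have hsup : (map (algebraMap k L) (H b)).support = (H b).support :=
      support_map_of_injective _ hinj
    rw [hsup]
    simp only [coeff_map, hval a I hId b, Nat.cast_zero, zero_mul, sub_zero]
    by_cases hab : a = b
    · subst hab
      have h5 : I ∈ (H a).support := by
        rw [mem_support_iff]
        intro h0
        have h6 := hval a I hId a I
        rw [if_pos ⟨rfl, rfl⟩, h0, map_zero, map_zero] at h6
        exact zero_ne_one h6
      rw [if_pos rfl, Finset.sum_eq_single I]
      · rw [if_pos ⟨rfl, rfl⟩, one_mul]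
      · intro u _ hu
        rw [if_neg fun h => hu h.2, zero_mul]
      · intro h
        exact absurd h5 h
    · simp only [hab, false_and, if_false, zero_mul, Finset.sum_const_zero]
  · rw [hD]
    split_ifs with h2
    · exact hDS _
    · exact fun r => ⟨0, by rw [map_zero]; rfl⟩
  · rw [hD]
    split_ifs with h2
    · exact (D' _).map_algebraMap r
    · rfl

/-- Curves outside of the base locus. -/
theorem curve_G {k0 k L : Type} [Field k0] [Field k] [Field L] [Algebra k0 k] [Algebra k L]
    [IsAlgClosed k] [CharZero k] [IsFF k L] {n m : ℕ} {A : Type} [Fintype A] {eg : A → ℕ}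
    (V : Set (MvPolynomial (Fin (n + 1)) k0)) (hVh : ∀ f ∈ V, ∃ e, f.IsHomogeneous e)
    (hV : DimLE k0 V m)
    (R G : A → MvPolynomial (Fin (n + 1)) k0) {cg dd : A → ℕ}
    (hRh : ∀ a, (R a).IsHomogeneous (dd a)) (hGh : ∀ a, (G a).IsHomogeneous (cg a))
    (hdd : ∀ a, dd a = cg a + eg a)
    (H : A → MvPolynomial (Fin (n + 1)) k) (hH : ∀ a, (H a).IsHomogeneous (eg a))
    (hind : AlgebraicIndependent k0 fun p : Cf n eg => (H p.1).coeff p.2.1)
    (x : Fin (n + 1) → L)
    (hx : ∃ i j, x j ≠ 0 ∧ x i / x j ∉ Set.range (algebraMap k L))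
    (hxV : ∀ f ∈ V, aeval x (map (algebraMap k0 k) f) = 0)
    (hxF : ∀ a, aeval x (map (algebraMap k0 k) (R a) + map (algebraMap k0 k) (G a) * H a) = 0)
    (hxG : ∀ a, aeval x (map (algebraMap k0 k) (G a)) ≠ 0) :
    ((∑ a, eg a : ℕ) + (Fintype.card A : ℤ) - 2 * m) * pht k x ≤ canDeg k L := by
  classical
  let _ : Algebra k0 L := ((algebraMap k L).comp (algebraMap k0 k)).toAlgebra
  have hst : IsScalarTower k0 k L := IsScalarTower.of_algebraMap_eq fun _ => rfl
  have hL : CharZero L := charZero_of_injective_algebraMap (algebraMap k L).injective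
  obtain ⟨i1, c0, hc0, hi1⟩ := hx
  obtain ⟨D, hD, hDS, hDk⟩ := exists_dualC (L := L) hH hind c0
  obtain ⟨H', hH'⟩ : ∃ H' : A → MvPolynomial (Fin (n + 1)) L, H' = fun a =>
    map (algebraMap k L) (H a) := ⟨_, rfl⟩
  rw [← hH'] at hD
  have hHh : ∀ a, (H' a).IsHomogeneous (eg a) := fun a => by
    rw [hH']
    exact (hH a).map _
  obtain ⟨δ, hδ⟩ : ∃ δ : Derivation k L L, δ ≠ 0 := ⟨der k L, der_ne⟩
  have hδH : ∀ a u, δ ((H' a).coeff u) = 0 := fun a u => by
    rw [hH', coeff_map]
    exact δ.map_algebraMap _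
  have hδ0 : ∀ r : k0, δ (algebraMap k0 L r) = 0 := by
    intro r
    rw [IsScalarTower.algebraMap_apply k0 k L]
    exact δ.map_algebraMap _
  obtain ⟨x', hx'⟩ : ∃ x' : Fin (n + 1) → L, x' = fun j => (x c0)⁻¹ * x j := ⟨_, rfl⟩
  have hcx : (x c0)⁻¹ ≠ 0 := inv_ne_zero hc0
  have hx1 : x' c0 = 1 := by
    rw [hx']
    exact inv_mul_cancel₀ hc0
  have hl1 : ∃ l1, δ (x' l1) ≠ 0 := by
    refine ⟨i1, fun h => hi1 ?_⟩
    obtain ⟨c, hc⟩ := const_of_der hδ h
    refine ⟨c, ?_⟩
    rw [← hc, hx', div_eq_mul_inv, mul_comm]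
  obtain ⟨l1, hl1⟩ := hl1
  have hxx : x' = (x c0)⁻¹ • x := by rw [hx']; rfl
  have hx00 : x' ≠ 0 := by
    rintro h
    rw [h] at hx1
    exact zero_ne_one hx1
  have hVx : ∀ f ∈ V, aeval x' f = 0 := by
    intro f hf
    have h3 : aeval x f = 0 := by
      have h4 := hxV f hf
      rw [aeval_map_algebraMap] at h4
      exact h4
    obtain ⟨e, he⟩ := hVh f hf
    rw [hxx, Pool.Agent.TH145.MG.aeval_smul he, h3, mul_zero]
  have hrk : Module.finrank L (Full c0 eg D (vert δ) x') ≤ m + 1 := by
    refine le_trans (Submodule.finrank_mono (full_le_tan (k0 := k0) hDk ?_ x'))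
      (tan_rank hx1 (hV L x' hx00 hVx))
    intro _ r
    exact hδ0 r
  -- the forms over `L`
  have hRL : ∀ a, aeval x (R a) = aeval x (map (algebraMap k0 k) (R a)) := fun a => by
    rw [aeval_map_algebraMap]
  have hGL : ∀ a, aeval x (G a) = aeval x (map (algebraMap k0 k) (G a)) := fun a => by
    rw [aeval_map_algebraMap]
  have hHL : ∀ a, eval x' (H' a) = (x c0)⁻¹ ^ eg a * aeval x (H a) := by
    intro a
    rw [hxx, eval_smul_hom (hHh a), hH']
    congr 1
    rw [eval_map]
    rfl
  have key := curve_ineqG (m := m) (R := fun a => map (algebraMap k0 L) (R a))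
    (G := fun a => map (algebraMap k0 L) (G a)) (dd := dd) hHh hD hDS hδ hδH
    (fun a => by
      refine ((hRh a).map _).add ?_
      rw [hdd]
      exact ((hGh a).map _).mul (hHh a))
    (fun a I b u => by rw [coeff_map]; exact hDk a I _)
    (fun a I b u => by rw [coeff_map]; exact hDk a I _)
    (fun a u => by rw [coeff_map]; exact hδ0 _)
    (fun a u => by rw [coeff_map]; exact hδ0 _) hx1 hl1 hrk
    (fun a => by
      rw [map_add, map_mul, hHL]
      have h1 : eval x' (map (algebraMap k0 L) (R a)) = (x c0)⁻¹ ^ dd a * aeval x (R a) := by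
        rw [eval_map]
        change aeval x' (R a) = _
        rw [hxx, Pool.Agent.TH145.MG.aeval_smul (hRh a)]
      have h2 : eval x' (map (algebraMap k0 L) (G a)) = (x c0)⁻¹ ^ cg a * aeval x (G a) := by
        rw [eval_map]
        change aeval x' (G a) = _
        rw [hxx, Pool.Agent.TH145.MG.aeval_smul (hGh a)]
      have h3 := hxF a
      rw [map_add, map_mul, ← hRL, ← hGL] at h3
      rw [h1, h2, hdd, pow_add]
      linear_combination (x c0)⁻¹ ^ cg a * (x c0)⁻¹ ^ eg a * h3)
    (fun a => by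
      have h2 : eval x' (map (algebraMap k0 L) (G a)) = (x c0)⁻¹ ^ cg a * aeval x (G a) := by
        rw [eval_map]
        change aeval x' (G a) = _
        rw [hxx, Pool.Agent.TH145.MG.aeval_smul (hGh a)]
      rw [h2, hGL]
      exact mul_ne_zero (pow_ne_zero _ hcx) (hxG a))
  have hp : pht k x' = pht k x := by
    rw [hx']
    exact pht_scale ⟨c0, hc0⟩ hcx
  rw [hp] at key
  exact key

end Pool.Agent.K9h33.BL
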