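import Pool.Agent.K9h33.BL.Ineq
import Pool.Agent.TH145.GC.Fin

/-!
Finiteness of the points outside of the base locus over a finitely generated field.
-/

set_option autoImplicit false
set_option linter.unusedSectionVars false
set_option linter.unusedVariables false
set_option linter.unusedSimpArgs false

open MvPolynomial FF Pool.Agent.W603.LV Pool.Agent.W603.PV Pool.Agent.W602.RG
open Pool.Agent.TH145.GH Pool.Agent.TH145.GC

namespace Pool.Agent.K9h33.BL

section limit

variable {k0 K : Type} [Field k0] [Field K] [Algebra k0 K] [IsAlgClosed k0] [IsAlgClosed K]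
  [CharZero K]

/-- Limit points are constant. -/
theorem limitG {n m : ℕ} {A : Type} [Fintype A] {eg : A → ℕ} (E : Subfield K)
    (hE : ∀ r : k0, algebraMap k0 K r ∈ E)
    {H : A → MvPolynomial (Fin (n + 1)) E} {DE : A → (Fin (n + 1) →₀ ℕ) → E → E}
    (hG : Gen H eg DE)
    (D : A → (Fin (n + 1) →₀ ℕ) → Derivation ℤ K K)
    (hDE : ∀ a I (x : E), D a I x = (DE a I x : K))
    (hDk : ∀ a I (r : k0), D a I (algebraMap k0 K r) = 0)
    (hd : 2 * m + 2 ≤ ∑ a, eg a + Fintype.card A) (V : Set (MvPolynomial (Fin (n + 1)) k0))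
    (hV : Pool.Agent.TH145.MG.DimLE k0 V m)
    (R G : A → MvPolynomial (Fin (n + 1)) k0) {cg dd : A → ℕ}
    (hRh : ∀ a, (R a).IsHomogeneous (dd a)) (hGh : ∀ a, (G a).IsHomogeneous (cg a))
    (hdd : ∀ a, dd a = cg a + eg a)
    (z : Fin (n + 1) → Om K) (hz : ∀ j, z j ∈ OE k0 (E : Set K)) {l0 : Fin (n + 1)}
    (hl0 : z l0 = 1) (hzV : ∀ f ∈ V, eval₂ ((cst K).comp (algebraMap k0 K)) z f = 0)
    (hzF : ∀ a, eval₂ ((cst K).comp (algebraMap k0 K)) z (R a) +
      eval₂ ((cst K).comp (algebraMap k0 K)) z (G a) *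
        eval z (map ((cst K).comp E.subtype) (H a)) = 0)
    (hzG : ∀ a, eval₂ ((cst K).comp (algebraMap k0 K)) z (G a) ≠ 0) (j : Fin (n + 1)) :
    z j ∈ acl (cst K '' (E : Set K)) := by
  classical
  by_contra hj1
  obtain ⟨κ, Λ, M, φ, D', hac, hFF, hzΛ, hzκ, hXM, hEκ, hφ, hdat, hdich, hDk'⟩ :=
    exists_rig_data E hE hG D hDE hDk z hz ∅ (by simp) j hj1
  have hczOm : CharZero (Om K) :=
    charZero_of_injective_algebraMap (algebraMap K (Om K)).injective
  have hcz : CharZero κ := charZero_of_injective_algebraMap (algebraMap ℚ κ).injective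
  have hczΛ : CharZero Λ := charZero_of_injective_algebraMap (algebraMap κ Λ).injective
  obtain ⟨x, hx⟩ : ∃ x : Fin (n + 1) → Λ, ∀ j, x j = ⟨z j, hzΛ j⟩ := ⟨_, fun _ => rfl⟩
  have hxz : (fun j => ((x j : Λ) : Om K)) = z := by
    funext j
    rw [hx]
  have hxl0 : x l0 = 1 := by
    rw [hx]
    exact Subtype.ext hl0
  have hx0 : x ≠ 0 := by
    intro h0
    rw [h0] at hxl0
    exact zero_ne_one hxl0
  have hev : ∀ a, ((eval x (map φ (H a)) : Λ) : Om K) =
      eval z (map ((cst K).comp E.subtype) (H a)) := fun a => by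
    rw [eval_lift φ hφ (H a) x, hxz]
  let ψ : k0 →+* E := (algebraMap k0 K).codRestrict E hE
  have hev0 : ∀ f : MvPolynomial (Fin (n + 1)) k0, ((eval₂ (φ.comp ψ) x f : Λ) : Om K) =
      eval₂ ((cst K).comp (algebraMap k0 K)) z f := by
    intro f
    have h1 := hom_eval₂ f (φ.comp ψ) (algebraMap Λ (Om K)) x
    have h2 : (algebraMap Λ (Om K)).comp (φ.comp ψ) = (cst K).comp (algebraMap k0 K) := by
      ext r
      exact hφ (ψ r)
    rw [h2] at h1
    have h3 : (fun i => algebraMap Λ (Om K) (x i)) = z := hxz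
    rw [h3] at h1
    exact h1
  -- the dimension
  have hrk : Module.finrank Λ (Full eg D' x) ≤ m + 1 := by
    let _ : Algebra k0 Λ := (φ.comp ψ).toAlgebra
    refine rank_le (k0 := k0) (fun a I r => hDk' a I r) hxl0 ?_
    refine hV Λ x hx0 fun f hf => ?_
    apply Subtype.ext
    exact (hev0 f).trans (hzV f hf)
  have h1 := ineqG hdat hd (R := fun a => map (φ.comp ψ) (R a))
    (G := fun a => map (φ.comp ψ) (G a)) (dd := dd)
    (fun a => by
      refine ((hRh a).map _).add ?_
      rw [hdd]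
      exact ((hGh a).map _).mul (hdat.hom a))
    (fun a I b u => by rw [coeff_map]; exact hDk' a I _)
    (fun a I b u => by rw [coeff_map]; exact hDk' a I _) hx0 hrk
    (fun a => by
      apply Subtype.ext
      rw [map_add, map_mul, eval_map, eval_map]
      have h2 := hzF a
      rw [← hev0, ← hev0, ← hev] at h2
      exact h2)
    (fun a h0 => by
      apply hzG a
      rw [← hev0, ← eval_map, h0]
      rfl)
  simp only [mul_zero, finsum_zero] at h1
  obtain ⟨c, hc⟩ := const_of_pht h1 hxl0 j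
  apply hzκ
  have h2 := congrArg (fun w : Λ => (w : Om K)) hc
  rw [hx] at h2
  change z j = (c : Om K) at h2
  rw [h2]
  exact c.2

end limit

variable {k0 K ι : Type} [Field k0] [Field K] [Algebra k0 K] [IsAlgClosed K] [CharZero K]
  {y : ι → K} (E : IntermediateField (IntermediateField.adjoin k0 (Set.range y)) K)

/-- The heights of the points are bounded. -/
theorem heightsG {n m : ℕ} {A : Type} [Fintype A] {eg : A → ℕ} (hy : AlgebraicIndependent k0 y)
    [FiniteDimensional (IntermediateField.adjoin k0 (Set.range y)) E]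
    {H : A → MvPolynomial (Fin (n + 1)) E.toSubfield}
    {DE : A → (Fin (n + 1) →₀ ℕ) → E.toSubfield → E.toSubfield}
    (hG : Gen H eg DE)
    (D : A → (Fin (n + 1) →₀ ℕ) → Derivation ℤ K K)
    (hDE : ∀ a I (x : E.toSubfield), D a I x = (DE a I x : K))
    (hDk : ∀ a I (r : k0), D a I (algebraMap k0 K r) = 0)
    (hDy : ∀ a I j, ∃ r : k0, D a I (y j) = algebraMap k0 K r)
    (hd : 2 * m + 2 ≤ ∑ a, eg a + Fintype.card A) (V : Set (MvPolynomial (Fin (n + 1)) k0))
    (hV : Pool.Agent.TH145.MG.DimLE k0 V m)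
    (R G : A → MvPolynomial (Fin (n + 1)) k0) {cg dd : A → ℕ}
    (hRh : ∀ a, (R a).IsHomogeneous (dd a)) (hGh : ∀ a, (G a).IsHomogeneous (cg a))
    (hdd : ∀ a, dd a = cg a + eg a)
    (l0 : Fin (n + 1)) (i : ι) :
    ∃ B : ℤ, ∀ (x : Fin (n + 1) → E), x l0 = 1 →
      (∀ f ∈ V, eval₂ (algebraMap k0 K) (fun j => (x j : K)) f = 0) →
      (∀ a, eval₂ (algebraMap k0 K) (fun j => (x j : K)) (R a) +
        eval₂ (algebraMap k0 K) (fun j => (x j : K)) (G a) *
          eval (fun j => (x j : K)) (map E.toSubfield.subtype (H a)) = 0) →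
      (∀ a, eval₂ (algebraMap k0 K) (fun j => (x j : K)) (G a) ≠ 0) →
      ∀ j, hgt (kap k0 y i) (⟨(x j : K), subset_LL y _ i (x j).2⟩ :
        LL k0 y (E : Set K) i) ≤ B := by
  classical
  have hFF : IsFF (kap k0 y i) (LL k0 y (E : Set K) i) := LL_ff E hy i
  have hac : IsAlgClosed (kap k0 y i) := acl_isAlgClosed _
  have hcz : CharZero (kap k0 y i) := charZero_of_injective_algebraMap
    (algebraMap ℚ (kap k0 y i)).injective
  obtain ⟨φ, D', e, hφ, hD', hdat⟩ := exists_data_L E hy hG D hDE hDk hDy i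
  obtain ⟨B, hB⟩ : ∃ B : ℤ, B = max (∑ᶠ P, ((n + 1 + Fintype.card A) * e P)) 0 := ⟨_, rfl⟩
  have hB0 : 0 ≤ B := by rw [hB]; exact le_max_right _ _
  refine ⟨B, fun x hx hxV hxF hxG j => ?_⟩
  obtain ⟨x', hx'⟩ : ∃ x' : Fin (n + 1) → LL k0 y (E : Set K) i,
    ∀ j, x' j = ⟨(x j : K), subset_LL y _ i (x j).2⟩ := ⟨_, fun _ => rfl⟩
  have hxl0 : x' l0 = 1 := by
    rw [hx']
    apply Subtype.ext
    change (x l0 : K) = 1
    rw [hx]; rfl
  have hx0 : x' ≠ 0 := by
    intro h0
    rw [h0] at hxl0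
    exact zero_ne_one hxl0
  have hev : ∀ a, algebraMap (LL k0 y (E : Set K) i) K (eval x' (map φ (H a))) =
      eval (fun j => (x j : K)) (map E.toSubfield.subtype (H a)) := by
    intro a
    rw [eval_incl φ hφ (H a) x']
    congr 2
    funext j
    rw [hx']
    rfl
  let ψ : k0 →+* LL k0 y (E : Set K) i :=
    { toFun := fun r => ⟨algebraMap k0 K r, subset_LL y _ i (k0_mem E r)⟩
      map_one' := Subtype.ext (map_one _)
      map_mul' := fun a b => Subtype.ext (map_mul _ a b)
      map_zero' := Subtype.ext (map_zero _)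
      map_add' := fun a b => Subtype.ext (map_add _ a b) }
  have hev0 : ∀ f : MvPolynomial (Fin (n + 1)) k0,
      algebraMap (LL k0 y (E : Set K) i) K (eval₂ ψ x' f) =
      eval₂ (algebraMap k0 K) (fun j => (x j : K)) f := by
    intro f
    have h1 := hom_eval₂ f ψ (algebraMap (LL k0 y (E : Set K) i) K) x'
    have h2 : (algebraMap (LL k0 y (E : Set K) i) K).comp ψ = algebraMap k0 K := by
      ext r
      rfl
    have h3 : (fun j => algebraMap (LL k0 y (E : Set K) i) K (x' j)) = fun j => (x j : K) := by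
      funext j
      rw [hx']
      rfl
    rw [h2, h3] at h1
    exact h1
  have hinj : Function.Injective (algebraMap (LL k0 y (E : Set K) i) K) :=
    (algebraMap (LL k0 y (E : Set K) i) K).injective
  have hDψ : ∀ a I (r : k0), D' a I (ψ r) = 0 := fun a I r => by
    apply Subtype.ext
    rw [hD']
    exact hDk a I r
  -- the dimension
  have hrk : Module.finrank (LL k0 y (E : Set K) i) (Full eg D' x') ≤ m + 1 := by
    have hczL : CharZero (LL k0 y (E : Set K) i) :=
      charZero_of_injective_algebraMap (algebraMap (kap k0 y i) _).injective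
    let _ : Algebra k0 (LL k0 y (E : Set K) i) := ψ.toAlgebra
    refine rank_le (k0 := k0) (fun a I r => hDψ a I r) hxl0 ?_
    refine hV _ x' hx0 fun f hf => ?_
    apply hinj
    rw [map_zero]
    exact (hev0 f).trans (hxV f hf)
  have h1 : pht (kap k0 y i) x' ≤ B := by
    rw [hB]
    refine (ineqG hdat hd (R := fun a => map ψ (R a))
      (G := fun a => map ψ (G a)) (dd := dd)
      (fun a => by
        refine ((hRh a).map _).add ?_
        rw [hdd]
        exact ((hGh a).map _).mul (hdat.hom a))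
      (fun a I b u => by rw [coeff_map]; exact hDψ a I _)
      (fun a I b u => by rw [coeff_map]; exact hDψ a I _) hx0 hrk
      (fun a => by
        apply hinj
        rw [map_add, map_mul, eval_map, eval_map, map_zero, map_add, map_mul, hev0, hev0, hev]
        exact hxF a)
      (fun a h0 => by
        apply hxG a
        rw [← hev0, ← eval_map, h0, map_zero])).trans (le_max_left _ _)
  have h2 : ∀ j, hgt (kap k0 y i) (x' j) ≤ B := by
    intro j
    by_cases hj : x' j = 0
    · rw [hj]
      have := Pool.Agent.TH145.MG.hgt_const (k := kap k0 y i) (L := LL k0 y (E : Set K) i) 0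
      rw [map_zero] at this
      rw [this]
      exact hB0
    · have h2 := Pool.Agent.W603.CX.hgt_le_pht (k := kap k0 y i) x' hj (l := l0)
        (by rw [hxl0]; exact one_ne_zero)
      rw [hxl0, div_one] at h2
      exact h2.trans h1
  rw [← hx']
  exact h2 j

/-- Finiteness of the points outside of the base locus. -/
theorem fin_allG {n m : ℕ} {A : Type} [Fintype A] {eg : A → ℕ} [IsAlgClosed k0] [Finite ι]
    (hy : IsTranscendenceBasis k0 y)
    [FiniteDimensional (IntermediateField.adjoin k0 (Set.range y)) E]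
    [IsGalois (IntermediateField.adjoin k0 (Set.range y)) E]
    {H : A → MvPolynomial (Fin (n + 1)) E.toSubfield}
    {DE : A → (Fin (n + 1) →₀ ℕ) → E.toSubfield → E.toSubfield}
    (hG : Gen H eg DE)
    (D : A → (Fin (n + 1) →₀ ℕ) → Derivation ℤ K K)
    (hDE : ∀ a I (x : E.toSubfield), D a I x = (DE a I x : K))
    (hDk : ∀ a I (r : k0), D a I (algebraMap k0 K r) = 0)
    (hDy : ∀ a I j, ∃ r : k0, D a I (y j) = algebraMap k0 K r)
    (hd : 2 * m + 2 ≤ ∑ a, eg a + Fintype.card A) (V : Set (MvPolynomial (Fin (n + 1)) k0))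
    (hV : Pool.Agent.TH145.MG.DimLE k0 V m)
    (R G : A → MvPolynomial (Fin (n + 1)) k0) {cg dd : A → ℕ}
    (hRh : ∀ a, (R a).IsHomogeneous (dd a)) (hGh : ∀ a, (G a).IsHomogeneous (cg a))
    (hdd : ∀ a, dd a = cg a + eg a)
    (l0 : Fin (n + 1)) :
    {x : Fin (n + 1) → K | (∀ j, x j ∈ E) ∧ x l0 = 1 ∧
      (∀ f ∈ V, eval₂ (algebraMap k0 K) x f = 0) ∧
      (∀ a, eval₂ (algebraMap k0 K) x (R a) + eval₂ (algebraMap k0 K) x (G a) *
        eval x (map E.toSubfield.subtype (H a)) = 0) ∧
      ∀ a, eval₂ (algebraMap k0 K) x (G a) ≠ 0}.Finite := by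
  by_contra hinf
  let f := Set.Infinite.natEmbedding _ hinf
  obtain ⟨x, hx⟩ : ∃ x : ℕ → Fin (n + 1) → K, ∀ n, x n = (f n).1 := ⟨_, fun _ => rfl⟩
  have hxinj : Function.Injective x := by
    intro a b hab
    rw [hx, hx] at hab
    exact f.injective (Subtype.ext hab)
  have hxE : ∀ n j, x n j ∈ E := fun n j => by rw [hx]; exact (f n).2.1 j
  have hxl : ∀ n, x n l0 = 1 := fun n => by rw [hx]; exact (f n).2.2.1
  have hxV : ∀ n, ∀ f ∈ V, eval₂ (algebraMap k0 K) (x n) f = 0 := fun n => by
    rw [hx]; exact (f n).2.2.2.1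
  have hxF : ∀ n a, eval₂ (algebraMap k0 K) (x n) (R a) + eval₂ (algebraMap k0 K) (x n) (G a) *
      eval (x n) (map E.toSubfield.subtype (H a)) = 0 := fun n => by
    rw [hx]; exact (f n).2.2.2.2.1
  have hxG : ∀ n a, eval₂ (algebraMap k0 K) (x n) (G a) ≠ 0 := fun n => by
    rw [hx]; exact (f n).2.2.2.2.2
  choose B hB using fun i => heightsG E hy.1 hG D hDE hDk hDy hd V hV R G hRh hGh hdd l0 i
  have hB' : ∀ n i j, hgt (kap k0 y i) (⟨x n j, subset_LL y _ i (hxE n j)⟩ :
        LL k0 y (E : Set K) i) ≤ B i := fun n i j =>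
    hB i (fun j => ⟨x n j, hxE n j⟩) (Subtype.ext (hxl n)) (hxV n) (hxF n) (hxG n) j
  have hz : ∀ j, Om.mk (fun n => x n j) ∈ OE k0 ((E.toSubfield : Subfield K) : Set K) := fun j =>
    lim_mem E hy (fun n => ⟨x n j, hxE n j⟩) B fun n i => hB' n i j
  have hev : ∀ a, eval (fun j => Om.mk fun n => x n j)
      (map ((cst K).comp E.toSubfield.subtype) (H a)) =
      Om.mk fun n => eval (x n) (map E.toSubfield.subtype (H a)) := fun a => eval_mk (H a) x
  have hev0 : ∀ f : MvPolynomial (Fin (n + 1)) k0,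
      eval₂ ((cst K).comp (algebraMap k0 K)) (fun j => Om.mk fun n => x n j) f =
      Om.mk fun n => eval₂ (algebraMap k0 K) (x n) f := by
    intro f
    have h1 := Pool.Agent.TH145.MG.eval_mk x (map (algebraMap k0 K) f)
    have h2 : (fun n => eval (x n) (map (algebraMap k0 K) f)) =
        fun n => eval₂ (algebraMap k0 K) (x n) f := by
      funext n
      rw [eval_map]
    rw [h2] at h1
    have h3 : eval₂ (cst K) (fun j => Om.mk fun n => x n j) (map (algebraMap k0 K) f) =
      Om.mk fun n => eval₂ (algebraMap k0 K) (x n) f := h1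
    rwa [eval₂_map] at h3
  have hacl := limitG E.toSubfield (fun r => k0_mem E r) hG D hDE hDk hd V hV R G hRh hGh hdd
    (fun j => Om.mk fun n => x n j) hz (l0 := l0) (by
      have h1 : (fun n => x n l0) = fun _ => 1 := funext hxl
      rw [h1]; rfl) (fun f hf => by
      rw [hev0]
      have h2 : (fun n => eval₂ (algebraMap k0 K) (x n) f) = fun _ => 0 :=
        funext fun n => hxV n f hf
      rw [h2]; rfl) (fun a => by
      rw [hev0, hev0, hev]
      have h1 : (fun n => eval₂ (algebraMap k0 K) (x n) (R a) +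
        eval₂ (algebraMap k0 K) (x n) (G a) *
          eval (x n) (map E.toSubfield.subtype (H a))) = fun _ => 0 :=
        funext fun n => hxF n a
      have h2 : (Om.mk fun n => eval₂ (algebraMap k0 K) (x n) (R a) +
        eval₂ (algebraMap k0 K) (x n) (G a) *
          eval (x n) (map E.toSubfield.subtype (H a))) = 0 := by
        rw [h1]; rfl
      exact h2) (fun a => by
      rw [hev0]
      intro h0
      have h1 : (Om.mk fun n => eval₂ (algebraMap k0 K) (x n) (G a)) = Om.mk fun _ => 0 := h0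
      rw [Om.mk_eq] at h1
      obtain ⟨n, hn⟩ := h1.exists
      exact hxG n a hn)
  choose a ha using fun j => eventually_const (hacl j)
  exact not_all_const hxinj a ha

end Pool.Agent.K9h33.BL
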