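import Pool.Agent.K9h33.BL.CMain
import Pool.Agent.TH145.GF.Main

/-!
Subvarieties outside of the base locus are of general type.
-/

set_option autoImplicit false
set_option linter.unusedSectionVars false
set_option linter.unusedVariables false
set_option linter.unusedSimpArgs false

open MvPolynomial FF Pool.Agent.W603.LV Pool.Agent.W603.PV Pool.Agent.TH145.GH
open Pool.Agent.TH145.GC (Ev dF_sub dF_self ord_prod exists_minor Rt Cf finite_cf Tan
  der_zero_of_alg)
open Pool.Agent.TH145.GD (Ti tv St sM sM_mem mon_step sM_zero sM_top single_mem deg_St finite_St)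
open Pool.Agent.W602.GT Pool.Agent.TH145.MG Pool.Agent.TH145.GE Pool.Agent.TH145.GF

namespace Pool.Agent.K9h33.BL

open scoped Classical in
/-- The derivations that are dual to the coefficients of the forms. -/
theorem exists_dualGT {k0 k L ι : Type} [Field k0] [Field k] [Field L] [Algebra k0 k] [Algebra k L]
    [Algebra k0 L] [IsScalarTower k0 k L] [IsAlgClosed k] [CharZero k] {t : ι → L}
    (ht : IsTranscendenceBasis k t) {n : ℕ} {A : Type}
    {eg : A → ℕ} {H : A → MvPolynomial (Fin (n + 1)) k}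
    (hH : ∀ a, (H a).IsHomogeneous (eg a))
    (hind : AlgebraicIndependent k0 fun p : Cf n eg => (H p.1).coeff p.2.1) (c0 : Fin (n + 1)) :
    ∃ (D : A → (Fin (n + 1) →₀ ℕ) → Derivation ℤ L L),
      DualE c0 (fun a => map (algebraMap k L) (H a)) eg D (fun _ _ => 0) ∧
      (∀ a I, Sem k (D a I)) ∧
      ∀ a I (r : k0), D a I (algebraMap k0 L r) = 0 := by
  obtain ⟨D', hDS, hDD⟩ := exists_dualsG ht _ hind
  obtain ⟨D, hD⟩ : ∃ D : A → (Fin (n + 1) →₀ ℕ) → Derivation ℤ L L, ∀ a I, D a I =
      if h : I.degree = eg a then (D' ⟨a, ⟨I, h⟩⟩).restrictScalars ℤ else 0 := ⟨_, fun _ _ => rfl⟩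
  have hval : ∀ a I, I.degree = eg a → ∀ b u, D a I (algebraMap k L ((H b).coeff u)) =
      if a = b ∧ u = I then 1 else 0 := by
    intro a I hI b u
    by_cases hud : u.degree = eg b
    · rw [hD, dif_pos hI]
      have h3 := hDD ⟨a, ⟨I, hI⟩⟩ ⟨b, ⟨u, hud⟩⟩
      change D' ⟨a, ⟨I, hI⟩⟩ (algebraMap k L ((H b).coeff u)) = _
      dsimp only at h3
      rw [h3]
      by_cases hab : a = b
      · subst hab
        by_cases hu : u = I
        · subst hu
          rw [if_pos rfl, if_pos ⟨rfl, rfl⟩]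
        · rw [if_neg, if_neg fun h => hu h.2]
          intro h
          apply hu
          have h6 := eq_of_heq (Sigma.mk.inj_iff.1 h).2
          exact (congrArg Subtype.val h6).symm
      · rw [if_neg fun h => hab (congrArg Sigma.fst h), if_neg fun h => hab h.1]
    · have h2 : (H b).coeff u = 0 := by
        by_contra hne
        exact hud (deg_of_mem (hH b) (mem_support_iff.2 hne))
      rw [h2, map_zero, map_zero, if_neg]
      rintro ⟨rfl, rfl⟩
      exact hud hI
  refine ⟨D, fun a b I hI x => ?_, fun a I => ?_, fun a I r => ?_⟩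
  · have hId : I.degree = eg a := deg_St hI
    have hinj : Function.Injective (algebraMap k L) := (algebraMap k L).injective
    have hsup : (map (algebraMap k L) (H b)).support = (H b).support :=
      support_map_of_injective _ hinj
    rw [hsup]
    simp only [coeff_map, hval a I hId b, Nat.cast_zero, zero_mul, sub_zero]
    by_cases hab : a = b
    · subst hab
      have h5 : I ∈ (H a).support := by
        rw [mem_support_iff]
        intro h0
        have h6 := hval a I hId a I
        rw [if_pos ⟨rfl, rfl⟩, h0, map_zero, map_zero] at h6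
        exact zero_ne_one h6
      rw [if_pos rfl, Finset.sum_eq_single I]
      · rw [if_pos ⟨rfl, rfl⟩, one_mul]
      · intro u _ hu
        rw [if_neg fun h => hu h.2, zero_mul]
      · intro h
        exact absurd h5 h
    · simp only [hab, false_and, if_false, zero_mul, Finset.sum_const_zero]
  · rw [hD]
    split_ifs with h2
    · exact hDS _
    · exact fun r => ⟨0, by rw [map_zero]; rfl⟩
  · rw [hD]
    split_ifs with h2
    · exact (D' _).map_algebraMap r
    · rfl

open scoped Classical in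
/-- Subvarieties outside of the base locus are of general type. -/
theorem gt_G {k0 K L : Type} [Field k0] [Field K] [Field L] [Algebra k0 K] [Algebra K L]
    [IsAlgClosed K] [CharZero K] {n m w : ℕ} {A : Type} [Fintype A] {eg : A → ℕ}
    (V : Set (MvPolynomial (Fin (n + 1)) k0)) (hVh : ∀ f ∈ V, ∃ e, f.IsHomogeneous e)
    (hV : DimLE k0 V m)
    (R G : A → MvPolynomial (Fin (n + 1)) k0) {cg dd : A → ℕ}
    (hRh : ∀ a, (R a).IsHomogeneous (dd a)) (hGh : ∀ a, (G a).IsHomogeneous (cg a))
    (hdd : ∀ a, dd a = cg a + eg a)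
    (H : A → MvPolynomial (Fin (n + 1)) K) (hH : ∀ a, (H a).IsHomogeneous (eg a))
    (hind : AlgebraicIndependent k0 fun p : Cf n eg => (H p.1).coeff p.2.1)
    (hw : 0 < w) (hd : 2 * m + 2 ≤ ∑ a, eg a + Fintype.card A + w)
    (htr : Algebra.trdeg K L = w) (x : Fin (n + 1) → L) (hx0 : x ≠ 0)
    (hgen : Algebra.IsAlgebraic (coords K x) L)
    (hxV : ∀ f ∈ V, aeval x (map (algebraMap k0 K) f) = 0)
    (hxF : ∀ a, aeval x (map (algebraMap k0 K) (R a) + map (algebraMap k0 K) (G a) * H a) = 0)
    (hxG : ∀ a, aeval x (map (algebraMap k0 K) (G a)) ≠ 0) :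
    LogGeneralType K L w fun _ : Place K L => False := by
  let _ : Algebra k0 L := ((algebraMap K L).comp (algebraMap k0 K)).toAlgebra
  have hst : IsScalarTower k0 K L := IsScalarTower.of_algebraMap_eq fun _ => rfl
  have hL : CharZero L := charZero_of_injective_algebraMap (algebraMap K L).injective
  obtain ⟨c0, hc0⟩ := Function.ne_iff.1 hx0
  have hc0 : x c0 ≠ 0 := hc0
  obtain ⟨x', hx'⟩ : ∃ x' : Fin (n + 1) → L, x' = fun j => (x c0)⁻¹ * x j := ⟨_, rfl⟩
  have hcx : (x c0)⁻¹ ≠ 0 := inv_ne_zero hc0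
  have hx1 : x' c0 = 1 := by
    rw [hx']
    exact inv_mul_cancel₀ hc0
  have hxx : x' = (x c0)⁻¹ • x := by rw [hx']; rfl
  have hx00 : x' ≠ 0 := by
    rintro h
    rw [h] at hx1
    exact zero_ne_one hx1
  have hco : coords K x' = coords K x := by
    unfold coords
    congr 1
    ext z
    constructor
    · rintro ⟨i, j, hj, rfl⟩
      refine ⟨i, j, fun h => hj (by rw [hx']; simp [h]), ?_⟩
      rw [hx']
      field_simp
    · rintro ⟨i, j, hj, rfl⟩
      refine ⟨i, j, ?_, ?_⟩
      · rw [hx']; exact mul_ne_zero hcx hj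
      · rw [hx']
        field_simp
  obtain ⟨l, hl⟩ := exists_coord_basis htr (by rw [hco]; exact hgen)
  obtain ⟨t, ht⟩ : ∃ t : Fin w → L, ∀ i, t i = x' (l i) := ⟨_, fun _ => rfl⟩
  have htb : IsTranscendenceBasis K t := by
    have : t = fun i => x' (l i) := funext ht
    rw [this]
    exact hl
  -- the forms
  obtain ⟨D, hD, hDS, hDk⟩ := exists_dualGT htb hH hind c0
  obtain ⟨H', hH'⟩ : ∃ H' : A → MvPolynomial (Fin (n + 1)) L, H' = fun a =>
    map (algebraMap K L) (H a) := ⟨_, rfl⟩
  rw [← hH'] at hD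
  have hHh : ∀ a, (H' a).IsHomogeneous (eg a) := fun a => by
    rw [hH']
    exact (hH a).map _
  have hHK : ∀ (δ : Derivation K L L) a u, δ ((H' a).coeff u) = 0 := fun δ a u => by
    rw [hH', coeff_map]
    exact δ.map_algebraMap _
  have hδ0 : ∀ (δ : Derivation K L L) (r : k0), δ (algebraMap k0 L r) = 0 := by
    intro δ r
    rw [IsScalarTower.algebraMap_apply k0 K L]
    exact δ.map_algebraMap _
  have hVx : ∀ f ∈ V, aeval x' f = 0 := by
    intro f hf
    have h3 : aeval x f = 0 := by
      have h4 := hxV f hf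
      rw [aeval_map_algebraMap] at h4
      exact h4
    obtain ⟨e, he⟩ := hVh f hf
    rw [hxx, Pool.Agent.TH145.MG.aeval_smul he, h3, mul_zero]
  obtain ⟨R', hR'⟩ : ∃ R' : A → MvPolynomial (Fin (n + 1)) L, R' = fun a =>
    map (algebraMap k0 L) (R a) := ⟨_, rfl⟩
  obtain ⟨G', hG'⟩ : ∃ G' : A → MvPolynomial (Fin (n + 1)) L, G' = fun a =>
    map (algebraMap k0 L) (G a) := ⟨_, rfl⟩
  have hDR : ∀ a I b u, D a I ((R' b).coeff u) = 0 := fun a I b u => by
    rw [hR', coeff_map]; exact hDk a I _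
  have hDG : ∀ a I b u, D a I ((G' b).coeff u) = 0 := fun a I b u => by
    rw [hG', coeff_map]; exact hDk a I _
  have hhom : ∀ a, (R' a + G' a * H' a).IsHomogeneous (dd a) := fun a => by
    rw [hR', hG']
    refine ((hRh a).map _).add ?_
    rw [hdd]
    exact ((hGh a).map _).mul (hHh a)
  have hG2 : ∀ a, eval x' (G' a) = (x c0)⁻¹ ^ cg a * aeval x (G a) := fun a => by
    rw [hG', eval_map]
    change aeval x' (G a) = _
    rw [hxx, Pool.Agent.TH145.MG.aeval_smul (hGh a)]
  have hxF' : ∀ a, eval x' (R' a + G' a * H' a) = 0 := fun a => by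
    have h1 : eval x' (R' a) = (x c0)⁻¹ ^ dd a * aeval x (R a) := by
      rw [hR', eval_map]
      change aeval x' (R a) = _
      rw [hxx, Pool.Agent.TH145.MG.aeval_smul (hRh a)]
    have h4 : eval x' (H' a) = (x c0)⁻¹ ^ eg a * aeval x (H a) := by
      rw [hxx, eval_smul_hom (hHh a), hH']
      congr 1
      rw [eval_map]
      rfl
    have h3 := hxF a
    rw [map_add, map_mul, aeval_map_algebraMap, aeval_map_algebraMap] at h3
    rw [map_add, map_mul, h1, hG2, h4, hdd, pow_add]
    linear_combination (x c0)⁻¹ ^ cg a * (x c0)⁻¹ ^ eg a * h3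
  have hxG' : ∀ a, eval x' (G' a) ≠ 0 := fun a => by
    rw [hG2]
    have h3 := hxG a
    rw [aeval_map_algebraMap] at h3
    exact mul_ne_zero (pow_ne_zero _ hcx) h3
  -- the vertical derivations
  obtain ⟨E, hE⟩ : ∃ E : Fin w → Derivation K L L, ∀ i j, E i (t j) = if i = j then 1 else 0 := by
    obtain ⟨E, hE⟩ := exists_dual htb
    refine ⟨E, fun i j => ?_⟩
    have := congrFun (congrFun hE i) j
    rw [Matrix.of_apply, Matrix.one_apply] at this
    rw [this]
  have hrk : Module.finrank L (Full c0 eg D (vE E) x') ≤ m + 1 := by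
    refine le_trans (Submodule.finrank_mono (full_le_tan (k0 := k0) hDk ?_ x'))
      (tan_rank hx1 (hV L x' hx00 hVx))
    intro i r
    exact hδ0 (E i) r
  have hindep : LinearIndepOn L (vv c0 eg D (vE E) x' fun a => Finsupp.single c0 (eg a))
      (Vert (Fin w) n A) := by
    obtain ⟨f, hf⟩ : ∃ f : Option (Fin w) → Ix (Fin w) n A ⊕ A, ∀ o, f o =
      o.elim (Sum.inl none) fun i => Sum.inl (some (Sum.inl i)) := ⟨_, fun _ => rfl⟩
    have h1 : Vert (Fin w) n A = f '' Set.univ := by
      ext i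
      constructor
      · rintro (rfl | ⟨i, rfl⟩)
        · exact ⟨none, trivial, by rw [hf]; rfl⟩
        · exact ⟨some i, trivial, by rw [hf]; rfl⟩
      · rintro ⟨(_ | i), -, rfl⟩
        · rw [hf]; exact Or.inl rfl
        · rw [hf]; exact Or.inr ⟨i, rfl⟩
    rw [h1]
    refine LinearIndepOn.image_of_comp _ _ ?_
    rw [linearIndepOn_univ_iff, Fintype.linearIndependent_iff]
    intro r hr
    have h2 : ∀ q, r none * x' q + ∑ i, r (some i) * E i (x' q) = 0 := by
      intro q
      have h3 := congrFun hr q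
      rw [Fintype.sum_option, Pi.add_apply, Finset.sum_apply] at h3
      simp only [Function.comp_apply, hf, Option.elim, Pi.smul_apply, smul_eq_mul,
        Pi.zero_apply] at h3
      exact h3
    have h3 : r none = 0 := by
      have h4 := h2 c0
      rw [hx1, mul_one, Finset.sum_eq_zero fun i _ => by
        rw [(E i).map_one_eq_zero, mul_zero], add_zero] at h4
      exact h4
    rintro (_ | j)
    · exact h3
    · have h4 := h2 (l j)
      rw [h3, zero_mul, zero_add, ← ht, Finset.sum_eq_single j] at h4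
      · rwa [hE, if_pos rfl, mul_one] at h4
      · intro i _ hi
        rw [hE, if_neg hi, mul_zero]
      · intro h; exact absurd (Finset.mem_univ _) h
  have hx0' : x' c0 ≠ 0 := by rw [hx1]; exact one_ne_zero
  obtain ⟨Φ, hΦ⟩ : ∃ Φ : (Fin (n + 1) → L) →ₗ[L] (A → L), ∀ z c,
      Φ z c = dF (R' c + G' c * H' c) x' z := by
    exact ⟨{ toFun := fun z c => dF (R' c + G' c * H' c) x' z
             map_add' := fun y z => funext fun c => dF_add _ _ _ _
             map_smul' := fun r z => funext fun c => dF_smul _ _ _ _ }, fun _ _ => rfl⟩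
  have hδF : ∀ (δ : Derivation K L L) c u, δ ((R' c + G' c * H' c).coeff u) = 0 := by
    intro δ c u
    have h1 : ∀ u, δ ((R' c).coeff u) = 0 := fun u => by rw [hR', coeff_map]; exact hδ0 δ _
    have h2 : ∀ u, δ ((G' c).coeff u) = 0 := fun u => by rw [hG', coeff_map]; exact hδ0 δ _
    rw [coeff_add, map_add, h1, zero_add, coeff_mul, map_sum]
    refine Finset.sum_eq_zero fun p _ => ?_
    rw [δ.leibniz, h2, hHK, smul_zero, smul_zero, add_zero]
  obtain ⟨b, hbV, hbC, hbi, hspan, hcard⟩ := exists_rowsV (E := vE E) (dg := eg) (D := D) hx0' Φ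
    (fun o => by
      funext c
      rw [hΦ, Pi.zero_apply]
      rcases o with _ | ξ | t
      · simp only [wv]
        rw [dF_self (hhom c), hxF' c, mul_zero]
      · simp only [wv]
        rw [dF_ev (fun u => hδF (E ξ) c u), hxF' c, map_zero]
      · simp only [wv]
        exact dF_tvV hD hDR hDG x' c (hxF' c) t)
    (g := fun c => -(eval x' (G' c) * x' c0 ^ eg c))
    (fun c => neg_ne_zero.2 (mul_ne_zero (hxG' c) (pow_ne_zero _ hx0')))
    (fun a c => by
      rw [hΦ, dF_EvV hD hDR hDG x' (single_mem _), hxF' c, map_zero, mon_single]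
      by_cases h : a = c
      · subst h
        rw [if_pos rfl, if_pos rfl]
        ring
      · rw [if_neg h, if_neg h]
        ring) hindep
  obtain ⟨σ, hσ⟩ := exists_minor _ hbi
  have hdet : (mx c0 eg D (vE E) x' (fun a => Finsupp.single c0 (eg a)) b σ).det ≠ 0 := by
    rw [Ne, det_dec _ _ (mx c0 eg D (vE E) x' (fun a => Finsupp.single c0 (eg a)) b σ)]
    exact hσ
  have hrd : ∑ i ∈ b, rd i + Fintype.card A + w + 1 ≤ 2 * b.card := by
    obtain ⟨b', hb'⟩ : ∃ b' : Finset (Ix (Fin w) n A ⊕ A), b' = insert (Sum.inl none)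
      ((Finset.univ.image fun i : Fin w => Sum.inl (some (Sum.inl i))) ∪
        Finset.univ.image Sum.inr) := ⟨_, rfl⟩
    have h1 : b' ⊆ b := by
      rw [hb']
      intro i hi
      rcases Finset.mem_insert.1 hi with rfl | hi
      · exact hbV _ (Or.inl rfl)
      rcases Finset.mem_union.1 hi with hi | hi
      · obtain ⟨j, -, rfl⟩ := Finset.mem_image.1 hi
        exact hbV _ (Or.inr ⟨j, rfl⟩)
      · obtain ⟨a, ha, rfl⟩ := Finset.mem_image.1 hi
        exact hbC a
    have h2 : b'.card = Fintype.card A + w + 1 := by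
      rw [hb', Finset.card_insert_of_notMem, Finset.card_union_of_disjoint,
        Finset.card_image_of_injective, Finset.card_image_of_injective _ Sum.inr_injective,
        Finset.card_univ, Finset.card_univ, Fintype.card_fin]
      · ring
      · intro i j hij
        simpa using hij
      · rw [Finset.disjoint_left]
        intro i hi hi'
        obtain ⟨j, -, rfl⟩ := Finset.mem_image.1 hi
        obtain ⟨a, -, ha⟩ := Finset.mem_image.1 hi'
        exact absurd ha (by simp)
      · intro h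
        rcases Finset.mem_union.1 h with hi | hi
        · obtain ⟨j, -, hj⟩ := Finset.mem_image.1 hi
          simp at hj
        · obtain ⟨a, -, ha⟩ := Finset.mem_image.1 hi
          exact absurd ha (by simp)
    have h3 : ∑ i ∈ b', rd i = b'.card := by
      rw [Finset.card_eq_sum_ones]
      refine Finset.sum_congr rfl fun i hi => ?_
      rw [hb'] at hi
      rcases Finset.mem_insert.1 hi with rfl | hi
      · rfl
      rcases Finset.mem_union.1 hi with hi | hi
      · obtain ⟨j, -, rfl⟩ := Finset.mem_image.1 hi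
        rfl
      · obtain ⟨a, ha, rfl⟩ := Finset.mem_image.1 hi
        rfl
    have h4 : ∑ i ∈ b \ b', rd i ≤ 2 * (b \ b').card := by
      rw [mul_comm, ← smul_eq_mul, ← Finset.sum_const]
      refine Finset.sum_le_sum fun i _ => ?_
      rcases i with (_ | _ | _) | _
      · exact one_le_two
      · exact one_le_two
      · exact le_rfl
      · exact one_le_two
    have h5 := Finset.sum_sdiff (f := fun i => rd i) h1
    have h6 := Finset.card_sdiff_add_card_eq_card h1
    omega
  have hs1 : ∑ i ∈ b, rd i + 1 ≤ ∑ a, eg a := by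
    have h1 : b.card ≤ m + 1 := by rw [← hcard]; exact hrk
    omega
  -- the forms
  obtain ⟨Z, hZ⟩ : ∃ Z, Z = ∏ a, if Sum.inr a ∈ b then x' c0 ^ eg a else eval x' (H' a) := ⟨_, rfl⟩
  have hZ0 : Z ≠ 0 := by
    rw [hZ]
    refine Finset.prod_ne_zero_iff.2 fun a _ => ?_
    rw [if_pos (hbC a)]
    exact pow_ne_zero _ hx0'
  obtain ⟨lj, hlj⟩ : ∃ lj : Fin (w + 1) → Fin (n + 1), lj = Fin.cons c0 l := ⟨_, rfl⟩
  obtain ⟨ω, hω⟩ : ∃ ω : Fin (w + 1) → (Fin w → Derivation K L L) → L, ∀ j Dd, ω j Dd =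
    (mx c0 eg D (vE Dd) x' (fun a => Finsupp.single c0 (eg a)) b σ).det / Z * x' (lj j) :=
    ⟨_, fun _ _ => rfl⟩
  have hlin : ∀ (M : Matrix (Fin w) (Fin w) L) (D1 D2 : Fin w → Derivation K L L),
      (∀ i f, D1 i f = ∑ j, M i j * D2 j f) → ∀ j, ω j D1 = M.det * ω j D2 := by
    intro M D1 D2 h j
    have h1 := det_lin (c0 := c0) (dg := eg) (D := D) (E := vE D2) (E' := vE D1) (M := M)
      h x' hbV σ (fun a => Finsupp.single c0 (eg a))
    have h2 : (mx c0 eg D (vE D1) x' (fun a => Finsupp.single c0 (eg a)) b σ).det =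
        M.det * (mx c0 eg D (vE D2) x' (fun a => Finsupp.single c0 (eg a)) b σ).det := by
      exact (det_dec _ _ _).trans (h1.trans (congrArg₂ (· * ·) (det_dec _ _ _) (det_dec _ _ _)))
    rw [hω, hω, h2]
    ring
  have hωE : ω 0 E ≠ 0 := by
    rw [hω, hlj, Fin.cons_zero, hx1, mul_one]
    exact div_ne_zero hdet hZ0
  -- the regularity
  have hreg : ∀ (Q : Place K L), Divisorial w Q → ∀ (Dd : Fin w → Derivation K L L),
      (((∀ i, DerReg Q (Dd i)) ∧
        ∀ a, Sum.inr a ∉ b → Q.ord (eval x' (H' a)) ≤ eg a * pord Q x') ∨ ∀ i, DerLog Q (Dd i)) →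
      ∀ j, Q.Reg (ω j Dd) := by
    intro Q hQ Dd hDd j
    obtain ⟨M, hM⟩ : ∃ M : Matrix (Fin w) (Fin w) L, M = Matrix.of fun i j => Dd i (t j) := ⟨_, rfl⟩
    have hωM := hlin M Dd E (fun i f => by
      rw [der_comb htb hE (Dd i) f, hM]
      rfl) j
    by_cases hM0 : M.det = 0
    · rw [hωM, hM0, zero_mul]
      exact Q.reg_zero
    by_cases hxj : x' (lj j) = 0
    · rw [hω, hxj, mul_zero]
      exact Q.reg_zero
    have h1 := ord_form hHh hD hw htr hQ hDS htb hE hHK (Dd := Dd) (by
      have h2 := hM0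
      rw [hM] at h2
      rw [Ne, det_dec _ _ (Matrix.of fun i j => Dd i (t j))]
      exact h2) hx0' hbV σ hspan hcard hdet (fun a ha => absurd (hbC a) ha) hDd
    rw [← hZ] at h1
    have h2 : Q.ord (Matrix.of fun i j => Dd i (t j)).det = Q.ord M.det := by
      congr 1
      rw [hM]
    have hdz : (mx c0 eg D (vE E) x' (fun a => Finsupp.single c0 (eg a)) b σ).det / Z ≠ 0 :=
      div_ne_zero hdet hZ0
    right
    rw [hωM, hω, Q.ord_mul hM0 (mul_ne_zero hdz hxj), Q.ord_mul hdz hxj]
    have h3 : pord Q x' ≤ Q.ord (x' (lj j)) := pord_le Q hxj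
    have h4 : pord Q x' ≤ 0 := by
      have := pord_le Q (f := x') hx0'
      rwa [hx1, Q.ord_one] at this
    have h5 : ((∑ i ∈ b, rd i : ℕ) : ℤ) + 1 ≤ (∑ a, eg a : ℕ) := by exact_mod_cast hs1
    have h6 : 0 ≤ (((∑ i ∈ b, rd i : ℕ) : ℤ) + 1 - (∑ a, eg a : ℕ)) * pord Q x' :=
      mul_nonneg_of_nonpos_of_nonpos (by linarith) h4
    have h7 : Q.ord (Matrix.of fun i j => Dd i (t j)).det = Q.ord M.det := h2
    nlinarith
  refine ⟨htr, 1, one_pos, ω, fun j M Dd => ?_, fun Q hQ j Dd hDd => ?_,
    fun Q hQ hB j Dd hDd => ?_, E, hωE, ?_⟩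
  · rw [pow_one]
    refine hlin M _ Dd (fun i f => ?_) j
    rw [← Derivation.coeFnAddMonoidHom_apply, map_sum, Finset.sum_apply]
    rfl
  · exact hreg Q hQ Dd (Or.inr hDd) j
  · exact hreg Q hQ Dd (Or.inl ⟨hDd, fun a ha => absurd (hbC a) ha⟩) j
  · have h1 : (fun i : Fin w => ω i.succ E / ω 0 E) = t := by
      funext i
      have h2 : (mx c0 eg D (vE E) x' (fun a => Finsupp.single c0 (eg a)) b σ).det / Z ≠ 0 :=
        div_ne_zero hdet hZ0
      rw [hω, hω, hlj, Fin.cons_succ, Fin.cons_zero, hx1, mul_one, mul_div_cancel_left₀ _ h2, ht]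
    rw [h1]
    exact htb.1

end Pool.Agent.K9h33.BL
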