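import Pool.Agent.K9h33.BL.Rows

/-!
The height inequality for points outside of the base locus.
-/

set_option autoImplicit false
set_option linter.unusedSectionVars false
set_option linter.unusedVariables false
set_option linter.unusedSimpArgs false

open MvPolynomial FF Pool.Agent.W603.LV Pool.Agent.W603.PV Pool.Agent.TH145.GH Pool.Agent.TH145.GC

namespace Pool.Agent.K9h33.BL

section dF

variable {K : Type} [Field K] {n : ℕ} {A : Type} {H : A → MvPolynomial (Fin (n + 1)) K}
  {eg : A → ℕ} {D : A → (Fin (n + 1) →₀ ℕ) → Derivation ℤ K K}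

/-- the differentials of the forms `R + G H` along the derivatives -/
theorem dF_EvG [DecidableEq A] (hH : ∀ a, (H a).IsHomogeneous (eg a)) (hD : Dual H eg D)
    {R G : A → MvPolynomial (Fin (n + 1)) K}
    (hR : ∀ a I b u, D a I ((R b).coeff u) = 0) (hG : ∀ a I b u, D a I ((G b).coeff u) = 0)
    (x : Fin (n + 1) → K) {a b : A} {I : Fin (n + 1) →₀ ℕ} (hI : I.degree = eg a) :
    dF (R b + G b * H b) x (Ev D x a I) = D a I (eval x (R b + G b * H b)) -
      eval x (G b) * if a = b then mon x I else 0 :=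
  dF_RGH (D a I) (hR a I b) (hG a I b) x (dF_Ev hH hD x hI)

theorem dF_tvG (hH : ∀ a, (H a).IsHomogeneous (eg a)) (hD : Dual H eg D)
    {R G : A → MvPolynomial (Fin (n + 1)) K}
    (hR : ∀ a I b u, D a I ((R b).coeff u) = 0) (hG : ∀ a I b u, D a I ((G b).coeff u) = 0)
    (x : Fin (n + 1) → K) (b : A) (hb : eval x (R b + G b * H b) = 0) (t : Ti n A) :
    dF (R b + G b * H b) x (tv eg D x t) = 0 := by
  classical
  by_cases ht : t.2.1.degree + 1 = eg t.1
  · rw [tv, if_pos ht, dF_sub, dF_smul, dF_smul, dF_EvG hH hD hR hG x (by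
      rw [map_add, Finsupp.degree_single, ht]), dF_EvG hH hD hR hG x (by
      rw [map_add, Finsupp.degree_single, ht]), mon_add, mon_add, mon_single, mon_single, hb,
      map_zero, map_zero]
    split_ifs <;> ring
  · rw [tv, if_neg ht]
    simp [dF]

end dF

variable {k K : Type} [Field k] [Field K] [Algebra k K] {n : ℕ} {A : Type}
  {H : A → MvPolynomial (Fin (n + 1)) K} {eg : A → ℕ}
  {D : A → (Fin (n + 1) →₀ ℕ) → Derivation ℤ K K} {e : Place k K → ℤ}
  [IsAlgClosed k] [CharZero k] [IsFF k K]

/-- The height inequality. -/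
theorem ineqG (hdat : Data k H eg D e) [Fintype A] {m : ℕ}
    (hdim : 2 * m + 2 ≤ ∑ a, eg a + Fintype.card A) {R G : A → MvPolynomial (Fin (n + 1)) K}
    {dd : A → ℕ} (hhom : ∀ a, (R a + G a * H a).IsHomogeneous (dd a))
    (hR : ∀ a I b u, D a I ((R b).coeff u) = 0) (hG : ∀ a I b u, D a I ((G b).coeff u) = 0)
    {x : Fin (n + 1) → K} (hx0 : x ≠ 0)
    (hrk : Module.finrank K (Full eg D x) ≤ m + 1)
    (hx : ∀ a, eval x (R a + G a * H a) = 0) (hGx : ∀ a, eval x (G a) ≠ 0) :
    pht k x ≤ ∑ᶠ P, (n + 1 + Fintype.card A) * e P := by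
  classical
  obtain ⟨e0, he0⟩ := Function.ne_iff.1 hx0
  obtain ⟨Φ, hΦ⟩ : ∃ Φ : (Fin (n + 1) → K) →ₗ[K] (A → K), ∀ z c,
      Φ z c = dF (R c + G c * H c) x z := by
    exact ⟨{ toFun := fun z c => dF (R c + G c * H c) x z
             map_add' := fun y z => funext fun c => dF_add _ _ _ _
             map_smul' := fun r z => funext fun c => dF_smul _ _ _ _ }, fun _ _ => rfl⟩
  obtain ⟨b, hb0, hbC, hbi, hspan, hcard⟩ := exists_rowsG (dg := eg) (D := D) he0 Φ
    (fun o => by
      funext c
      rw [hΦ, Pi.zero_apply]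
      rcases o with _ | t
      · simp only [wv]
        rw [dF_self (hhom c), hx c, mul_zero]
      · simp only [wv]
        exact dF_tvG hdat.hom hdat.dual hR hG x c (hx c) t)
    (g := fun c => -(eval x (G c) * x e0 ^ eg c))
    (fun c => neg_ne_zero.2 (mul_ne_zero (hGx c) (pow_ne_zero _ he0)))
    (fun a c => by
      rw [hΦ, dF_EvG hdat.hom hdat.dual hR hG x (Finsupp.degree_single _ _), hx c, map_zero,
        mon_single]
      by_cases h : a = c
      · subst h
        rw [if_pos rfl, if_pos rfl]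
        ring
      · rw [if_neg h, if_neg h]
        ring)
  obtain ⟨σ, hσ⟩ := exists_minor _ hbi
  have hdet : (mx eg D x (fun a => Finsupp.single e0 (eg a)) b σ).det ≠ 0 := by
    unfold mx
    convert hσ
  have hrd : ∑ i ∈ b, rd i + Fintype.card A + 1 ≤ 2 * b.card := by
    obtain ⟨b', hb'⟩ : ∃ b' : Finset (Option (Ti n A) ⊕ A), b' = insert (Sum.inl none)
      (Finset.univ.image Sum.inr) := ⟨_, rfl⟩
    have h1 : b' ⊆ b := by
      rw [hb']
      intro i hi
      rcases Finset.mem_insert.1 hi with rfl | hi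
      · exact hb0
      · obtain ⟨a, ha, rfl⟩ := Finset.mem_image.1 hi
        exact hbC a
    have h2 : b'.card = Fintype.card A + 1 := by
      rw [hb', Finset.card_insert_of_notMem (by simp), Finset.card_image_of_injective _
        Sum.inr_injective, Finset.card_univ]
    have h3 : ∑ i ∈ b', rd i = b'.card := by
      rw [Finset.card_eq_sum_ones]
      refine Finset.sum_congr rfl fun i hi => ?_
      rw [hb'] at hi
      rcases Finset.mem_insert.1 hi with rfl | hi
      · rfl
      · obtain ⟨a, ha, rfl⟩ := Finset.mem_image.1 hi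
        rfl
    have h4 : ∑ i ∈ b \ b', rd i ≤ 2 * (b \ b').card := by
      rw [mul_comm, ← smul_eq_mul, ← Finset.sum_const]
      refine Finset.sum_le_sum fun i _ => ?_
      rcases i with (_ | _) | _
      · exact one_le_two
      · exact le_rfl
      · exact one_le_two
    have h5 := Finset.sum_sdiff (f := fun i => rd i) h1
    have h6 := Finset.card_sdiff_add_card_eq_card h1
    omega
  have hpht : 0 ≤ pht k x :=
    (hgt_nonneg _).trans (Pool.Agent.W603.CX.hgt_le_pht (k := k) x he0 he0)
  refine sum_local hx0 (Θ := (mx eg D x (fun a => Finsupp.single e0 (eg a)) b σ).det /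
        ∏ a, if Sum.inr a ∈ b then x e0 ^ eg a else eval x (H a))
    (a := (∑ a, eg a : ℕ) - (∑ i ∈ b, rd i : ℕ)) (by omega) ?_ (fun P => ?_) hpht
  · refine hdat.fin.subset fun P hP => ?_
    intro h0
    apply hP
    rw [h0, mul_zero]
  · have h1 := hdat.local_est P he0 hb0 σ hspan hcard hdet
      (fun a ha => absurd (hbC a) ha) (Or.inl fun a ha => absurd (hbC a) ha)
    rw [neg_sub]
    convert h1

end Pool.Agent.K9h33.BL
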