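import Pool.Agent.K9h33.BL.GT

/-!
The order of the determinant at a place, for pairs with base points.
-/

set_option autoImplicit false
set_option linter.unusedSectionVars false
set_option linter.unusedVariables false
set_option linter.unusedSimpArgs false

open MvPolynomial FF Pool.Agent.W603.LV Pool.Agent.W603.PV Pool.Agent.TH145.GH
open Pool.Agent.TH145.GC (Ev dF_sub dF_self det_est sub_one_ord)
open Pool.Agent.TH145.GD (Ti tv St sM sM_mem mon_step sM_zero sM_top single_mem deg_St finite_St)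
open Pool.Agent.TH145.GE

namespace Pool.Agent.K9h33.BL

section rows

variable {K : Type} [Field K] {n : ℕ} {A X : Type}
  {c0 : Fin (n + 1)} {dg : A → ℕ} {D : A → (Fin (n + 1) →₀ ℕ) → Derivation ℤ K K}
  {E : X → Derivation ℤ K K}

open scoped Classical in
/-- The differentials of the forms `F` along the derivatives. -/
def FDual (c : Fin (n + 1)) (F G : A → MvPolynomial (Fin (n + 1)) K) (dg : A → ℕ)
    (D : A → (Fin (n + 1) →₀ ℕ) → Derivation ℤ K K) : Prop :=
  ∀ (a b : A) (I : Fin (n + 1) →₀ ℕ), I ∈ St c (dg a) → ∀ x : Fin (n + 1) → K,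
    dF (F b) x (Ev D x a I) = D a I (eval x (F b)) - if a = b then eval x (G b) * mon x I else 0

theorem FDual.tv {c : Fin (n + 1)} {F G : A → MvPolynomial (Fin (n + 1)) K}
    (hD : FDual c F G dg D) (x : Fin (n + 1) → K) (b : A) (t : Ti n A) (ht : t.2.2 < dg t.1) :
    dF (F b) x (tv c dg D x t) =
      x c * D t.1 (sM c (dg t.1) t.2.1 (t.2.2 + 1)) (eval x (F b)) -
      x t.2.1 * D t.1 (sM c (dg t.1) t.2.1 t.2.2) (eval x (F b)) := by
  classical
  rw [Pool.Agent.TH145.GD.tv, if_pos ht, dF_sub, dF_smul, dF_smul, hD _ _ _ (sM_mem (by omega)) x,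
    hD _ _ _ (sM_mem (by omega)) x]
  have h1 := mon_step x c t.2.1 ht
  split_ifs
  · linear_combination (-eval x (G b)) * h1
  · ring

/-- The choice of the rows. -/
theorem exists_rowsC [DecidableEq A] {x : Fin (n + 1) → K} {C : Finset A}
    (he : x c0 ≠ 0) (Φ : (Fin (n + 1) → K) →ₗ[K] (C → K))
    (hΦo : ∀ o, Φ (wv c0 dg D E x o) = 0) {g : A → K} (hg : ∀ c ∈ C, g c ≠ 0)
    (hΦE' : ∀ a ∈ C, ∀ c : C, Φ (Ev D x a (Finsupp.single c0 (dg a))) c =
      if a = c then g c else 0)
    (hs0 : LinearIndepOn K (vv c0 dg D E x fun a => Finsupp.single c0 (dg a)) (Vert X n A)) :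
    ∃ b : Finset (Ix X n A ⊕ A), (∀ i ∈ Vert X n A, i ∈ b) ∧ (∀ a ∈ C, Sum.inr a ∈ b) ∧
      LinearIndependent K (fun i : b => vv c0 dg D E x (fun a => Finsupp.single c0 (dg a)) i) ∧
      (Submodule.span K (Set.range (wv c0 dg D E x)) ≤
        Submodule.span K (wv c0 dg D E x '' {o | Sum.inl o ∈ b})) ∧
      Module.finrank K (Full c0 dg D E x) = b.card := by
  classical
  obtain ⟨v, hv⟩ : ∃ v, v = vv c0 dg D E x (fun a => Finsupp.single c0 (dg a)) := ⟨_, rfl⟩
  have hdeg : ∀ a, Finsupp.single c0 (dg a) ∈ St c0 (dg a) := fun a => single_mem _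
  rw [← hv] at hs0
  obtain ⟨b0, hb0, hs0b, hspan0, hb0i⟩ := exists_linearIndepOn_extension hs0
    (t := Set.range Sum.inl) (by
      rintro _ (rfl | ⟨ξ, rfl⟩)
      · exact ⟨none, rfl⟩
      · exact ⟨_, rfl⟩)
  have hΦw : ∀ z ∈ Submodule.span K (Set.range (wv c0 dg D E x)), Φ z = 0 := by
    intro z hz
    have h1 : Submodule.span K (Set.range (wv c0 dg D E x)) ≤ LinearMap.ker Φ := by
      rw [Submodule.span_le]
      rintro _ ⟨o, rfl⟩
      rw [SetLike.mem_coe, LinearMap.mem_ker]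
      exact hΦo o
    exact h1 hz
  have hΦE : ∀ a ∈ C, ∀ c : C, Φ (v (Sum.inr a)) c = if a = c then g c else 0 := by
    intro a ha c
    rw [hv]
    exact hΦE' a ha c
  have hΦsum : ∀ r : C → K, Φ (∑ a : C, r a • v (Sum.inr a.1)) = fun c => r c * g c.1 := by
    intro r
    rw [map_sum]
    funext c
    rw [Finset.sum_apply, Finset.sum_eq_single c]
    · rw [map_smul, Pi.smul_apply, hΦE c c.2, if_pos rfl, smul_eq_mul]
    · intro a _ hac
      rw [map_smul, Pi.smul_apply, hΦE a a.2, if_neg fun h => hac (Subtype.ext h), smul_zero]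
    · intro h; exact absurd (Finset.mem_univ c) h
  have hCind : LinearIndepOn K v (Sum.inr '' (C : Set A)) := by
    have h1 : LinearIndependent K (fun a : C => v (Sum.inr a.1)) := by
      rw [Fintype.linearIndependent_iff]
      intro r hr a
      have h2 := hΦsum r
      rw [hr, map_zero] at h2
      have h3 := congrFun h2 a
      have h4 : r a * g a.1 = 0 := h3.symm
      exact (mul_eq_zero.1 h4).resolve_right (hg a.1 a.2)
    have h2 : LinearIndepOn K (v ∘ Sum.inr) (C : Set A) := h1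
    exact (LinearIndepOn.image_of_comp _ _ h2)
  have hdisj : Disjoint (Submodule.span K (v '' b0))
      (Submodule.span K (v '' (Sum.inr '' (C : Set A)))) := by
    rw [Submodule.disjoint_def]
    intro z hz1 hz2
    have h1 : Φ z = 0 := by
      apply hΦw
      refine (Submodule.span_le.2 ?_) hz1
      rintro _ ⟨i, hi, rfl⟩
      obtain ⟨o, rfl⟩ := hb0 hi
      rw [hv]
      exact Submodule.subset_span ⟨o, rfl⟩
    have h2 : v '' (Sum.inr '' (C : Set A)) = Set.range fun a : C => v (Sum.inr a.1) := by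
      ext w
      constructor
      · rintro ⟨_, ⟨a, ha, rfl⟩, rfl⟩
        exact ⟨⟨a, ha⟩, rfl⟩
      · rintro ⟨a, rfl⟩
        exact ⟨_, ⟨a.1, a.2, rfl⟩, rfl⟩
    rw [h2, Submodule.mem_span_range_iff_exists_fun] at hz2
    obtain ⟨r, rfl⟩ := hz2
    rw [hΦsum] at h1
    refine Finset.sum_eq_zero fun a _ => ?_
    have h4 : r a * g a.1 = 0 := congrFun h1 a
    rw [(mul_eq_zero.1 h4).resolve_right (hg a.1 a.2), zero_smul]
  obtain ⟨b1, -, hb1, hspan1, hb1i⟩ := exists_linearIndepOn_extension (hb0i.union hCind hdisj)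
    (Set.subset_univ _)
  have hb1i' : LinearIndependent K (fun i : b1 => v i) := hb1i
  have hfin : b1.Finite := by
    have := hb1i'.finite
    exact Set.toFinite b1
  obtain ⟨b, hb⟩ : ∃ b : Finset (Ix X n A ⊕ A), (b : Set _) = b1 :=
    ⟨hfin.toFinset, hfin.coe_toFinset⟩
  have hbm : ∀ i, i ∈ b ↔ i ∈ b1 := fun i => by rw [← hb, Finset.mem_coe]
  have hbi : LinearIndependent K (fun i : b => v i) := by
    have h1 : LinearIndepOn K v (b : Set _) := by rw [hb]; exact hb1i
    exact h1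
  refine ⟨b, ?_, fun a ha => ?_, ?_, ?_, ?_⟩
  · intro i hi
    rw [hbm]; exact hb1 (Or.inl (hs0b hi))
  · rw [hbm]; exact hb1 (Or.inr ⟨a, ha, rfl⟩)
  · rw [← hv]; exact hbi
  · rw [Submodule.span_le]
    rintro _ ⟨o, rfl⟩
    have h1 := hspan0 ⟨Sum.inl o, ⟨o, rfl⟩, rfl⟩
    have h2 : v (Sum.inl o) = wv c0 dg D E x o := by rw [hv]; rfl
    rw [h2] at h1
    refine Submodule.span_mono ?_ h1
    rintro _ ⟨i, hi, rfl⟩
    obtain ⟨o', rfl⟩ := hb0 hi
    refine ⟨o', ?_, by rw [hv]; rfl⟩
    rw [Set.mem_ofPred_eq, hbm]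
    exact hb1 (Or.inl hi)
  · have h1 : Full c0 dg D E x = Submodule.span K (Set.range fun i : b => v i) := by
      apply le_antisymm
      · have h2 : ∀ i, v i ∈ Submodule.span K (Set.range fun i : b => v i) := by
          intro i
          have h3 := hspan1 ⟨i, Set.mem_univ _, rfl⟩
          rw [← hb, Set.image_eq_range] at h3
          exact h3
        have h3 : ∀ o, wv c0 dg D E x o ∈ Submodule.span K (Set.range fun i : b => v i) := by
          intro o
          have := h2 (Sum.inl o)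
          rwa [hv] at this ⊢
        rw [Full, Submodule.span_le]
        rintro _ (⟨o, rfl⟩ | ⟨a, I, hI, rfl⟩)
        · exact h3 o
        · have h4 := Ev_mod dg D E x he a hI
          have h5 : Submodule.span K (Set.range (wv c0 dg D E x)) ≤
              Submodule.span K (Set.range fun i : b => v i) := by
            rw [Submodule.span_le]
            rintro _ ⟨o, rfl⟩
            exact h3 o
          have h6 : Ev D x a (Finsupp.single c0 (dg a)) ∈
              Submodule.span K (Set.range fun i : b => v i) := by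
            have := h2 (Sum.inr a)
            rwa [hv] at this ⊢
          have h7 := add_mem (h5 h4) (Submodule.smul_mem _ (mon x I / x c0 ^ dg a) h6)
          rwa [sub_add_cancel] at h7
      · rw [Submodule.span_le]
        rintro _ ⟨i, rfl⟩
        rw [hv]
        exact vv_mem_full x hdeg i.1
    rw [h1, finrank_span_eq_card hbi, Fintype.card_coe]

end rows

variable {k K : Type} [Field k] [Field K] [Algebra k K]

variable {n : ℕ} {A X : Type} {c0 : Fin (n + 1)} {F G : A → MvPolynomial (Fin (n + 1)) K}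
    {dd eg : A → ℕ}
    {D : A → (Fin (n + 1) →₀ ℕ) → Derivation ℤ K K} {E : X → Derivation ℤ K K}

/-- The order of the differential of a form along the rows. -/
theorem ge_dFF (hF : ∀ a, (F a).IsHomogeneous (dd a)) (hD : FDual c0 F G eg D) {P : Place k K}
    (hP : Pres P c0 eg D) {x : Fin (n + 1) → K}
    (hx : ∀ l, Ge P 0 (x l)) {I : A → Fin (n + 1) →₀ ℕ} (hI : ∀ a, I a ∈ St c0 (eg a))
    {a : A} (ha : eval x (F a) ≠ 0) (hEF : ∀ ξ, Ge P (P.ord (eval x (F a))) (dF (F a) x (ev (E ξ) x)))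
    (i : Ix X n A ⊕ A) (hi : i ≠ Sum.inr a) :
    Ge P (P.ord (eval x (F a))) (dF (F a) x (vv c0 eg D E x I i)) := by
  classical
  have h1 : Ge P (P.ord (eval x (F a))) (eval x (F a)) := Or.inr le_rfl
  have hε : ∀ m : ℕ, Ge P (P.ord (eval x (F a))) ((m : K) * eval x (F a)) := fun m => by
    have := (Ge.natCast (P := P) m).mul h1
    exact this.mono (by omega)
  rcases i with (_ | ξ | t) | c
  · simp only [vv, wv]
    rw [dF_self (hF a)]
    exact hε _
  · exact hEF ξ
  · simp only [vv, wv]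
    by_cases ht : t.2.2 < eg t.1
    · rw [hD.tv x a t ht]
      refine Ge.mono (by omega : _ ≤ 0 + P.ord (eval x (F a))) (Ge.sub ?_ ?_)
      · exact (hx _).mul (hP _ ha _ _ (sM_mem (by omega)))
      · exact (hx _).mul (hP _ ha _ _ (sM_mem (by omega)))
    · rw [Pool.Agent.TH145.GD.tv, if_neg ht]
      have h1 : dF (F a) x 0 = 0 := by simp [dF]
      rw [h1]
      exact Ge.zero
  · simp only [vv]
    rw [hD c a _ (hI c) x, if_neg fun h => hi (by rw [h]), sub_zero]
    exact hP _ ha c _ (hI c)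

/-- division by a nonzero function -/
theorem ge_div {P : Place k K} {N : ℤ} {f g : K} (hf : Ge P N f) (hg : g ≠ 0) :
    Ge P (N - P.ord g) (f / g) := by
  by_cases h0 : f = 0
  · rw [h0, zero_div]; exact Ge.zero
  · right
    rw [P.ord_div h0 hg]
    have := hf.resolve_left h0
    omega

open scoped Classical in
/-- The order of the determinant at a scaled point. -/
theorem ord_detG (hF : ∀ a, (F a).IsHomogeneous (dd a)) (hD : FDual c0 F G eg D) [Fintype A]
    {P : Place k K} (hP : Pres P c0 eg D)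
    {x : Fin (n + 1) → K} (hx : ∀ l, Ge P 0 (x l)) {e1 : Fin (n + 1)} (he1 : x e1 = 1)
    {b : Finset (Ix X n A ⊕ A)} (σ : b → Fin (n + 1))
    (hcard : Module.finrank K (Full c0 eg D E x) = b.card)
    (hdet : (mx c0 eg D E x (fun a => Finsupp.single e1 (eg a)) b σ).det ≠ 0)
    (hFx : ∀ a, Sum.inr a ∉ b → eval x (F a) ≠ 0) (hGx : ∀ a, Sum.inr a ∉ b → eval x (G a) ≠ 0)
    (hE : ∀ ξ l, Ge P 0 (E ξ (x l)))
    (hEF : ∀ ξ a, Sum.inr a ∉ b → 0 < P.ord (eval x (F a)) - P.ord (eval x (G a)) →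
      Ge P (P.ord (eval x (F a))) (dF (F a) x (ev (E ξ) x))) :
    (∑ a ∈ Finset.univ.filter (fun a => Sum.inr a ∉ b),
      (P.ord (eval x (F a)) - P.ord (eval x (G a)))) ≤
      P.ord (mx c0 eg D E x (fun a => Finsupp.single e1 (eg a)) b σ).det := by
  have hdeg : ∀ a, Finsupp.single e1 (eg a) ∈ St c0 (eg a) := fun a => single_mem _
  obtain ⟨y, hy⟩ : ∃ y : A → b → K, ∀ a, ∀ z ∈ Full c0 eg D E x,
      ∑ j, y a j * z (σ j) = dF (F a) x z := by
    choose y hy using fun a => exists_coord hdeg σ hcard hdet (F a)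
    exact ⟨y, hy⟩
  obtain ⟨y', hy'⟩ : ∃ y' : A → b → K, ∀ a j, y' a j = y a j / eval x (G a) := ⟨_, fun _ _ => rfl⟩
  have hy2 : ∀ a, ∀ z ∈ Full c0 eg D E x,
      ∑ j, y' a j * z (σ j) = dF (F a) x z / eval x (G a) := by
    intro a z hz
    rw [← hy a z hz, Finset.sum_div]
    refine Finset.sum_congr rfl fun j _ => ?_
    rw [hy']
    ring
  obtain ⟨B', hB'⟩ : ∃ B' : Finset A, B' = (Finset.univ.filter fun a => Sum.inr a ∉ b).filter
      fun a => 0 < P.ord (eval x (F a)) - P.ord (eval x (G a)) := ⟨_, rfl⟩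
  have hm : ∀ a ∈ B', Sum.inr a ∉ b ∧ 0 < P.ord (eval x (F a)) - P.ord (eval x (G a)) :=
    fun a ha => by
      rw [hB', Finset.mem_filter, Finset.mem_filter] at ha
      exact ⟨ha.1.2, ha.2⟩
  have h1 := det_est P y' (fun a j => Ev D x a (Finsupp.single e1 (eg a)) (σ j))
    (fun a => P.ord (eval x (F a)) - P.ord (eval x (G a))) 0 B' (fun a _ j => ?_) (fun a ha => ?_)
    (fun a ha c hc hac => ?_)
    (fun i j => vv c0 eg D E x (fun a => Finsupp.single e1 (eg a)) i (σ j)) (fun i j => ?_)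
    (fun a ha i => ?_)
  rotate_left
  · rw [neg_zero]
    exact hP.ge (hx _) (hdeg a)
  · rw [hy2 a _ (Ev_mem_full x (hdeg a)), hD a a _ (hdeg a) x, if_pos rfl,
      mon_single, he1, one_pow, mul_one, sub_div, div_self (hGx a (hm a ha).1)]
    have h2 : Ge P 1 (D a (Finsupp.single e1 (eg a)) (eval x (F a)) / eval x (G a)) := by
      refine (ge_div (hP _ (hFx a (hm a ha).1) a _ (hdeg a)) (hGx a (hm a ha).1)).mono ?_
      have := (hm a ha).2
      omega
    exact sub_one_ord P h2
  · rw [hy2 c _ (Ev_mem_full x (hdeg a)), hD a c _ (hdeg a) x, if_neg hac, sub_zero]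
    exact ge_div (hP _ (hFx c (hm c hc).1) a _ (hdeg a)) (hGx c (hm c hc).1)
  · rw [neg_zero]
    exact ge_vv hP hx hE hdeg _ _
  · rw [hy2 a _ (vv_mem_full x hdeg i.1)]
    refine ge_div (ge_dFF hF hD hP hx hdeg (hFx a (hm a ha).1)
      (fun ξ => hEF ξ a (hm a ha).1 (hm a ha).2) _ ?_) (hGx a (hm a ha).1)
    intro h
    exact (hm a ha).1 (h ▸ i.2)
  have h2 : (Matrix.of fun (i j : b) => vv c0 eg D E x (fun a => Finsupp.single e1 (eg a)) i (σ j)) =
    mx c0 eg D E x (fun a => Finsupp.single e1 (eg a)) b σ := rfl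
  rw [h2] at h1
  have h3 := h1.resolve_left hdet
  rw [mul_zero, sub_zero] at h3
  refine le_trans ?_ h3
  rw [← Finset.sum_filter_add_sum_filter_not (Finset.univ.filter (fun a => Sum.inr a ∉ b))
    (fun a => 0 < P.ord (eval x (F a)) - P.ord (eval x (G a))), ← hB']
  have h6 : ∑ a ∈ (Finset.univ.filter (fun a => Sum.inr a ∉ b)).filter
      (fun a => ¬ 0 < P.ord (eval x (F a)) - P.ord (eval x (G a))),
      (P.ord (eval x (F a)) - P.ord (eval x (G a))) ≤ 0 := by
    refine Finset.sum_nonpos fun a ha => ?_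
    have := (Finset.mem_filter.1 ha).2
    omega
  linarith

end Pool.Agent.K9h33.BL
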