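import Pool.Agent.K9h33.BL.LEst

/-!
The order of the form at a divisorial place, for pairs with base points.
-/

set_option autoImplicit false
set_option linter.unusedSectionVars false
set_option linter.unusedVariables false
set_option linter.unusedSimpArgs false

open MvPolynomial FF Pool.Agent.W603.LV Pool.Agent.W603.PV Pool.Agent.TH145.GH
open Pool.Agent.TH145.GC (Ev dF_sub dF_self ord_prod exists_minor)
open Pool.Agent.TH145.GD (Ti tv St sM sM_mem mon_step sM_zero sM_top single_mem deg_St finite_St)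
open Pool.Agent.TH145.GE Pool.Agent.W602.GT Pool.Agent.TH145.GF

namespace Pool.Agent.K9h33.BL

variable {K L : Type} [Field K] [Field L] [Algebra K L] [CharZero K] {n w : ℕ} {A : Type}
  {c0 : Fin (n + 1)} {F G : A → MvPolynomial (Fin (n + 1)) L} {dd cg eg : A → ℕ}
  {D : A → (Fin (n + 1) →₀ ℕ) → Derivation ℤ L L}

open scoped Classical in
/-- The order of the determinant at a scaled point. -/
theorem ord_det_localG (hF : ∀ a, (F a).IsHomogeneous (dd a)) (hD : FDual c0 F G eg D) [Fintype A]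
    (hw : 0 < w) (htr : Algebra.trdeg K L = w) {P : Place K L} (hP : Divisorial w P)
    (hS : ∀ a I, Sem K (D a I)) {t : Fin w → L} (ht : IsTranscendenceBasis K t)
    {E : Fin w → Derivation K L L} (hEt : ∀ i j, E i (t j) = if i = j then 1 else 0)
    (hFK : ∀ (δ : Derivation K L L) a u, δ ((F a).coeff u) = 0) {Dd : Fin w → Derivation K L L}
    (hM : (Matrix.of fun i j => Dd i (t j)).det ≠ 0)
    {x : Fin (n + 1) → L} (hx : ∀ l, Ge P 0 (x l)) {e1 : Fin (n + 1)} (he1 : x e1 = 1)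
    {b : Finset (Ix (Fin w) n A ⊕ A)} (hb : ∀ i ∈ Vert (Fin w) n A, i ∈ b) (σ : b → Fin (n + 1))
    (hcard : Module.finrank L (Full c0 eg D (vE E) x) = b.card)
    (hdet : (mx c0 eg D (vE E) x (fun a => Finsupp.single e1 (eg a)) b σ).det ≠ 0)
    (hFx : ∀ a, Sum.inr a ∉ b → eval x (F a) ≠ 0) (hGx : ∀ a, Sum.inr a ∉ b → eval x (G a) ≠ 0)
    (hE : ∀ i l, Ge P 0 (Dd i (x l)))
    (hEF : ∀ i a, Sum.inr a ∉ b → 0 < P.ord (eval x (F a)) - P.ord (eval x (G a)) →
      Ge P (P.ord (eval x (F a))) (Dd i (eval x (F a)))) :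
    (∑ a ∈ Finset.univ.filter (fun a => Sum.inr a ∉ b),
      (P.ord (eval x (F a)) - P.ord (eval x (G a)))) ≤
      P.ord (Matrix.of fun i j => Dd i (t j)).det +
        P.ord (mx c0 eg D (vE E) x (fun a => Finsupp.single e1 (eg a)) b σ).det := by
  obtain ⟨M, hMd⟩ : ∃ M : Matrix (Fin w) (Fin w) L, M = Matrix.of fun i j => Dd i (t j) := ⟨_, rfl⟩
  rw [← hMd] at hM ⊢
  have hDdE : ∀ i f, Dd i f = ∑ j, M i j * E j f := fun i f => by
    rw [der_comb ht hEt (Dd i) f, hMd]
    rfl
  have hMu : IsUnit M.det := isUnit_iff_ne_zero.2 hM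
  have hEDd : ∀ i f, E i f = ∑ j, M⁻¹ i j * Dd j f := fun i f => by
    have h1 : (fun j => Dd j f) = M.mulVec fun j => E j f := by
      funext j
      rw [hDdE]
      rfl
    have h3 : ∑ j, M⁻¹ i j * Dd j f = M⁻¹.mulVec (fun j => Dd j f) i := rfl
    rw [h3, h1, Matrix.mulVec_mulVec, Matrix.nonsing_inv_mul _ hMu, Matrix.one_mulVec]
  choose ξ hξ using fun a I => exists_lift hw htr hP (hS a I)
  obtain ⟨D', hD'⟩ : ∃ D' : A → (Fin (n + 1) →₀ ℕ) → Derivation ℤ L L, ∀ a I f,
    D' a I f = D a I f - ξ a I f :=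
    ⟨fun a I => D a I - (ξ a I).restrictScalars ℤ, fun a I f => by simp⟩
  have hPres : Pres P c0 eg D' := fun f hf a I _ => by
    rw [hD']
    exact hξ a I f hf
  have hD'E : ∀ a I f, D' a I f = D a I f + ∑ j, (-(ξ a I (t j))) * vE E j f := fun a I f => by
    rw [hD', der_comb ht hEt (ξ a I) f, sub_eq_add_neg, ← Finset.sum_neg_distrib]
    congr 1
    exact Finset.sum_congr rfl fun j _ => (neg_mul _ _).symm
  have h1 := det_add_vert (c0 := c0) (dg := eg) (D := D) (D' := D') (E := vE E)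
    (κ := fun a I j => -(ξ a I (t j))) hD'E (x := x) hb σ (fun a => Finsupp.single e1 (eg a))
  have h2 : (mx c0 eg D' (vE Dd) x (fun a => Finsupp.single e1 (eg a)) b σ).det =
      M.det * (mx c0 eg D' (vE E) x (fun a => Finsupp.single e1 (eg a)) b σ).det := by
    have := det_lin (c0 := c0) (dg := eg) (D := D') (E := vE E) (E' := vE Dd) (M := M)
      (fun i f => hDdE i f) x hb σ (fun a => Finsupp.single e1 (eg a))
    exact (det_dec _ _ _).trans (this.trans (congrArg₂ (· * ·) (det_dec _ _ _) (det_dec _ _ _)))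
  rw [h1] at h2
  have hEv : ∀ (D1 D2 : A → (Fin (n + 1) →₀ ℕ) → Derivation ℤ L L)
      (c : A → (Fin (n + 1) →₀ ℕ) → Fin w → L) (E1 : Fin w → Derivation K L L),
      (∀ a I f, D1 a I f = D2 a I f + ∑ j, c a I j * E1 j f) → ∀ a I,
      Ev D1 x a I = Ev D2 x a I + ∑ j, c a I j • ev (vE E1 j) x := by
    intro D1 D2 c E1 h a I
    funext l
    rw [Pi.add_apply, Finset.sum_apply]
    exact h a I (x l)
  have hev : ∀ (E1 E2 : Fin w → Derivation K L L) (M : Matrix (Fin w) (Fin w) L),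
      (∀ i f, E1 i f = ∑ j, M i j * E2 j f) → ∀ i, ev (vE E1 i) x = ∑ j, M i j • ev (vE E2 j) x := by
    intro E1 E2 M h i
    funext l
    rw [Finset.sum_apply]
    exact h i (x l)
  have hfull : Full c0 eg D' (vE Dd) x = Full c0 eg D (vE E) x := by
    apply le_antisymm
    · refine full_le_gen (fun a I hI => ?_) fun i => ?_
      · rw [hEv D' D (fun a I j => -(ξ a I (t j))) E hD'E]
        exact add_mem (Ev_mem_full x hI) (sum_mem fun j _ => Submodule.smul_mem _ _
          (wv_mem_full x (some (Sum.inl j))))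
      · rw [hev Dd E M hDdE]
        exact sum_mem fun j _ => Submodule.smul_mem _ _ (wv_mem_full x (some (Sum.inl j)))
    · have h3 : ∀ i, ev (vE E i) x ∈ Full c0 eg D' (vE Dd) x := fun i => by
        rw [hev E Dd M⁻¹ hEDd]
        exact sum_mem fun j _ => Submodule.smul_mem _ _ (wv_mem_full x (some (Sum.inl j)))
      refine full_le_gen (fun a I hI => ?_) h3
      rw [hEv D D' (fun a I j => ξ a I (t j)) E (fun a I f => by
        rw [hD', ← der_comb ht hEt (ξ a I) f]
        ring)]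
      exact add_mem (Ev_mem_full x hI) (sum_mem fun j _ => Submodule.smul_mem _ _ (h3 j))
  have hDual : FDual c0 F G eg D' := by
    intro a c I hI z
    have h4 := hD a c I hI z
    have h5 : Ev D' z a I = Ev D z a I - ev ((ξ a I).restrictScalars ℤ) z := by
      funext l
      exact hD' a I (z l)
    rw [h5, dF_sub, h4, dF_ev (fun v => hFK (ξ a I) c v), hD']
    change _ - ξ a I (eval z (F c)) = _
    ring
  have hdet' : (mx c0 eg D' (vE Dd) x (fun a => Finsupp.single e1 (eg a)) b σ).det ≠ 0 := by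
    rw [h2]
    exact mul_ne_zero hM hdet
  have h4 := ord_detG hF hDual hPres hx he1 (E := vE Dd) σ (by rw [hfull, hcard]) hdet' hFx hGx
    (fun i l => hE i l) (fun i a ha hpos => by
      rw [dF_ev (fun v => hFK (Dd i) a v)]
      exact hEF i a ha hpos)
  rw [h2, P.ord_mul hM hdet] at h4
  exact h4

open scoped Classical in
/-- The order of the form at a divisorial place. -/
theorem ord_formG (hF : ∀ a, (F a).IsHomogeneous (dd a)) (hGh : ∀ a, (G a).IsHomogeneous (cg a))
    (hdd : ∀ a, dd a = cg a + eg a) (hD : FDual c0 F G eg D) [Fintype A]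
    (hw : 0 < w) (htr : Algebra.trdeg K L = w) {P : Place K L} (hP : Divisorial w P)
    (hS : ∀ a I, Sem K (D a I)) {t : Fin w → L} (ht : IsTranscendenceBasis K t)
    {E : Fin w → Derivation K L L} (hEt : ∀ i j, E i (t j) = if i = j then 1 else 0)
    (hFK : ∀ (δ : Derivation K L L) a u, δ ((F a).coeff u) = 0)
    (hGK : ∀ a u, ∃ c : K, (G a).coeff u = algebraMap K L c) {Dd : Fin w → Derivation K L L}
    (hM : (Matrix.of fun i j => Dd i (t j)).det ≠ 0)
    {x : Fin (n + 1) → L} (he0 : x c0 ≠ 0)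
    {b : Finset (Ix (Fin w) n A ⊕ A)} (hb : ∀ i ∈ Vert (Fin w) n A, i ∈ b) (σ : b → Fin (n + 1))
    (hspan : Submodule.span L (Set.range (wv c0 eg D (vE E) x)) ≤
        Submodule.span L (wv c0 eg D (vE E) x '' {o | Sum.inl o ∈ b}))
    (hcard : Module.finrank L (Full c0 eg D (vE E) x) = b.card)
    (hdet : (mx c0 eg D (vE E) x (fun a => Finsupp.single c0 (eg a)) b σ).det ≠ 0)
    (hFx : ∀ a, Sum.inr a ∉ b → eval x (F a) ≠ 0) (hGx : ∀ a, Sum.inr a ∉ b → eval x (G a) ≠ 0)
    (hDd : ((∀ i, DerReg P (Dd i)) ∧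
      ∀ a, Sum.inr a ∉ b → P.ord (eval x (F a)) ≤ dd a * pord P x) ∨ ∀ i, DerLog P (Dd i)) :
    ((∑ i ∈ b, rd i : ℕ) - (∑ a, eg a : ℕ)) * pord P x ≤
      P.ord (Matrix.of fun i j => Dd i (t j)).det +
      P.ord ((mx c0 eg D (vE E) x (fun a => Finsupp.single c0 (eg a)) b σ).det /
        ∏ a, if Sum.inr a ∈ b then x c0 ^ eg a else eval x (F a) / eval x (G a)) := by
  have hx0 : x ≠ 0 := by
    rintro rfl
    exact he0 rfl
  obtain ⟨lam, x', hlam, hlamP, hxx, hx', e1, he1⟩ := exists_scaled P hx0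
  have hdeg : ∀ a, Finsupp.single e1 (eg a) ∈ St c0 (eg a) := fun a => single_mem _
  have hF1 : ∀ a, eval x (F a) = lam ^ dd a * eval x' (F a) := fun a => by
    rw [hxx, eval_smul_hom (hF a)]
  have hG1 : ∀ a, eval x (G a) = lam ^ cg a * eval x' (G a) := fun a => by
    rw [hxx, eval_smul_hom (hGh a)]
  have hlp : ∀ m : ℕ, lam ^ m ≠ 0 := fun m => pow_ne_zero _ hlam
  have hF' : ∀ a, Sum.inr a ∉ b → eval x' (F a) ≠ 0 := fun a ha h0 => by
    apply hFx a ha
    rw [hF1, h0, mul_zero]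
  have hG' : ∀ a, Sum.inr a ∉ b → eval x' (G a) ≠ 0 := fun a ha h0 => by
    apply hGx a ha
    rw [hG1, h0, mul_zero]
  have hq1 : ∀ a, eval x (F a) / eval x (G a) =
      lam ^ eg a * (eval x' (F a) / eval x' (G a)) := fun a => by
    rw [hF1, hG1, hdd, pow_add]
    have := hlp (cg a)
    rw [mul_assoc, mul_div_mul_left _ _ this, mul_div_assoc]
  obtain ⟨dx, hdx⟩ : ∃ dx, dx = (mx c0 eg D (vE E) x (fun a => Finsupp.single c0 (eg a)) b σ).det :=
    ⟨_, rfl⟩
  obtain ⟨dx', hdx'⟩ : ∃ dx', dx' = (mx c0 eg D (vE E) x' (fun a => Finsupp.single e1 (eg a)) b σ).det :=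
    ⟨_, rfl⟩
  have h1 := det_change he0 σ hspan (fun a => Finsupp.single e1 (eg a)) hdeg
  have h2 := det_lam (c0 := c0) (dg := eg) (D := D) (E := vE E) (x := x') lam (hb _ (Or.inl rfl)) σ
    (fun a => Finsupp.single e1 (eg a))
  rw [← hxx, ← hdx'] at h2
  rw [← hdx, h2] at h1
  have hmon : ∀ a, mon x (Finsupp.single e1 (eg a)) = lam ^ eg a := fun a => by
    rw [mon_single, hxx, Pi.smul_apply, he1, smul_eq_mul, mul_one]
  simp only [hmon] at h1
  rw [← hdx] at hdet ⊢
  obtain ⟨Z, hZ⟩ : ∃ Z, Z = ∏ a, if Sum.inr a ∈ b then x c0 ^ eg a else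
    eval x (F a) / eval x (G a) := ⟨_, rfl⟩
  have hZ0 : Z ≠ 0 := by
    rw [hZ]
    refine Finset.prod_ne_zero_iff.2 fun a _ => ?_
    split_ifs with ha
    · exact pow_ne_zero _ he0
    · exact div_ne_zero (hFx a ha) (hGx a ha)
  rw [← hZ]
  -- the main identity
  obtain ⟨Y, hY⟩ : ∃ Y, Y = ∏ a ∈ Finset.univ.filter (fun a => Sum.inr a ∉ b),
      (eval x' (F a) / eval x' (G a)) := ⟨_, rfl⟩
  have hq' : ∀ a, Sum.inr a ∉ b → eval x' (F a) / eval x' (G a) ≠ 0 := fun a ha =>
    div_ne_zero (hF' a ha) (hG' a ha)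
  have hY0 : Y ≠ 0 := by
    rw [hY]
    exact Finset.prod_ne_zero_iff.2 fun a ha => hq' a (Finset.mem_filter.1 ha).2
  have h3 : (∏ a, if Sum.inr a ∈ b then lam ^ eg a / x c0 ^ eg a else 1) * Z =
      lam ^ (∑ a, eg a) * Y := by
    rw [hZ, hY, ← Finset.prod_pow_eq_pow_sum, Finset.prod_filter, ← Finset.prod_mul_distrib,
      ← Finset.prod_mul_distrib]
    refine Finset.prod_congr rfl fun a _ => ?_
    by_cases ha : Sum.inr a ∈ b
    · simp only [ha, if_true, not_true_eq_false, if_false, mul_one]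
      rw [div_mul_cancel₀ _ (pow_ne_zero _ he0)]
    · simp only [ha, if_false, not_false_eq_true, if_true, one_mul]
      exact hq1 a
  have h4 : lam ^ (∑ i ∈ b, rd i) * dx' = dx / Z * (lam ^ (∑ a, eg a) * Y) := by
    rw [h1, ← h3]
    field_simp
  have hq0 : dx / Z ≠ 0 := div_ne_zero hdet hZ0
  have hdx'0 : dx' ≠ 0 := by
    intro h0
    rw [h0, mul_zero] at h4
    exact mul_ne_zero hq0 (mul_ne_zero (hlp _) hY0) h4.symm
  have h5 := congrArg P.ord h4
  rw [P.ord_mul (hlp _) hdx'0, P.ord_mul hq0 (mul_ne_zero (hlp _) hY0),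
    P.ord_mul (hlp _) hY0, P.ord_pow, P.ord_pow, hlamP] at h5
  have h6 : P.ord Y = ∑ a ∈ Finset.univ.filter (fun a => Sum.inr a ∉ b),
      (P.ord (eval x' (F a)) - P.ord (eval x' (G a))) := by
    rw [hY, ord_prod P _ _ fun a ha => hq' a (Finset.mem_filter.1 ha).2]
    refine Finset.sum_congr rfl fun a ha => ?_
    have := (Finset.mem_filter.1 ha).2
    rw [P.ord_div (hF' a this) (hG' a this)]
  have h8 : ∀ a, Sum.inr a ∉ b → P.ord (eval x (F a)) - dd a * pord P x =
      P.ord (eval x' (F a)) := by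
    intro a ha
    rw [hF1, P.ord_mul (hlp _) (hF' a ha), P.ord_pow, hlamP]
    ring
  have hGr : ∀ a, Ge P 0 (eval x' (G a)) := by
    intro a
    rw [eval_eq']
    refine Ge.sum _ _ fun u _ => ?_
    obtain ⟨c, hc⟩ := hGK a u
    rw [hc]
    have h9 : Ge P 0 (∏ i, x' i ^ u i) := by
      refine Finset.prod_induction _ (Ge P 0) (fun a b ha hb => by
        have := ha.mul hb
        rwa [add_zero] at this) Ge.one fun i _ => ?_
      have h10 : ∀ m : ℕ, Ge P 0 (x' i ^ m) := by
        intro m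
        induction m with
        | zero => rw [pow_zero]; exact Ge.one
        | succ m ih =>
          rw [pow_succ]
          have := ih.mul (hx' i)
          rwa [add_zero] at this
      exact h10 _
    have := (Ge.const (P := P) c).mul h9
    rwa [add_zero] at this
  have h7 := ord_det_localG hF hD hw htr hP hS ht hEt hFK hM hx' he1 hb σ (by
    rw [← hcard, hxx, full_scale_eq x' hlam]) (by rw [← hdx']; exact hdx'0) hF' hG'
    (fun i l => by
      rcases hDd with ⟨hreg, -⟩ | hlog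
      · exact hreg i _ (hx' l)
      · by_cases hl : x' l = 0
        · rw [hl, map_zero]
          exact Ge.zero
        · exact (ge_log (hlog i) (x' l)).mono ((hx' l).resolve_left hl))
    (fun i a ha hpos => by
      rcases hDd with ⟨-, hle⟩ | hlog
      · exfalso
        have h9 := hle a ha
        have h10 := h8 a ha
        have h11 := (hGr a).resolve_left (hG' a ha)
        linarith
      · exact ge_log (hlog i) _)
  rw [← hdx', ← h6] at h7
  rw [sub_mul]
  linarith

end Pool.Agent.K9h33.BL
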