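import Pool.Agent.K9h33.BL.LForm

/-!
Subvarieties of pairs, outside of the base locus, are of log general type.
-/

set_option autoImplicit false
set_option linter.unusedSectionVars false
set_option linter.unusedVariables false
set_option linter.unusedSimpArgs false

open MvPolynomial FF Pool.Agent.W603.LV Pool.Agent.W603.PV Pool.Agent.TH145.GH
open Pool.Agent.TH145.GC (Ev dF_sub dF_self ord_prod exists_minor Rt Cf finite_cf Tan
  der_zero_of_alg)
open Pool.Agent.TH145.GD (Ti tv St sM sM_mem mon_step sM_zero sM_top single_mem deg_St finite_St)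
open Pool.Agent.W602.GT Pool.Agent.TH145.MG Pool.Agent.TH145.GE Pool.Agent.TH145.GF

namespace Pool.Agent.K9h33.BL

open scoped Classical in
/-- Subvarieties of pairs, outside of the base locus, are of log general type. -/
theorem gt_logG {k0 K L : Type} [Field k0] [Field K] [Field L] [Algebra k0 K] [Algebra K L]
    [IsAlgClosed K] [CharZero K] {n m w : ℕ} {A : Type} [Fintype A] {eg : A → ℕ}
    (V : Set (MvPolynomial (Fin (n + 1)) k0)) (hVh : ∀ f ∈ V, ∃ e, f.IsHomogeneous e)
    (hV : DimLE k0 V m)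
    (R G : A → MvPolynomial (Fin (n + 1)) k0) {cg dd : A → ℕ}
    (hRh : ∀ a, (R a).IsHomogeneous (dd a)) (hGh : ∀ a, (G a).IsHomogeneous (cg a))
    (hdd : ∀ a, dd a = cg a + eg a)
    (H : A → MvPolynomial (Fin (n + 1)) K) (hH : ∀ a, (H a).IsHomogeneous (eg a))
    (hind : AlgebraicIndependent k0 fun p : Cf n eg => (H p.1).coeff p.2.1)
    (Cs : Finset A) (hw : 0 < w) (hd : 2 * m + 2 ≤ ∑ a, eg a + Cs.card + w)
    (htr : Algebra.trdeg K L = w) (x : Fin (n + 1) → L) (hx0 : x ≠ 0)
    (hgen : Algebra.IsAlgebraic (coords K x) L)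
    (hxV : ∀ f ∈ V, aeval x (map (algebraMap k0 K) f) = 0)
    (hxF : ∀ a ∈ Cs, aeval x (map (algebraMap k0 K) (R a) + map (algebraMap k0 K) (G a) * H a) = 0)
    (hxn : ∀ a, a ∉ Cs →
      aeval x (map (algebraMap k0 K) (R a) + map (algebraMap k0 K) (G a) * H a) ≠ 0)
    (hxG : ∀ a, aeval x (map (algebraMap k0 K) (G a)) ≠ 0) :
    LogGeneralType K L w fun Q : Place K L => ∃ a, a ∉ Cs ∧ dd a * pord Q x <
      Q.ord (aeval x (map (algebraMap k0 K) (R a) + map (algebraMap k0 K) (G a) * H a)) := by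
  let _ : Algebra k0 L := ((algebraMap K L).comp (algebraMap k0 K)).toAlgebra
  have hst : IsScalarTower k0 K L := IsScalarTower.of_algebraMap_eq fun _ => rfl
  have hL : CharZero L := charZero_of_injective_algebraMap (algebraMap K L).injective
  obtain ⟨c0, hc0⟩ := Function.ne_iff.1 hx0
  have hc0 : x c0 ≠ 0 := hc0
  obtain ⟨x', hx'⟩ : ∃ x' : Fin (n + 1) → L, x' = fun j => (x c0)⁻¹ * x j := ⟨_, rfl⟩
  have hcx : (x c0)⁻¹ ≠ 0 := inv_ne_zero hc0
  have hx1 : x' c0 = 1 := by
    rw [hx']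
    exact inv_mul_cancel₀ hc0
  have hxx : x' = (x c0)⁻¹ • x := by rw [hx']; rfl
  have hx00 : x' ≠ 0 := by
    rintro h
    rw [h] at hx1
    exact zero_ne_one hx1
  have hco : coords K x' = coords K x := by
    unfold coords
    congr 1
    ext z
    constructor
    · rintro ⟨i, j, hj, rfl⟩
      refine ⟨i, j, fun h => hj (by rw [hx']; simp [h]), ?_⟩
      rw [hx']
      field_simp
    · rintro ⟨i, j, hj, rfl⟩
      refine ⟨i, j, ?_, ?_⟩
      · rw [hx']; exact mul_ne_zero hcx hj
      · rw [hx']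
        field_simp
  obtain ⟨l, hl⟩ := exists_coord_basis htr (by rw [hco]; exact hgen)
  obtain ⟨t, ht⟩ : ∃ t : Fin w → L, ∀ i, t i = x' (l i) := ⟨_, fun _ => rfl⟩
  have htb : IsTranscendenceBasis K t := by
    have : t = fun i => x' (l i) := funext ht
    rw [this]
    exact hl
  -- the forms
  obtain ⟨D, hD, hDS, hDk⟩ := exists_dualGT htb hH hind c0
  obtain ⟨H', hH'⟩ : ∃ H' : A → MvPolynomial (Fin (n + 1)) L, H' = fun a =>
    map (algebraMap K L) (H a) := ⟨_, rfl⟩
  rw [← hH'] at hD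
  have hHh : ∀ a, (H' a).IsHomogeneous (eg a) := fun a => by
    rw [hH']
    exact (hH a).map _
  have hHK : ∀ (δ : Derivation K L L) a u, δ ((H' a).coeff u) = 0 := fun δ a u => by
    rw [hH', coeff_map]
    exact δ.map_algebraMap _
  have hδ0 : ∀ (δ : Derivation K L L) (r : k0), δ (algebraMap k0 L r) = 0 := by
    intro δ r
    rw [IsScalarTower.algebraMap_apply k0 K L]
    exact δ.map_algebraMap _
  have hVx : ∀ f ∈ V, aeval x' f = 0 := by
    intro f hf
    have h3 : aeval x f = 0 := by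
      have h4 := hxV f hf
      rw [aeval_map_algebraMap] at h4
      exact h4
    obtain ⟨e, he⟩ := hVh f hf
    rw [hxx, Pool.Agent.TH145.MG.aeval_smul he, h3, mul_zero]
  obtain ⟨R', hR'⟩ : ∃ R' : A → MvPolynomial (Fin (n + 1)) L, R' = fun a =>
    map (algebraMap k0 L) (R a) := ⟨_, rfl⟩
  obtain ⟨G', hG'⟩ : ∃ G' : A → MvPolynomial (Fin (n + 1)) L, G' = fun a =>
    map (algebraMap k0 L) (G a) := ⟨_, rfl⟩
  have hDR : ∀ a I b u, D a I ((R' b).coeff u) = 0 := fun a I b u => by
    rw [hR', coeff_map]; exact hDk a I _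
  have hDG : ∀ a I b u, D a I ((G' b).coeff u) = 0 := fun a I b u => by
    rw [hG', coeff_map]; exact hDk a I _
  have hhom : ∀ a, (R' a + G' a * H' a).IsHomogeneous (dd a) := fun a => by
    rw [hR', hG']
    refine ((hRh a).map _).add ?_
    rw [hdd]
    exact ((hGh a).map _).mul (hHh a)
  have hG2 : ∀ a, eval x' (G' a) = (x c0)⁻¹ ^ cg a * aeval x (G a) := fun a => by
    rw [hG', eval_map]
    change aeval x' (G a) = _
    rw [hxx, Pool.Agent.TH145.MG.aeval_smul (hGh a)]
  have hF2 : ∀ a, eval x' (R' a + G' a * H' a) = (x c0)⁻¹ ^ dd a *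
      aeval x (map (algebraMap k0 K) (R a) + map (algebraMap k0 K) (G a) * H a) := fun a => by
    have h1 : eval x' (R' a) = (x c0)⁻¹ ^ dd a * aeval x (R a) := by
      rw [hR', eval_map]
      change aeval x' (R a) = _
      rw [hxx, Pool.Agent.TH145.MG.aeval_smul (hRh a)]
    have h4 : eval x' (H' a) = (x c0)⁻¹ ^ eg a * aeval x (H a) := by
      rw [hxx, eval_smul_hom (hHh a), hH']
      congr 1
      rw [eval_map]
      rfl
    rw [map_add (aeval x), map_mul (aeval x), aeval_map_algebraMap, aeval_map_algebraMap,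
      map_add, map_mul, h1, hG2, h4, hdd, pow_add]
    ring
  have hxF' : ∀ a ∈ Cs, eval x' (R' a + G' a * H' a) = 0 := fun a ha => by
    rw [hF2, hxF a ha, mul_zero]
  have hxn' : ∀ a, a ∉ Cs → eval x' (R' a + G' a * H' a) ≠ 0 := fun a ha => by
    rw [hF2]
    exact mul_ne_zero (pow_ne_zero _ hcx) (hxn a ha)
  have hxG' : ∀ a, eval x' (G' a) ≠ 0 := fun a => by
    rw [hG2]
    have h3 := hxG a
    rw [aeval_map_algebraMap] at h3
    exact mul_ne_zero (pow_ne_zero _ hcx) h3
  -- the vertical derivations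
  obtain ⟨E, hE⟩ : ∃ E : Fin w → Derivation K L L, ∀ i j, E i (t j) = if i = j then 1 else 0 := by
    obtain ⟨E, hE⟩ := exists_dual htb
    refine ⟨E, fun i j => ?_⟩
    have := congrFun (congrFun hE i) j
    rw [Matrix.of_apply, Matrix.one_apply] at this
    rw [this]
  have hrk : Module.finrank L (Full c0 eg D (vE E) x') ≤ m + 1 := by
    refine le_trans (Submodule.finrank_mono (full_le_tan (k0 := k0) hDk ?_ x'))
      (tan_rank hx1 (hV L x' hx00 hVx))
    intro i r
    exact hδ0 (E i) r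
  have hindep : LinearIndepOn L (vv c0 eg D (vE E) x' fun a => Finsupp.single c0 (eg a))
      (Vert (Fin w) n A) := by
    obtain ⟨f, hf⟩ : ∃ f : Option (Fin w) → Ix (Fin w) n A ⊕ A, ∀ o, f o =
      o.elim (Sum.inl none) fun i => Sum.inl (some (Sum.inl i)) := ⟨_, fun _ => rfl⟩
    have h1 : Vert (Fin w) n A = f '' Set.univ := by
      ext i
      constructor
      · rintro (rfl | ⟨i, rfl⟩)
        · exact ⟨none, trivial, by rw [hf]; rfl⟩
        · exact ⟨some i, trivial, by rw [hf]; rfl⟩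
      · rintro ⟨(_ | i), -, rfl⟩
        · rw [hf]; exact Or.inl rfl
        · rw [hf]; exact Or.inr ⟨i, rfl⟩
    rw [h1]
    refine LinearIndepOn.image_of_comp _ _ ?_
    rw [linearIndepOn_univ_iff, Fintype.linearIndependent_iff]
    intro r hr
    have h2 : ∀ q, r none * x' q + ∑ i, r (some i) * E i (x' q) = 0 := by
      intro q
      have h3 := congrFun hr q
      rw [Fintype.sum_option, Pi.add_apply, Finset.sum_apply] at h3
      simp only [Function.comp_apply, hf, Option.elim, Pi.smul_apply, smul_eq_mul,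
        Pi.zero_apply] at h3
      exact h3
    have h3 : r none = 0 := by
      have h4 := h2 c0
      rw [hx1, mul_one, Finset.sum_eq_zero fun i _ => by
        rw [(E i).map_one_eq_zero, mul_zero], add_zero] at h4
      exact h4
    rintro (_ | j)
    · exact h3
    · have h4 := h2 (l j)
      rw [h3, zero_mul, zero_add, ← ht, Finset.sum_eq_single j] at h4
      · rwa [hE, if_pos rfl, mul_one] at h4
      · intro i _ hi
        rw [hE, if_neg hi, mul_zero]
      · intro h; exact absurd (Finset.mem_univ _) h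
  have hx0' : x' c0 ≠ 0 := by rw [hx1]; exact one_ne_zero
  obtain ⟨Φ, hΦ⟩ : ∃ Φ : (Fin (n + 1) → L) →ₗ[L] (Cs → L), ∀ z (c : Cs),
      Φ z c = dF (R' c + G' c * H' c) x' z := by
    exact ⟨{ toFun := fun z c => dF (R' c + G' c * H' c) x' z
             map_add' := fun y z => funext fun c => dF_add _ _ _ _
             map_smul' := fun r z => funext fun c => dF_smul _ _ _ _ }, fun _ _ => rfl⟩
  have hδF : ∀ (δ : Derivation K L L) c u, δ ((R' c + G' c * H' c).coeff u) = 0 := by
    intro δ c u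
    have h1 : ∀ u, δ ((R' c).coeff u) = 0 := fun u => by rw [hR', coeff_map]; exact hδ0 δ _
    have h2 : ∀ u, δ ((G' c).coeff u) = 0 := fun u => by rw [hG', coeff_map]; exact hδ0 δ _
    rw [coeff_add, map_add, h1, zero_add, coeff_mul, map_sum]
    refine Finset.sum_eq_zero fun p _ => ?_
    rw [δ.leibniz, h2, hHK, smul_zero, smul_zero, add_zero]
  have hFD : FDual c0 (fun a => R' a + G' a * H' a) G' eg D := by
    intro a b I hI z
    rw [dF_EvV hD hDR hDG z hI]
    split_ifs
    · rfl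
    · rw [mul_zero]
  obtain ⟨b, hbV, hbC, hbi, hspan, hcard⟩ := exists_rowsC (E := vE E) (dg := eg) (D := D)
    (C := Cs) hx0' Φ
    (fun o => by
      funext c
      rw [hΦ, Pi.zero_apply]
      rcases o with _ | ξ | t
      · simp only [wv]
        rw [dF_self (hhom c), hxF' c c.2, mul_zero]
      · simp only [wv]
        rw [dF_ev (fun u => hδF (E ξ) c u), hxF' c c.2, map_zero]
      · simp only [wv]
        exact dF_tvV hD hDR hDG x' c (hxF' c c.2) t)
    (g := fun c => -(eval x' (G' c) * x' c0 ^ eg c))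
    (fun c _ => neg_ne_zero.2 (mul_ne_zero (hxG' c) (pow_ne_zero _ hx0')))
    (fun a _ c => by
      rw [hΦ, dF_EvV hD hDR hDG x' (single_mem _), hxF' c c.2, map_zero, mon_single]
      by_cases h : a = c
      · subst h
        rw [if_pos rfl, if_pos rfl]
        ring
      · rw [if_neg h, if_neg h]
        ring) hindep
  obtain ⟨σ, hσ⟩ := exists_minor _ hbi
  have hdet : (mx c0 eg D (vE E) x' (fun a => Finsupp.single c0 (eg a)) b σ).det ≠ 0 := by
    rw [Ne, det_dec _ _ (mx c0 eg D (vE E) x' (fun a => Finsupp.single c0 (eg a)) b σ)]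
    exact hσ
  have hGb : ∀ a, Sum.inr a ∉ b → a ∉ Cs := fun a ha hac => ha (hbC a hac)
  have hrd : ∑ i ∈ b, rd i + Cs.card + w + 1 ≤ 2 * b.card := by
    obtain ⟨b', hb'⟩ : ∃ b' : Finset (Ix (Fin w) n A ⊕ A), b' = insert (Sum.inl none)
      ((Finset.univ.image fun i : Fin w => Sum.inl (some (Sum.inl i))) ∪
        Cs.image Sum.inr) := ⟨_, rfl⟩
    have h1 : b' ⊆ b := by
      rw [hb']
      intro i hi
      rcases Finset.mem_insert.1 hi with rfl | hi
      · exact hbV _ (Or.inl rfl)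
      rcases Finset.mem_union.1 hi with hi | hi
      · obtain ⟨j, -, rfl⟩ := Finset.mem_image.1 hi
        exact hbV _ (Or.inr ⟨j, rfl⟩)
      · obtain ⟨a, ha, rfl⟩ := Finset.mem_image.1 hi
        exact hbC a ha
    have h2 : b'.card = Cs.card + w + 1 := by
      rw [hb', Finset.card_insert_of_notMem, Finset.card_union_of_disjoint,
        Finset.card_image_of_injective, Finset.card_image_of_injective _ Sum.inr_injective,
        Finset.card_univ, Fintype.card_fin]
      · ring
      · intro i j hij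
        simpa using hij
      · rw [Finset.disjoint_left]
        intro i hi hi'
        obtain ⟨j, -, rfl⟩ := Finset.mem_image.1 hi
        obtain ⟨a, -, ha⟩ := Finset.mem_image.1 hi'
        exact absurd ha (by simp)
      · intro h
        rcases Finset.mem_union.1 h with hi | hi
        · obtain ⟨j, -, hj⟩ := Finset.mem_image.1 hi
          simp at hj
        · obtain ⟨a, -, ha⟩ := Finset.mem_image.1 hi
          exact absurd ha (by simp)
    have h3 : ∑ i ∈ b', rd i = b'.card := by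
      rw [Finset.card_eq_sum_ones]
      refine Finset.sum_congr rfl fun i hi => ?_
      rw [hb'] at hi
      rcases Finset.mem_insert.1 hi with rfl | hi
      · rfl
      rcases Finset.mem_union.1 hi with hi | hi
      · obtain ⟨j, -, rfl⟩ := Finset.mem_image.1 hi
        rfl
      · obtain ⟨a, ha, rfl⟩ := Finset.mem_image.1 hi
        rfl
    have h4 : ∑ i ∈ b \ b', rd i ≤ 2 * (b \ b').card := by
      rw [mul_comm, ← smul_eq_mul, ← Finset.sum_const]
      refine Finset.sum_le_sum fun i _ => ?_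
      rcases i with (_ | _ | _) | _
      · exact one_le_two
      · exact one_le_two
      · exact le_rfl
      · exact one_le_two
    have h5 := Finset.sum_sdiff (f := fun i => rd i) h1
    have h6 := Finset.card_sdiff_add_card_eq_card h1
    omega
  have hs1 : ∑ i ∈ b, rd i + 1 ≤ ∑ a, eg a := by
    have h1 : b.card ≤ m + 1 := by rw [← hcard]; exact hrk
    omega
  -- the forms
  obtain ⟨Z, hZ⟩ : ∃ Z, Z = ∏ a, if Sum.inr a ∈ b then x' c0 ^ eg a else
    eval x' (R' a + G' a * H' a) / eval x' (G' a) := ⟨_, rfl⟩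
  have hZ0 : Z ≠ 0 := by
    rw [hZ]
    refine Finset.prod_ne_zero_iff.2 fun a _ => ?_
    split_ifs with ha
    · exact pow_ne_zero _ hx0'
    · exact div_ne_zero (hxn' a (hGb a ha)) (hxG' a)
  obtain ⟨lj, hlj⟩ : ∃ lj : Fin (w + 1) → Fin (n + 1), lj = Fin.cons c0 l := ⟨_, rfl⟩
  obtain ⟨ω, hω⟩ : ∃ ω : Fin (w + 1) → (Fin w → Derivation K L L) → L, ∀ j Dd, ω j Dd =
    (mx c0 eg D (vE Dd) x' (fun a => Finsupp.single c0 (eg a)) b σ).det / Z * x' (lj j) :=
    ⟨_, fun _ _ => rfl⟩
  have hlin : ∀ (M : Matrix (Fin w) (Fin w) L) (D1 D2 : Fin w → Derivation K L L),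
      (∀ i f, D1 i f = ∑ j, M i j * D2 j f) → ∀ j, ω j D1 = M.det * ω j D2 := by
    intro M D1 D2 h j
    have h1 := det_lin (c0 := c0) (dg := eg) (D := D) (E := vE D2) (E' := vE D1) (M := M)
      h x' hbV σ (fun a => Finsupp.single c0 (eg a))
    have h2 : (mx c0 eg D (vE D1) x' (fun a => Finsupp.single c0 (eg a)) b σ).det =
        M.det * (mx c0 eg D (vE D2) x' (fun a => Finsupp.single c0 (eg a)) b σ).det := by
      exact (det_dec _ _ _).trans (h1.trans (congrArg₂ (· * ·) (det_dec _ _ _) (det_dec _ _ _)))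
    rw [hω, hω, h2]
    ring
  have hωE : ω 0 E ≠ 0 := by
    rw [hω, hlj, Fin.cons_zero, hx1, mul_one]
    exact div_ne_zero hdet hZ0
  -- the regularity
  have hreg : ∀ (Q : Place K L), Divisorial w Q → ∀ (Dd : Fin w → Derivation K L L),
      (((∀ i, DerReg Q (Dd i)) ∧
        ∀ a, Sum.inr a ∉ b → Q.ord (eval x' (R' a + G' a * H' a)) ≤ dd a * pord Q x') ∨
          ∀ i, DerLog Q (Dd i)) →
      ∀ j, Q.Reg (ω j Dd) := by
    intro Q hQ Dd hDd j
    obtain ⟨M, hM⟩ : ∃ M : Matrix (Fin w) (Fin w) L, M = Matrix.of fun i j => Dd i (t j) := ⟨_, rfl⟩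
    have hωM := hlin M Dd E (fun i f => by
      rw [der_comb htb hE (Dd i) f, hM]
      rfl) j
    by_cases hM0 : M.det = 0
    · rw [hωM, hM0, zero_mul]
      exact Q.reg_zero
    by_cases hxj : x' (lj j) = 0
    · rw [hω, hxj, mul_zero]
      exact Q.reg_zero
    have h1 := ord_formG (F := fun a => R' a + G' a * H' a) (G := G') (cg := cg) hhom
      (fun a => by rw [hG']; exact (hGh a).map _) hdd hFD hw htr hQ hDS htb hE hδF
      (fun a u => ⟨algebraMap k0 K ((G a).coeff u), by
        rw [hG', coeff_map, IsScalarTower.algebraMap_apply k0 K L]⟩) (Dd := Dd) (by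
      have h2 := hM0
      rw [hM] at h2
      rw [Ne, det_dec _ _ (Matrix.of fun i j => Dd i (t j))]
      exact h2) hx0' hbV σ hspan hcard hdet (fun a ha => hxn' a (hGb a ha)) (fun a _ => hxG' a) hDd
    rw [← hZ] at h1
    have h2 : Q.ord (Matrix.of fun i j => Dd i (t j)).det = Q.ord M.det := by
      congr 1
      rw [hM]
    have hdz : (mx c0 eg D (vE E) x' (fun a => Finsupp.single c0 (eg a)) b σ).det / Z ≠ 0 :=
      div_ne_zero hdet hZ0
    right
    rw [hωM, hω, Q.ord_mul hM0 (mul_ne_zero hdz hxj), Q.ord_mul hdz hxj]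
    have h3 : pord Q x' ≤ Q.ord (x' (lj j)) := pord_le Q hxj
    have h4 : pord Q x' ≤ 0 := by
      have := pord_le Q (f := x') hx0'
      rwa [hx1, Q.ord_one] at this
    have h5 : ((∑ i ∈ b, rd i : ℕ) : ℤ) + 1 ≤ (∑ a, eg a : ℕ) := by exact_mod_cast hs1
    have h6 : 0 ≤ (((∑ i ∈ b, rd i : ℕ) : ℤ) + 1 - (∑ a, eg a : ℕ)) * pord Q x' :=
      mul_nonneg_of_nonpos_of_nonpos (by linarith) h4
    have h7 : Q.ord (Matrix.of fun i j => Dd i (t j)).det = Q.ord M.det := h2
    nlinarith
  refine ⟨htr, 1, one_pos, ω, fun j M Dd => ?_, fun Q hQ j Dd hDd => ?_,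
    fun Q hQ hB j Dd hDd => ?_, E, hωE, ?_⟩
  · rw [pow_one]
    refine hlin M _ Dd (fun i f => ?_) j
    rw [← Derivation.coeFnAddMonoidHom_apply, map_sum, Finset.sum_apply]
    rfl
  · exact hreg Q hQ Dd (Or.inr hDd) j
  · refine hreg Q hQ Dd (Or.inl ⟨hDd, fun a ha => ?_⟩) j
    by_contra hcon
    apply hB
    refine ⟨a, hGb a ha, ?_⟩
    rw [not_le, hF2, Q.ord_mul (pow_ne_zero _ hcx) (hxn a (hGb a ha)), Q.ord_pow, hx',
      pord_scale Q ⟨c0, hc0⟩ hcx] at hcon
    linarith
  · have h1 : (fun i : Fin w => ω i.succ E / ω 0 E) = t := by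
      funext i
      have h2 : (mx c0 eg D (vE E) x' (fun a => Finsupp.single c0 (eg a)) b σ).det / Z ≠ 0 :=
        div_ne_zero hdet hZ0
      rw [hω, hω, hlj, Fin.cons_succ, Fin.cons_zero, hx1, mul_one, mul_div_cancel_left₀ _ h2, ht]
    rw [h1]
    exact htb.1

end Pool.Agent.K9h33.BL
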