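import Pool.Agent.K9h33.BL.Fin
import Pool.Agent.TH145.GC.Main

/-!
Points outside of the base locus over a finitely generated field.
-/

set_option autoImplicit false
set_option linter.unusedSectionVars false
set_option linter.unusedVariables false
set_option linter.unusedSimpArgs false

open MvPolynomial Pool.Agent.W602.GT LinearAlgebra.Projectivization
open Pool.Agent.TH145.GH Pool.Agent.TH145.GC
open Pool.Agent.TH145.MG (DimLE)

namespace Pool.Agent.K9h33.BL

/-- Finiteness of the points outside of the base locus over a finitely generated field. -/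
theorem fin_pointsG {k0 K : Type} [Field k0] [Field K] [Algebra k0 K] [IsAlgClosed K]
    [CharZero K] [IsAlgClosed k0] {n m : ℕ} {A : Type} [Fintype A] {eg : A → ℕ}
    (hd : 2 * m + 2 ≤ ∑ a, eg a + Fintype.card A) (V : Set (MvPolynomial (Fin (n + 1)) k0))
    (hV : DimLE k0 V m)
    (R G : A → MvPolynomial (Fin (n + 1)) k0) {cg dd : A → ℕ}
    (hRh : ∀ a, (R a).IsHomogeneous (dd a)) (hGh : ∀ a, (G a).IsHomogeneous (cg a))
    (hdd : ∀ a, dd a = cg a + eg a)
    {H : A → MvPolynomial (Fin (n + 1)) K} (hH : ∀ a, (H a).IsHomogeneous (eg a))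
    (hind : AlgebraicIndependent k0 fun p : Cf n eg => (H p.1).coeff p.2.1)
    (T : Finset K) (l0 : Fin (n + 1)) :
    {x : Fin (n + 1) → K | (∀ j, x j ∈ IntermediateField.adjoin k0 (T : Set K)) ∧ x l0 = 1 ∧
      (∀ f ∈ V, aeval x f = 0) ∧ (∀ a, aeval x (R a) + aeval x (G a) * eval x (H a) = 0) ∧
      ∀ a, aeval x (G a) ≠ 0}.Finite := by
  classical
  obtain ⟨B, hB, K1, y, E, H1, DE, D, hK1, hc, hy, h1, h2, h3, h4, h5, h6, h7, h8⟩ :=
    exists_all hH hind T
  have : Finite B := hB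
  have h9 := fin_allG E hy h3 D h4 h5 h6 hd V hV R G hRh hGh hdd l0
  refine (h9.image fun x j => (x j : K)).subset ?_
  rintro x ⟨hx, hxl, hxV, hxF, hxG⟩
  choose e he hex using fun j => h8 (x j) (hx j)
  have hex' : (fun j => algebraMap K1 K (e j)) = x := funext hex
  have hev : ∀ a, algebraMap K1 K (eval e (map E.toSubfield.subtype (H1 a))) =
      eval x (H a) := by
    intro a
    rw [← h7, eval_map, eval_map]
    have h10 := hom_eval₂ (H1 a) E.toSubfield.subtype (algebraMap K1 K) e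
    rw [h10, hex']
  have hev0 : ∀ f : MvPolynomial (Fin (n + 1)) k0,
      algebraMap K1 K (eval₂ (algebraMap k0 K1) e f) = aeval x f := by
    intro f
    have h10 := hom_eval₂ f (algebraMap k0 K1) (algebraMap K1 K) e
    rw [h10, hex']
    rfl
  have hinj : Function.Injective (algebraMap K1 K) := (algebraMap K1 K).injective
  refine ⟨e, ⟨he, ?_, fun f hf => ?_, fun a => ?_, fun a h0 => ?_⟩, funext hex⟩
  · apply Subtype.ext
    rw [hex, hxl]
    rfl
  · apply hinj
    rw [hev0, hxV f hf, map_zero]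
  · apply hinj
    rw [map_add, map_mul, hev0, hev0, hev, hxF a, map_zero]
  · apply hxG a
    rw [← hev0, h0, map_zero]

/-- The points of projective space. -/
theorem fin_projG {k0 K : Type} [Field k0] [Field K] [Algebra k0 K] [IsAlgClosed K]
    [CharZero K] [IsAlgClosed k0] {n m : ℕ} {A : Type} [Fintype A] {eg : A → ℕ}
    (hd : 2 * m + 2 ≤ ∑ a, eg a + Fintype.card A) (V : Set (MvPolynomial (Fin (n + 1)) k0))
    (hVh : ∀ f ∈ V, ∃ e, f.IsHomogeneous e) (hV : DimLE k0 V m)
    (R G : A → MvPolynomial (Fin (n + 1)) k0) {cg dd : A → ℕ}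
    (hRh : ∀ a, (R a).IsHomogeneous (dd a)) (hGh : ∀ a, (G a).IsHomogeneous (cg a))
    (hdd : ∀ a, dd a = cg a + eg a)
    {H : A → MvPolynomial (Fin (n + 1)) K} (hH : ∀ a, (H a).IsHomogeneous (eg a))
    (hind : AlgebraicIndependent k0 fun p : Cf n eg => (H p.1).coeff p.2.1)
    (T : Finset K) :
    {p : ℙ K (Fin (n + 1) → K) | ∃ x : Fin (n + 1) → K, ((∀ f ∈ V, aeval x f = 0) ∧
      (∀ a, aeval x (R a) + aeval x (G a) * eval x (H a) = 0) ∧ ∀ a, aeval x (G a) ≠ 0) ∧
      (∀ i, x i ∈ IntermediateField.adjoin k0 (T : Set K)) ∧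
      ∃ hx : x ≠ 0, p = Projectivization.mk K x hx}.Finite := by
  exact proj_finite (IntermediateField.adjoin k0 (T : Set K)).toSubfield
    {x | (∀ f ∈ V, aeval x f = 0) ∧
      (∀ a, aeval x (R a) + aeval x (G a) * eval x (H a) = 0) ∧ ∀ a, aeval x (G a) ≠ 0}
    (fun x hx b hb => by
      refine ⟨fun f hf => ?_, fun a => ?_, fun a => ?_⟩
      · obtain ⟨e, he⟩ := hVh f hf
        rw [Pool.Agent.TH145.MG.aeval_smul he, hx.1 f hf, mul_zero]
      · rw [Pool.Agent.TH145.MG.aeval_smul (hRh a), Pool.Agent.TH145.MG.aeval_smul (hGh a),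
          eval_smul_hom (hH a), hdd, pow_add]
        have h1 := hx.2.1 a
        linear_combination b ^ cg a * b ^ eg a * h1
      · rw [Pool.Agent.TH145.MG.aeval_smul (hGh a)]
        exact mul_ne_zero (pow_ne_zero _ hb) (hx.2.2 a)) fun l0 => by
    refine (fin_pointsG hd V hV R G hRh hGh hdd hH hind T l0).subset ?_
    rintro x ⟨hx1, hx2, hx3⟩
    exact ⟨hx1, hx2, hx3.1, hx3.2.1, hx3.2.2⟩

end Pool.Agent.K9h33.BL
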