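import Pool.Agent.K9h33.BL.Split
import Pool.Agent.K9h33.BL.Pts
import Pool.Agent.K9h33.BL.CMain

/-!
Points and curves in the complete intersections of generic members of linear systems, outside of the
base loci.
-/

set_option autoImplicit false
set_option linter.unusedSectionVars false
set_option linter.unusedVariables false
set_option linter.unusedSimpArgs false

open MvPolynomial FF Pool.Agent.W603.LV Pool.Agent.W603.PV Pool.Agent.W602.GT
  LinearAlgebra.Projectivization Pool.Agent.TH145.MG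
open Pool.Agent.TH145.GC (Cf finite_cf)

namespace Pool.Agent.K9h33.BL

section

variable {k K : Type} [Field k] [Field K] [Algebra k K] {n : ℕ} {A : Type}
  {J : A → Type} [∀ a, Fintype (J a)]

/-- the generic members of the (affine) linear systems -/
noncomputable def Mem (R : A → MvPolynomial (Fin (n + 1)) k)
    (P : ∀ a, J a → MvPolynomial (Fin (n + 1)) k) (t : ∀ a, J a → K) (a : A) :
    MvPolynomial (Fin (n + 1)) K :=
  map (algebraMap k K) (R a) + ∑ j, C (t a j) * map (algebraMap k K) (P a j)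

/-- The forms `G` of degree `d - e` such that all the products of `G` and of forms of degree `e` are
in the linear system. -/
def Mul (d e : ℕ) {J : Type} (P : J → MvPolynomial (Fin (n + 1)) k) :
    Set (MvPolynomial (Fin (n + 1)) k) :=
  {G | ∃ c, c + e = d ∧ G.IsHomogeneous c ∧
    ∀ u : Fin (n + 1) →₀ ℕ, u.degree = e → G * monomial u 1 ∈ Submodule.span k (Set.range P)}

end

variable {k K : Type} [Field k] [Field K] [Algebra k K] [IsAlgClosed K] [CharZero K] {n m : ℕ}
  {A : Type} [Fintype A] {d e : A → ℕ} {J : A → Type} [∀ a, Fintype (J a)]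

omit [CharZero K] in
/-- Fields over the algebraic closure of `k`. -/
theorem adj_le (k' : IntermediateField k K) [IsAlgClosed k'] (T : Set K) {z : K}
    (hz : z ∈ IntermediateField.adjoin (algebraicClosure k K) T) :
    z ∈ IntermediateField.adjoin k' T := by
  have h1 : z ∈ Subfield.closure (Set.range (algebraMap (algebraicClosure k K) K) ∪ T) := by
    rw [← IntermediateField.adjoin_toSubfield]
    exact hz
  have h2 : Subfield.closure (Set.range (algebraMap (algebraicClosure k K) K) ∪ T) ≤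
      (IntermediateField.adjoin k' T).toSubfield := by
    rw [Subfield.closure_le]
    rintro w (⟨r, rfl⟩ | hw)
    · have h3 : IsAlgebraic k (r : K) := mem_algebraicClosure_iff.1 r.2
      have h4 : IsIntegral k' (r : K) := (h3.tower_top k').isIntegral
      obtain ⟨c, hc⟩ := minpoly.mem_range_of_degree_eq_one k' _
        (IsAlgClosed.degree_eq_one_of_irreducible k' (minpoly.irreducible h4))
      rw [SetLike.mem_coe]
      change (r : K) ∈ _
      rw [← hc]
      exact (IntermediateField.adjoin k' T).algebraMap_mem c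
    · exact IntermediateField.subset_adjoin _ _ hw
  exact h2 h1

/-- Points, for a fixed choice of the multipliers. -/
theorem pts_one (hd : 2 * m + 2 ≤ ∑ a, (e a + 1))
    (V : Set (MvPolynomial (Fin (n + 1)) k)) (hVh : ∀ f ∈ V, ∃ e, f.IsHomogeneous e)
    (hV : DimLE k V m) (R : A → MvPolynomial (Fin (n + 1)) k)
    (hR : ∀ a, (R a).IsHomogeneous (d a)) (P : ∀ a, J a → MvPolynomial (Fin (n + 1)) k)
    (hP : ∀ a j, (P a j).IsHomogeneous (d a)) (t : ∀ a, J a → K)
    (ht : AlgebraicIndependent k fun p : Σ a, J a => t p.1 p.2)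
    (G : A → MvPolynomial (Fin (n + 1)) k) (hG : ∀ a, G a ∈ Mul (d a) (e a) (P a))
    (T : Finset K) :
    {p : ℙ K (Fin (n + 1) → K) | ∃ x : Fin (n + 1) → K, ((∀ f ∈ V, aeval x f = 0) ∧
      (∀ a, aeval x (Mem R P t a) = 0) ∧ ∀ a, aeval x (G a) ≠ 0) ∧
      (∀ i, x i ∈ IntermediateField.adjoin (algebraicClosure k K) (T : Set K)) ∧
      ∃ hx : x ≠ 0, p = Projectivization.mk K x hx}.Finite := by
  classical
  by_cases hG0 : ∀ a, G a ≠ 0
  swap
  · push Not at hG0
    obtain ⟨a, ha⟩ := hG0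
    refine Set.Finite.subset Set.finite_empty ?_
    rintro p ⟨x, ⟨-, -, h⟩, -⟩
    exact h a (by rw [ha, map_zero])
  choose cg hcg hGh hGP using hG
  obtain ⟨k', R', H, hac, hHh, hHi, hRh, hsum⟩ := split P t ht G hG0 hGP
  have hdd : ∀ a, d a = cg a + e a := fun a => (hcg a).symm
  have hd' : 2 * m + 2 ≤ ∑ a, e a + Fintype.card A := by
    rw [Finset.sum_add_distrib, Finset.sum_const, smul_eq_mul, mul_one, Finset.card_univ] at hd
    exact hd
  have h1 := fin_projG (k0 := k') hd' (map (algebraMap k k') '' V)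
    (by rintro _ ⟨f, hf, rfl⟩; obtain ⟨c, hc⟩ := hVh f hf; exact ⟨c, hc.map _⟩)
    (dimLE_map hV) (fun a => map (algebraMap k k') (R a) + R' a)
    (fun a => map (algebraMap k k') (G a)) (cg := cg) (dd := d)
    (fun a => ((hR a).map _).add (hRh a (d a) (hP a)))
    (fun a => (hGh a).map _) hdd hHh hHi T
  refine h1.subset ?_
  rintro p ⟨x, ⟨hxV, hxF, hxG⟩, hxT, hx, hp⟩
  refine ⟨x, ⟨?_, fun a => ?_, fun a => ?_⟩, fun i => ?_, hx, hp⟩
  · rintro _ ⟨f, hf, rfl⟩
    rw [aeval_map_algebraMap]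
    exact hxV f hf
  · have h2 := hxF a
    rw [Mem, hsum] at h2
    rw [map_add, map_add, aeval_map_algebraMap, map_mul, aeval_map_algebraMap, aeval_map_algebraMap]
      at h2
    rw [map_add, aeval_map_algebraMap, aeval_map_algebraMap, add_assoc]
    exact h2
  · rw [aeval_map_algebraMap]
    exact hxG a
  · exact adj_le k' _ (hxT i)

/-- The zero set of the multipliers is the zero set of finitely many of them. -/
theorem exists_fin {n : ℕ} (S : Set (MvPolynomial (Fin (n + 1)) k)) :
    ∃ S' : Finset (MvPolynomial (Fin (n + 1)) k), (S' : Set _) ⊆ S ∧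
      ∀ (L : Type) [Field L] [Algebra k L] (x : Fin (n + 1) → L),
        (∀ G ∈ S', aeval x G = 0) → ∀ G ∈ S, aeval x G = 0 := by
  classical
  have h1 : (Ideal.span S).FG := IsNoetherian.noetherian _
  obtain ⟨S', hS', hspan⟩ := (Submodule.fg_span_iff_fg_span_finset_subset S).1 h1
  refine ⟨S', hS', fun L _ _ x hx G hG => ?_⟩
  have h2 : Ideal.span (S' : Set (MvPolynomial (Fin (n + 1)) k)) ≤
      RingHom.ker (aeval x : MvPolynomial (Fin (n + 1)) k →ₐ[k] L).toRingHom := by
    rw [Ideal.span_le]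
    intro G hG
    exact hx G hG
  have h3 : G ∈ Ideal.span S := Ideal.subset_span hG
  have h4 : Ideal.span S = Ideal.span (S' : Set (MvPolynomial (Fin (n + 1)) k)) := hspan
  rw [h4] at h3
  exact h2 h3

/-- The points outside of the base loci. -/
theorem pts_all (hd : 2 * m + 2 ≤ ∑ a, (e a + 1))
    (V : Set (MvPolynomial (Fin (n + 1)) k)) (hVh : ∀ f ∈ V, ∃ e, f.IsHomogeneous e)
    (hV : DimLE k V m) (R : A → MvPolynomial (Fin (n + 1)) k)
    (hR : ∀ a, (R a).IsHomogeneous (d a)) (P : ∀ a, J a → MvPolynomial (Fin (n + 1)) k)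
    (hP : ∀ a j, (P a j).IsHomogeneous (d a)) (t : ∀ a, J a → K)
    (ht : AlgebraicIndependent k fun p : Σ a, J a => t p.1 p.2) (T : Finset K) :
    {p : ℙ K (Fin (n + 1) → K) | ∃ x : Fin (n + 1) → K, ((∀ f ∈ V, aeval x f = 0) ∧
      (∀ a, aeval x (Mem R P t a) = 0) ∧ ∀ a, ∃ G ∈ Mul (d a) (e a) (P a), aeval x G ≠ 0) ∧
      (∀ i, x i ∈ IntermediateField.adjoin (algebraicClosure k K) (T : Set K)) ∧
      ∃ hx : x ≠ 0, p = Projectivization.mk K x hx}.Finite := by
  classical
  choose S hS hSz using fun a => exists_fin (k := k) (Mul (d a) (e a) (P a))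
  have h1 : ∀ g : (∀ a, {G // G ∈ S a}), _ := fun g =>
    pts_one hd V hVh hV R hR P hP t ht (fun a => (g a).1) (fun a => hS a (g a).2) T
  refine (Set.finite_iUnion h1).subset ?_
  rintro p ⟨x, ⟨hxV, hxF, hxG⟩, hxT, hx, hp⟩
  have h2 : ∀ a, ∃ G ∈ S a, aeval x G ≠ 0 := by
    intro a
    by_contra hcon
    push Not at hcon
    obtain ⟨G, hG, hGx⟩ := hxG a
    exact hGx (hSz a K x hcon G hG)
  choose g hg hgx using h2
  exact Set.mem_iUnion.2 ⟨fun a => ⟨g a, hg a⟩, x, ⟨hxV, hxF, hgx⟩, hxT, hx, hp⟩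

/-- The curves outside of the base loci. -/
theorem crv_all (V : Set (MvPolynomial (Fin (n + 1)) k)) (hVh : ∀ f ∈ V, ∃ e, f.IsHomogeneous e)
    (hV : DimLE k V m) (R : A → MvPolynomial (Fin (n + 1)) k)
    (hR : ∀ a, (R a).IsHomogeneous (d a)) (P : ∀ a, J a → MvPolynomial (Fin (n + 1)) k)
    (hP : ∀ a j, (P a j).IsHomogeneous (d a)) (t : ∀ a, J a → K)
    (ht : AlgebraicIndependent k fun p : Σ a, J a => t p.1 p.2)
    {L : Type} [Field L] [Algebra K L] [IsFF K L] (x : Fin (n + 1) → L)
    (hx : ∃ i j, x j ≠ 0 ∧ x i / x j ∉ Set.range (algebraMap K L))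
    (hxV : ∀ f ∈ V, aeval x (map (algebraMap k K) f) = 0)
    (hxF : ∀ a, aeval x (Mem R P t a) = 0)
    (hxG : ∀ a, ∃ G ∈ Mul (d a) (e a) (P a), aeval x (map (algebraMap k K) G) ≠ 0) :
    (((∑ a, (e a + 1) : ℕ) : ℤ) - 2 * m) * pht K x ≤ canDeg K L := by
  classical
  choose G hG hGx using hxG
  have hG0 : ∀ a, G a ≠ 0 := fun a h0 => hGx a (by rw [h0, map_zero, map_zero])
  choose cg hcg hGh hGP using hG
  obtain ⟨k', R', H, hac, hHh, hHi, hRh, hsum⟩ := split P t ht G hG0 hGP
  have hdd : ∀ a, d a = cg a + e a := fun a => (hcg a).symm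
  have key := curve_G (k0 := k') (k := K) (L := L) (m := m) (map (algebraMap k k') '' V)
    (by rintro _ ⟨f, hf, rfl⟩; obtain ⟨c, hc⟩ := hVh f hf; exact ⟨c, hc.map _⟩)
    (dimLE_map hV) (fun a => map (algebraMap k k') (R a) + R' a)
    (fun a => map (algebraMap k k') (G a)) (cg := cg) (dd := d)
    (fun a => ((hR a).map _).add (hRh a (d a) (hP a)))
    (fun a => (hGh a).map _) hdd H hHh hHi x hx
    (by
      rintro _ ⟨f, hf, rfl⟩
      rw [map_map, ← IsScalarTower.algebraMap_eq]
      exact hxV f hf)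
    (fun a => by
      have h2 := hxF a
      rw [Mem, hsum] at h2
      have h3 : map (algebraMap k' K) (map (algebraMap k k') (R a) + R' a) =
          map (algebraMap k K) (R a) + map (algebraMap k' K) (R' a) := by
        rw [map_add, map_map, ← IsScalarTower.algebraMap_eq]
      rw [h3, map_map, ← IsScalarTower.algebraMap_eq, add_assoc]
      exact h2)
    (fun a => by
      rw [map_map, ← IsScalarTower.algebraMap_eq]
      exact hGx a)
  rw [Finset.sum_add_distrib, Finset.sum_const, smul_eq_mul, mul_one, Finset.card_univ]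
  push_cast
  push_cast at key
  exact key

end Pool.Agent.K9h33.BL
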