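import Pool.Agent.K9h33.BL.Lin
import Pool.Agent.K9h33.BL.LGT

/-!
Subvarieties of the pairs given by generic members of linear systems, outside of the base loci, are
of log general type.
-/

set_option autoImplicit false
set_option linter.unusedSectionVars false
set_option linter.unusedVariables false
set_option linter.unusedSimpArgs false

open MvPolynomial FF Pool.Agent.W603.LV Pool.Agent.W603.PV Pool.Agent.W602.GT
  LinearAlgebra.Projectivization Pool.Agent.TH145.MG
open Pool.Agent.TH145.GC (Cf finite_cf)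

namespace Pool.Agent.K9h33.BL

variable {k K : Type} [Field k] [Field K] [Algebra k K] [IsAlgClosed K] [CharZero K] {n m : ℕ}
  {A : Type} [Fintype A] {d e : A → ℕ} {J : A → Type} [∀ a, Fintype (J a)]

/-- The subvarieties outside of the base loci. -/
theorem log_all (V : Set (MvPolynomial (Fin (n + 1)) k)) (hVh : ∀ f ∈ V, ∃ e, f.IsHomogeneous e)
    (hV : DimLE k V m) (R : A → MvPolynomial (Fin (n + 1)) k)
    (hR : ∀ a, (R a).IsHomogeneous (d a)) (P : ∀ a, J a → MvPolynomial (Fin (n + 1)) k)
    (hP : ∀ a j, (P a j).IsHomogeneous (d a)) (t : ∀ a, J a → K)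
    (ht : AlgebraicIndependent k fun p : Σ a, J a => t p.1 p.2) (C : Finset A) {w : ℕ} (hw : 0 < w)
    (hd : 2 * m + 2 ≤ ∑ a, e a + C.card + w)
    {L : Type} [Field L] [Algebra K L] (htr : Algebra.trdeg K L = w) (x : Fin (n + 1) → L)
    (hx0 : x ≠ 0) (hgen : Algebra.IsAlgebraic (coords K x) L)
    (hxV : ∀ f ∈ V, aeval x (map (algebraMap k K) f) = 0)
    (hxF : ∀ a ∈ C, aeval x (Mem R P t a) = 0) (hxn : ∀ a, a ∉ C → aeval x (Mem R P t a) ≠ 0)
    (hxG : ∀ a, ∃ G ∈ Mul (d a) (e a) (P a), aeval x (map (algebraMap k K) G) ≠ 0) :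
    LogGeneralType K L w fun Q : Place K L =>
      ∃ a, a ∉ C ∧ d a * pord Q x < Q.ord (aeval x (Mem R P t a)) := by
  classical
  choose G hG hGx using hxG
  have hG0 : ∀ a, G a ≠ 0 := fun a h0 => hGx a (by rw [h0, map_zero, map_zero])
  choose cg hcg hGh hGP using hG
  obtain ⟨k', R', H, hac, hHh, hHi, hRh, hsum⟩ := split P t ht G hG0 hGP
  have hdd : ∀ a, d a = cg a + e a := fun a => (hcg a).symm
  have hM : ∀ a, Mem R P t a = map (algebraMap k' K) (map (algebraMap k k') (R a) + R' a) +
      map (algebraMap k' K) (map (algebraMap k k') (G a)) * H a := by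
    intro a
    rw [Mem, hsum, map_add, map_map, map_map, ← IsScalarTower.algebraMap_eq, add_assoc]
  have key := gt_logG (k0 := k') (K := K) (L := L) (m := m) (w := w)
    (map (algebraMap k k') '' V)
    (by rintro _ ⟨f, hf, rfl⟩; obtain ⟨c, hc⟩ := hVh f hf; exact ⟨c, hc.map _⟩)
    (dimLE_map hV) (fun a => map (algebraMap k k') (R a) + R' a)
    (fun a => map (algebraMap k k') (G a)) (cg := cg) (dd := d)
    (fun a => ((hR a).map _).add (hRh a (d a) (hP a)))
    (fun a => (hGh a).map _) hdd H hHh hHi C hw hd htr x hx0 hgen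
    (by
      rintro _ ⟨f, hf, rfl⟩
      rw [map_map, ← IsScalarTower.algebraMap_eq]
      exact hxV f hf)
    (fun a ha => by
      rw [← hM]
      exact hxF a ha)
    (fun a ha => by
      rw [← hM]
      exact hxn a ha)
    (fun a => by
      rw [map_map, ← IsScalarTower.algebraMap_eq]
      exact hGx a)
  simp only [← hM] at key
  exact key

end Pool.Agent.K9h33.BL
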