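import Pool.Agent.K9h33.BL.Lin

/-!
Properties of closed subsets of projective space, and their comparison outside of the base loci.
-/

set_option autoImplicit false
set_option linter.unusedSectionVars false
set_option linter.unusedVariables false
set_option linter.unusedSimpArgs false

open MvPolynomial FF Pool.Agent.W603.LV Pool.Agent.W603.PV Pool.Agent.W602.GT
  LinearAlgebra.Projectivization Pool.Agent.TH145.MG

namespace Pool.Agent.K9h33.BL

/-- A closed subset of projective space over `K` (or a union of such sets), given by the vectors of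
homogeneous coordinates of its points over the extension fields of `K`. -/
abbrev Closed (K : Type) [Field K] (n : ℕ) := ∀ (L : Type) [Field L] [Algebra K L],
  Set (Fin (n + 1) → L)

section defs

variable {K : Type} [Field K] {n : ℕ}

/-- There is a number `B` such that all morphisms from smooth projective curves of genus `g` have
degree at most `B max (2 g - 2, 0)`. -/
def AlgHyp (S : Closed K n) : Prop :=
  ∃ B : ℕ, ∀ (L : Type) [Field L] [Algebra K L] [IsFF K L] (f : Fin (n + 1) → L),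
    f ≠ 0 → f ∈ S L → pht K f ≤ B * max (canDeg K L) 0

/-- The degrees of the morphisms from each smooth projective curve are bounded. -/
def Bounded (S : Closed K n) : Prop :=
  ∀ (L : Type) [Field L] [Algebra K L] [IsFF K L], ∃ B : ℤ, ∀ f : Fin (n + 1) → L,
    f ≠ 0 → f ∈ S L → pht K f ≤ B

/-- The morphisms from the curves of genus at most one are constant. -/
def GenusOne (S : Closed K n) : Prop :=
  ∀ (L : Type) [Field L] [Algebra K L] [IsFF K L], canDeg K L ≤ 0 → ∀ f : Fin (n + 1) → L,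
    f ≠ 0 → f ∈ S L → ∃ (c : L) (x : Fin (n + 1) → K), ∀ i, f i = c * algebraMap K L (x i)

/-- The points with coordinates in the field `E`. -/
def FieldPoints (S : Closed K n) (E : Subfield K) : Set (ℙ K (Fin (n + 1) → K)) :=
  {p | ∃ x ∈ S K, (∀ i, x i ∈ E) ∧ ∃ hx : x ≠ 0, p = Projectivization.mk K x hx}

/-- The points of projective space over the ring `A` that lie in `S`. -/
def RingPoints (S : Closed K n) (A : Subring K) : Set (ℙ K (Fin (n + 1) → K)) :=
  {p | ∃ x ∈ S K, (∃ y : Fin (n + 1) → K, (∀ i j, x i * y j ∈ A) ∧ ∑ i, x i * y i = 1) ∧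
    ∃ hx : x ≠ 0, p = Projectivization.mk K x hx}

/-- Only finitely many points over each finitely generated ring. -/
def ArithHyp (S : Closed K n) : Prop :=
  ∀ T : Finset K, (RingPoints S (Subring.closure (T : Set K))).Finite

/-- Only finitely many points over each finitely generated field. -/
def Mordellic (S : Closed K n) : Prop :=
  ∀ T : Finset K, (FieldPoints S (Subfield.closure (T : Set K))).Finite

end defs

variable {K : Type} [Field K] [IsAlgClosed K] [CharZero K] {n : ℕ}

theorem pht_nonneg {L : Type} [Field L] [Algebra K L] [IsFF K L] {f : Fin (n + 1) → L}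
    (hf : f ≠ 0) : 0 ≤ pht K f := by
  obtain ⟨l, hl⟩ := Function.ne_iff.1 hf
  have hl : f l ≠ 0 := hl
  exact (hgt_nonneg _).trans (Pool.Agent.W603.CX.hgt_le_pht (k := K) f hl hl)

/-- a map is nonconstant or has degree zero -/
theorem const_or {L : Type} [Field L] [Algebra K L] [IsFF K L] {f : Fin (n + 1) → L}
    (hf : f ≠ 0) : (∃ i j, f j ≠ 0 ∧ f i / f j ∉ Set.range (algebraMap K L)) ∨
      (pht K f ≤ 0 ∧ ∃ (c : L) (x : Fin (n + 1) → K), ∀ i, f i = c * algebraMap K L (x i)) := by
  classical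
  obtain ⟨l, hl⟩ := Function.ne_iff.1 hf
  have hl : f l ≠ 0 := hl
  by_cases h : ∃ i, f i / f l ∉ Set.range (algebraMap K L)
  · obtain ⟨i, hi⟩ := h
    exact Or.inl ⟨i, l, hl, hi⟩
  · right
    push Not at h
    choose x hx using h
    constructor
    · refine (pht_le (k := K) f hl).trans ?_
      refine le_of_eq (Finset.sum_eq_zero fun j _ => ?_)
      rw [← hx j]
      exact hgt_const _
    · exact ⟨f l, x, fun i => by rw [hx, mul_div_cancel₀ _ hl]⟩

/-- a nonconstant map has positive degree -/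
theorem pos_of {L : Type} [Field L] [Algebra K L] [IsFF K L] {f : Fin (n + 1) → L}
    (hx : ∃ i j, f j ≠ 0 ∧ f i / f j ∉ Set.range (algebraMap K L)) : 0 < pht K f := by
  obtain ⟨i, j, hj, hi⟩ := hx
  by_contra hcon
  rw [not_lt] at hcon
  have hinv : (f j)⁻¹ ≠ 0 := inv_ne_zero hj
  have h1 : pht K (fun i => (f j)⁻¹ * f i) ≤ 0 := by
    rw [pht_scale ⟨j, hj⟩ hinv]
    exact hcon
  obtain ⟨c, hc⟩ := Pool.Agent.TH145.GH.const_of_pht (κ := K) h1 (l0 := j)
    (inv_mul_cancel₀ hj) i
  apply hi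
  refine ⟨c, ?_⟩
  rw [← hc, div_eq_mul_inv, mul_comm]

section compare

variable {X Z : Closed K n}

/-- The comparison of the geometric properties. -/
theorem compare_curves (hZX : ∀ (L : Type) [Field L] [Algebra K L], Z L ⊆ X L) {q : ℤ} (hq : 1 ≤ q)
    (h : ∀ (L : Type) [Field L] [Algebra K L] [IsFF K L] (x : Fin (n + 1) → L), x ∈ X L → x ∉ Z L →
      (∃ i j, x j ≠ 0 ∧ x i / x j ∉ Set.range (algebraMap K L)) → q * pht K x ≤ canDeg K L) :
    (AlgHyp X ↔ AlgHyp Z) ∧ (Bounded X ↔ Bounded Z) ∧ (GenusOne X ↔ GenusOne Z) := by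
  have h' : ∀ (L : Type) [Field L] [Algebra K L] [IsFF K L] (x : Fin (n + 1) → L), x ≠ 0 → x ∈ X L →
      x ∉ Z L → pht K x ≤ max (canDeg K L) 0 := by
    intro L _ _ _ x hx0 hxX hxZ
    rcases const_or (K := K) hx0 with hx | ⟨hx, -⟩
    · have h1 := h L x hxX hxZ hx
      have h2 := pht_nonneg (K := K) hx0
      refine le_trans ?_ (le_max_left _ _)
      nlinarith
    · exact hx.trans (le_max_right _ _)
  refine ⟨⟨?_, ?_⟩, ⟨?_, ?_⟩, ⟨?_, ?_⟩⟩
  · rintro ⟨B, hB⟩
    exact ⟨B, fun L _ _ _ f hf hfZ => hB L f hf (hZX L hfZ)⟩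
  · rintro ⟨B, hB⟩
    refine ⟨B + 1, fun L _ _ _ f hf hfX => ?_⟩
    have h3 : 0 ≤ max (canDeg K L) 0 := le_max_right _ _
    push_cast
    rw [add_mul, one_mul]
    by_cases hfZ : f ∈ Z L
    · have := hB L f hf hfZ
      linarith
    · have h4 := h' L f hf hfX hfZ
      have h5 : 0 ≤ (B : ℤ) * max (canDeg K L) 0 := mul_nonneg (Int.natCast_nonneg _) h3
      linarith
  · intro hB L _ _ _
    obtain ⟨B, hB⟩ := hB L
    exact ⟨B, fun f hf hfZ => hB f hf (hZX L hfZ)⟩
  · intro hB L _ _ _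
    obtain ⟨B, hB⟩ := hB L
    refine ⟨max B (max (canDeg K L) 0), fun f hf hfX => ?_⟩
    by_cases hfZ : f ∈ Z L
    · exact (hB f hf hfZ).trans (le_max_left _ _)
    · exact (h' L f hf hfX hfZ).trans (le_max_right _ _)
  · intro hG L _ _ _ hL f hf hfZ
    exact hG L hL f hf (hZX L hfZ)
  · intro hG L _ _ _ hL f hf hfX
    by_cases hfZ : f ∈ Z L
    · exact hG L hL f hf hfZ
    · rcases const_or (K := K) hf with hx | ⟨-, hx⟩
      · have h1 := h L f hfX hfZ hx
        have h2 := pos_of (K := K) hx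
        nlinarith
      · exact hx

/-- The comparison of the arithmetic properties. -/
theorem compare_points (hZX : ∀ (L : Type) [Field L] [Algebra K L], Z L ⊆ X L)
    (hX : ∀ (x : Fin (n + 1) → K) (c : K), c ≠ 0 → x ∈ X K → c • x ∈ X K)
    (hZ : ∀ (x : Fin (n + 1) → K) (c : K), c ≠ 0 → c • x ∈ Z K → x ∈ Z K)
    (h : ∀ T : Finset K, {p : ℙ K (Fin (n + 1) → K) | ∃ x : Fin (n + 1) → K, x ∈ X K ∧ x ∉ Z K ∧
      (∀ i, x i ∈ Subfield.closure (T : Set K)) ∧
      ∃ hx : x ≠ 0, p = Projectivization.mk K x hx}.Finite) :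
    (ArithHyp X ↔ ArithHyp Z) ∧ (Mordellic X ↔ Mordellic Z) := by
  refine ⟨⟨?_, ?_⟩, ⟨?_, ?_⟩⟩
  · intro hA T
    refine (hA T).subset ?_
    rintro p ⟨x, hx, h1, h2⟩
    exact ⟨x, hZX K hx, h1, h2⟩
  · intro hA T
    refine ((hA T).union (h T)).subset ?_
    rintro p ⟨x, hx, ⟨y, hy, hxy⟩, hx0, hp⟩
    by_cases hxZ : x ∈ Z K
    · exact Or.inl ⟨x, hxZ, ⟨y, hy, hxy⟩, hx0, hp⟩
    · right
      obtain ⟨j, hj⟩ : ∃ j, y j ≠ 0 := by
        by_contra hcon
        push Not at hcon
        rw [Finset.sum_eq_zero fun i _ => by rw [hcon i, mul_zero]] at hxy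
        exact zero_ne_one hxy
      have hle : ∀ z ∈ Subring.closure (T : Set K), z ∈ Subfield.closure (T : Set K) := by
        intro z hz
        have h3 : Subring.closure (T : Set K) ≤ (Subfield.closure (T : Set K)).toSubring := by
          rw [Subring.closure_le]
          exact Subfield.subset_closure
        exact h3 hz
      refine ⟨y j • x, hX x (y j) hj hx, fun h0 => hxZ (hZ x (y j) hj h0), fun i => ?_,
        smul_ne_zero hj hx0, ?_⟩
      · rw [Pi.smul_apply, smul_eq_mul, mul_comm]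
        exact hle _ (hy i j)
      · rw [hp, Projectivization.mk_eq_mk_iff']
        exact ⟨(y j)⁻¹, by rw [smul_smul, inv_mul_cancel₀ hj, one_smul]⟩
  · intro hA T
    refine (hA T).subset ?_
    rintro p ⟨x, hx, h1, h2⟩
    exact ⟨x, hZX K hx, h1, h2⟩
  · intro hA T
    refine ((hA T).union (h T)).subset ?_
    rintro p ⟨x, hx, hxT, hx0, hp⟩
    by_cases hxZ : x ∈ Z K
    · exact Or.inl ⟨x, hxZ, hxT, hx0, hp⟩
    · exact Or.inr ⟨x, hx, hxZ, hxT, hx0, hp⟩

end compare

end Pool.Agent.K9h33.BL
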