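import Pool.Agent.K9h33.BL.Base
import Pool.Agent.TH145.GC.Main

/-!
The generic member of a linear system which contains the multiples of a form `G`.
-/

set_option autoImplicit false
set_option linter.unusedSectionVars false
set_option linter.unusedVariables false
set_option linter.unusedSimpArgs false

open MvPolynomial Pool.Agent.W602.GT Pool.Agent.TH145.MG Pool.Agent.TH145.GH
open Pool.Agent.TH145.GC (Cf finite_cf)

namespace Pool.Agent.K9h33.BL

/-- Extension of an independent family to a basis. -/
theorem exists_basis_sum {k V U : Type} [Field k] [AddCommGroup V] [Module k V]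
    [Module.Finite k V] {w : U → V} (hw : LinearIndependent k w) :
    ∃ (U' : Type) (_ : Fintype U') (b : Module.Basis (U ⊕ U') k V), ∀ u, b (Sum.inl u) = w u := by
  classical
  obtain ⟨B, hB⟩ : ∃ B, B = hw.linearIndepOn_id.extend (Set.subset_univ (Set.range w)) := ⟨_, rfl⟩
  obtain ⟨b0, hb0⟩ : ∃ b0 : Module.Basis B k V, ∀ x, b0 x = x := by
    subst hB
    exact ⟨Module.Basis.extend hw.linearIndepOn_id, fun x => Module.Basis.extend_apply_self _ x⟩
  have hwB : Set.range w ⊆ B := by
    rw [hB]
    exact hw.linearIndepOn_id.subset_extend _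
  have hBfin : Finite B := Module.Finite.finite_basis b0
  have hU' : Finite (B \ Set.range w : Set V) := (Set.toFinite B).subset Set.sdiff_subset
  let f : U ⊕ (B \ Set.range w : Set V) → B := Sum.elim (fun u => ⟨w u, hwB ⟨u, rfl⟩⟩)
    (fun v => ⟨v.1, v.2.1⟩)
  have hf : Function.Injective f := by
    rintro (u | v) (u' | v') h
    · have h1 : w u = w u' := congrArg Subtype.val h
      rw [hw.injective h1]
    · have h1 : w u = v'.1 := congrArg Subtype.val h
      exact absurd ⟨u, h1⟩ v'.2.2
    · have h1 : v.1 = w u' := congrArg Subtype.val h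
      exact absurd ⟨u', h1.symm⟩ v.2.2
    · have h1 : v.1 = v'.1 := congrArg (fun z : B => (z : V)) h
      rw [Subtype.ext h1]
  have hfs : Function.Surjective f := by
    rintro ⟨v, hv⟩
    by_cases h : v ∈ Set.range w
    · obtain ⟨u, rfl⟩ := h
      exact ⟨Sum.inl u, rfl⟩
    · exact ⟨Sum.inr ⟨v, hv, h⟩, rfl⟩
  refine ⟨(B \ Set.range w : Set V), Fintype.ofFinite _,
    b0.reindex (Equiv.ofBijective f ⟨hf, hfs⟩).symm, fun u => ?_⟩
  rw [Module.Basis.reindex_apply, Equiv.symm_symm, hb0]
  rfl

theorem adj_ext {F E ι : Type} [Field F] [Field E] [Algebra F E] {S : Set E} {y : ι → E}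
    (h : AlgebraicIndependent (Algebra.adjoin F S) y) :
    AlgebraicIndependent (IntermediateField.adjoin F S) y := by
  let : Algebra (Algebra.adjoin F S) (IntermediateField.adjoin F S) :=
    (Subalgebra.inclusion <| IntermediateField.algebra_adjoin_le_adjoin F S).toAlgebra
  have : IsScalarTower (Algebra.adjoin F S) (IntermediateField.adjoin F S) E :=
    .of_algebraMap_eq (congrFun rfl)
  have : Algebra.IsAlgebraic (Algebra.adjoin F S) (IntermediateField.adjoin F S) := by
    refine ⟨fun z => ?_⟩
    have h1 : IsAlgebraic (IntermediateField.adjoin F S) (z : E) := isAlgebraic_algebraMap z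
    rw [IntermediateField.isAlgebraic_adjoin_iff] at h1
    exact (isAlgebraic_algebraMap_iff (S := IntermediateField.adjoin F S) (A := E)
      (algebraMap (IntermediateField.adjoin F S) E).injective).1 h1
  exact h.extendScalars _

/-- A generic member of a linear system is the sum of a form over a smaller field and of the product
of `G` and a generic form. -/
theorem split {k K : Type} [Field k] [Field K] [Algebra k K] [IsAlgClosed K] {n : ℕ} {A : Type}
    [Fintype A] {e : A → ℕ} {J : A → Type} [∀ a, Fintype (J a)]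
    (P : ∀ a, J a → MvPolynomial (Fin (n + 1)) k) (t : ∀ a, J a → K)
    (ht : AlgebraicIndependent k fun p : Σ a, J a => t p.1 p.2)
    (G : A → MvPolynomial (Fin (n + 1)) k) (hG : ∀ a, G a ≠ 0)
    (hGP : ∀ a u, u.degree = e a → G a * monomial u 1 ∈ Submodule.span k (Set.range (P a))) :
    ∃ (k' : IntermediateField k K) (R : A → MvPolynomial (Fin (n + 1)) k')
      (H : A → MvPolynomial (Fin (n + 1)) K), IsAlgClosed k' ∧
      (∀ a, (H a).IsHomogeneous (e a)) ∧
      AlgebraicIndependent k' (fun p : Cf n e => (H p.1).coeff p.2.1) ∧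
      (∀ a d, (∀ j, (P a j).IsHomogeneous d) → (R a).IsHomogeneous d) ∧
      ∀ a, ∑ j, C (t a j) * map (algebraMap k K) (P a j) =
        map (algebraMap k' K) (R a) + map (algebraMap k K) (G a) * H a := by
  classical
  have hcf := finite_cf n e
  have := Fintype.ofFinite (Cf n e)
  -- the combinations
  have h0 : ∀ (a : A) (I : Fin (n + 1) →₀ ℕ), ∃ c : J a → k, I.degree = e a →
      ∑ j, c j • P a j = G a * monomial I 1 := by
    intro a I
    by_cases hI : I.degree = e a
    · obtain ⟨c, hc⟩ := (Submodule.mem_span_range_iff_exists_fun k).1 (hGP a I hI)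
      exact ⟨c, fun _ => hc⟩
    · exact ⟨0, fun h => absurd h hI⟩
  choose c hc using h0
  obtain ⟨L, hL⟩ : ∃ L : A → ((Σ a, J a) → k) →ₗ[k] MvPolynomial (Fin (n + 1)) k,
      ∀ a z, L a z = ∑ j, z ⟨a, j⟩ • P a j := by
    refine ⟨fun a => { toFun := fun z => ∑ j, z ⟨a, j⟩ • P a j, map_add' := ?_, map_smul' := ?_ },
      fun _ _ => rfl⟩
    · intro z z'
      rw [← Finset.sum_add_distrib]
      exact Finset.sum_congr rfl fun j _ => add_smul _ _ _
    · intro r z
      rw [RingHom.id_apply, Finset.smul_sum]
      exact Finset.sum_congr rfl fun j _ => by rw [Pi.smul_apply, smul_assoc]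
  obtain ⟨w, hw⟩ : ∃ w : Cf n e → (Σ a, J a) → k, ∀ p q, w p q =
      (Pi.single (M := fun a => J a → k) p.1 (c p.1 p.2.1)) q.1 q.2 := ⟨_, fun _ _ => rfl⟩
  have hLw : ∀ a p, L a (w p) = if a = p.1 then G a * monomial p.2.1 1 else 0 := by
    intro a p
    rw [hL]
    simp only [hw]
    by_cases h : a = p.1
    · obtain ⟨b, I, hI⟩ := p
      change a = b at h
      subst h
      rw [if_pos rfl]
      simp only [Pi.single_eq_same]
      exact hc a I hI
    · rw [if_neg h, Pi.single_eq_of_ne h]
      simp
  have hwi : LinearIndependent k w := by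
    rw [Fintype.linearIndependent_iff]
    intro r hr p0
    obtain ⟨a, I, hI⟩ := p0
    have h1 := congrArg (L a) hr
    rw [map_sum, map_zero] at h1
    have h2 : G a * ∑ p : Cf n e, (if a = p.1 then monomial p.2.1 (r p) else 0) = 0 := by
      refine Eq.trans ?_ h1
      rw [Finset.mul_sum]
      refine Finset.sum_congr rfl fun p _ => ?_
      rw [map_smul, hLw]
      split_ifs
      · rw [← mul_smul_comm]
        congr 1
        rw [smul_monomial, smul_eq_mul, mul_one]
      · rw [mul_zero, smul_zero]
    have h3 := (mul_eq_zero.1 h2).resolve_left (hG a)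
    have h4 := congrArg (coeff I) h3
    rw [coeff_sum, coeff_zero, Finset.sum_eq_single ⟨a, I, hI⟩] at h4
    · rw [if_pos rfl, coeff_monomial, if_pos rfl] at h4
      exact h4
    · intro p _ hp
      split_ifs with h
      · rw [coeff_monomial, if_neg]
        intro h5
        apply hp
        obtain ⟨b, I', hI'⟩ := p
        change a = b at h
        subst h
        change I' = I at h5
        subst h5
        rfl
      · rw [coeff_zero]
    · intro h; exact absurd (Finset.mem_univ _) h
  obtain ⟨U', hU', b, hb⟩ := exists_basis_sum hwi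
  obtain ⟨s, hs⟩ : ∃ s : Cf n e ⊕ U' → K, ∀ i, s i =
      ∑ q : (Σ a, J a), algebraMap k K (b.repr (Pi.single q 1) i) * t q.1 q.2 := ⟨_, fun _ => rfl⟩
  have hsi : AlgebraicIndependent k s := by
    refine algInd_linear ht (fun i q => b.repr (Pi.single q 1) i) (fun q i => b i q) hs
      fun i i' => ?_
    have h1 : b i' = ∑ q, (b i' q) • (Pi.single q 1 : (Σ a, J a) → k) := by
      funext q
      rw [Finset.sum_apply, Finset.sum_eq_single q]
      · rw [Pi.smul_apply, Pi.single_eq_same, smul_eq_mul, mul_one]
      · intro q' _ hq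
        rw [Pi.smul_apply, Pi.single_eq_of_ne (Ne.symm hq), smul_zero]
      · intro h; exact absurd (Finset.mem_univ _) h
    have h2 := congrArg (fun z => b.repr z i) h1
    simp only [map_sum, map_smul, Module.Basis.repr_self] at h2
    rw [Finsupp.finsetSum_apply] at h2
    rw [Finsupp.single_apply] at h2
    have h3 : (if i' = i then (1 : k) else 0) = if i = i' then 1 else 0 := by
      simp only [eq_comm]
    rw [← h3, h2]
    refine Finset.sum_congr rfl fun q _ => ?_
    rw [Finsupp.smul_apply, smul_eq_mul, mul_comm]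
  have hts : ∀ q : (Σ a, J a), t q.1 q.2 = ∑ i, algebraMap k K (b i q) * s i := by
    intro q
    simp only [hs, Finset.mul_sum]
    rw [Finset.sum_comm]
    have h1 : ∀ q' : (Σ a, J a), ∑ i, algebraMap k K (b i q) *
        (algebraMap k K (b.repr (Pi.single q' 1) i) * t q'.1 q'.2) =
        if q' = q then t q'.1 q'.2 else 0 := by
      intro q'
      have h2 := congrFun (b.sum_repr (Pi.single q' 1)) q
      rw [Finset.sum_apply] at h2
      have h3 : ∑ i, algebraMap k K (b i q) *
        (algebraMap k K (b.repr (Pi.single q' 1) i) * t q'.1 q'.2) =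
        algebraMap k K (∑ i, (b.repr (Pi.single q' 1) i • b i) q) * t q'.1 q'.2 := by
        rw [map_sum, Finset.sum_mul]
        refine Finset.sum_congr rfl fun i _ => ?_
        rw [Pi.smul_apply, smul_eq_mul, map_mul]
        ring
      rw [h3, h2]
      split_ifs with h4
      · rw [h4, Pi.single_eq_same, map_one, one_mul]
      · rw [Pi.single_eq_of_ne (Ne.symm h4), map_zero, zero_mul]
    rw [Finset.sum_congr rfl fun q' _ => h1 q', Finset.sum_ite_eq', if_pos (Finset.mem_univ _)]
  -- the smaller field
  obtain ⟨y, hy⟩ : ∃ y : Cf n e → K, ∀ p, y p = s (Sum.inl p) := ⟨_, fun _ => rfl⟩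
  obtain ⟨x, hx⟩ : ∃ x : U' → K, ∀ i, x i = s (Sum.inr i) := ⟨_, fun _ => rfl⟩
  have hyx : s = Sum.elim y x := by
    funext i
    rcases i with p | i
    · exact (hy p).symm
    · exact (hx i).symm
  rw [hyx] at hsi
  have hy2 := (AlgebraicIndependent.sumElim_iff.1 hsi).2
  have hy3 : AlgebraicIndependent (IntermediateField.adjoin k (Set.range x)) y := by
    exact adj_ext hy2
  have hy4 : AlgebraicIndependent (cl k (Set.range x)) y := hy3.algebraicClosure
  have hac : IsAlgClosed (cl k (Set.range x)) :=
    (algebraicClosure.isAlgClosure (IntermediateField.adjoin k (Set.range x)) K).isAlgClosed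
  have hxm : ∀ i, x i ∈ cl k (Set.range x) := fun i => subset_cl ⟨i, rfl⟩
  obtain ⟨H, hH⟩ : ∃ H : A → MvPolynomial (Fin (n + 1)) K, ∀ a, H a =
      ∑ p : Cf n e, if a = p.1 then monomial p.2.1 (y p) else 0 := ⟨_, fun _ => rfl⟩
  obtain ⟨R, hR⟩ : ∃ R : A → MvPolynomial (Fin (n + 1)) (cl k (Set.range x)), ∀ a, R a =
      ∑ i, C (⟨x i, hxm i⟩ : cl k (Set.range x)) *
        map (algebraMap k (cl k (Set.range x))) (L a (b (Sum.inr i))) := ⟨_, fun _ => rfl⟩
  refine ⟨cl k (Set.range x), R, H, hac, fun a => ?_, ?_, fun a d hd => ?_, fun a => ?_⟩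
  · rw [hH]
    refine IsHomogeneous.sum _ _ _ fun p _ => ?_
    split_ifs with h
    · refine isHomogeneous_monomial _ ?_
      rw [h]
      exact p.2.2
    · exact isHomogeneous_zero _ _ _
  · have h1 : (fun p : Cf n e => (H p.1).coeff p.2.1) = y := by
      funext p
      rw [hH, coeff_sum, Finset.sum_eq_single p]
      · rw [if_pos rfl, coeff_monomial, if_pos rfl]
      · intro p' _ hp
        split_ifs with h
        · rw [coeff_monomial, if_neg]
          intro h5
          apply hp
          obtain ⟨b', I', hI'⟩ := p'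
          obtain ⟨b, I, hI⟩ := p
          change b = b' at h
          subst h
          change I' = I at h5
          subst h5
          rfl
        · rw [coeff_zero]
      · intro h; exact absurd (Finset.mem_univ _) h
    rw [h1]
    exact hy4
  · rw [hR]
    refine IsHomogeneous.sum _ _ _ fun i _ => ?_
    have h1 := (isHomogeneous_C (Fin (n + 1)) (⟨x i, hxm i⟩ : cl k (Set.range x))).mul
      (IsHomogeneous.map (f := algebraMap k (cl k (Set.range x)))
        (φ := L a (b (Sum.inr i))) (n := d) (by
        rw [hL]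
        refine IsHomogeneous.sum _ _ _ fun j _ => ?_
        rw [smul_eq_C_mul]
        have h2 := (isHomogeneous_C (Fin (n + 1)) (b (Sum.inr i) ⟨a, j⟩)).mul (hd j)
        rwa [zero_add] at h2))
    rwa [zero_add] at h1
  · have h1 : ∑ j, C (t a j) * map (algebraMap k K) (P a j) =
        ∑ i, C (s i) * map (algebraMap k K) (L a (b i)) := by
      have h2 : ∀ j, C (t a j) * map (algebraMap k K) (P a j) =
          ∑ i, C (s i) * (C (algebraMap k K (b i ⟨a, j⟩)) * map (algebraMap k K) (P a j)) := by
        intro j
        rw [hts ⟨a, j⟩, map_sum, Finset.sum_mul]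
        refine Finset.sum_congr rfl fun i _ => ?_
        rw [C_mul]
        ring
      rw [Finset.sum_congr rfl fun j _ => h2 j, Finset.sum_comm]
      refine Finset.sum_congr rfl fun i _ => ?_
      rw [← Finset.mul_sum, hL, map_sum]
      congr 1
      refine Finset.sum_congr rfl fun j _ => ?_
      rw [smul_eq_C_mul, map_mul, map_C]
    rw [h1, Fintype.sum_sum_type]
    refine (add_comm _ _).trans ?_
    congr 1
    · rw [hR, map_sum]
      refine Finset.sum_congr rfl fun i _ => ?_
      rw [map_mul, map_C, map_map, ← IsScalarTower.algebraMap_eq, ← hx]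
      rfl
    · rw [hH, Finset.mul_sum]
      refine Finset.sum_congr rfl fun p _ => ?_
      rw [hb, hLw, ← hy]
      split_ifs
      · rw [map_mul, map_monomial, map_one]
        have h3 : (monomial p.2.1 (y p) : MvPolynomial (Fin (n + 1)) K) =
            C (y p) * monomial p.2.1 1 := by
          rw [C_mul_monomial, mul_one]
        rw [h3]
        ring
      · rw [map_zero, mul_zero, mul_zero]

end Pool.Agent.K9h33.BL
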